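import Pool.Agent.Lib.SmN.P.Half2

/-!
# SMITH-U (SmN), block P, module Half3: the hypotheses of `half_half`

`recQ_of`: `RecQ` from `LagF`; `fin_Sel1`: the 2-Selmer groups of all twists are finite, from
`LagV S T`; `exists_ram`: a character unramified outside `T` and ramified at `v0`, from `LagF` for
`T` and `T \ {v0}`.
-/

set_option autoImplicit false

open Finset

namespace Pool.Agent.SmN.Half

open Pool.Agent.SmN.Ch Pool.Agent.Sm

variable {G V V1 Pl : Type} [Group G] [AddCommGroup V] [DistribMulAction G V]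
  [AddCommGroup V1] [Module (ZMod 2) V1] {S : Sys G V V1 Pl}

theorem recQ_of {T : Set Pl} (hF : LagF S T) : S.RecQ := fun c d hc hd => hF.recip c d hc hd

/-- The cocycles unramified outside `T` are finite in number. -/
theorem fin_ZT (h : S.Ok) {T : Set Pl} (hV : LagV S T) : Finite {b : G → V1 // ZT S T b} := by
  classical
  have hf1 := h.fin1
  have hfT : Finite T := hV.fin
  -- choose representatives of the fibres of the localisation map
  let L : {b : G → V1 // ZT S T b} → (T → V1 × V1) := fun b v => S.loc v.1 b.1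
  have hinj : ∀ b b' : {b : G → V1 // ZT S T b}, L b = L b' →
      ∃ z : V1, ∀ s, b.1 s = b'.1 s + (S.ac s z - z) := by
    intro b b' hbb
    have h1 : ZT S T (b.1 + b'.1) := ⟨b.2.1.add h b'.2.1, fun v hv => by
      rw [Pi.add_apply, b.2.2 v hv, b'.2.2 v hv, add_zero]⟩
    obtain ⟨z, hz⟩ := hV.inj _ h1 fun v hv => ⟨0, by
      have h2 : S.loc v b.1 = S.loc v b'.1 := congrFun hbb ⟨v, hv⟩
      rw [Sys.loc_add, h2, ZModModule.add_self]
      refine Prod.ext ?_ ?_
      · change (0 : V1) = S.ac (S.sg v) 0 - 0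
        rw [map_zero, sub_zero]
      · change (0 : V1) = S.ac (S.phi v) 0 - 0
        rw [map_zero, sub_zero]⟩
    refine ⟨z, fun s => ?_⟩
    rw [← hz s, Pi.add_apply]
    have h3 : b'.1 s + (b.1 s + b'.1 s) = b.1 s + (b'.1 s + b'.1 s) := by abel
    rw [h3, V1_add_self, add_zero]
  let rep : (T → V1 × V1) → {b : G → V1 // ZT S T b} := fun x =>
    if hx : ∃ b, L b = x then hx.choose else ⟨0, Sys.CocG.zero h, fun _ _ => rfl⟩
  have hrep : ∀ b, L (rep (L b)) = L b := by
    intro b
    have hx : ∃ b', L b' = L b := ⟨b, rfl⟩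
    simp only [rep, dif_pos hx]
    exact hx.choose_spec
  refine Finite.of_surjective (α := (T → V1 × V1) × V1)
    (fun x => if hx : ZT S T (fun s => (rep x.1).1 s + (S.ac s x.2 - x.2)) then ⟨_, hx⟩
      else ⟨0, Sys.CocG.zero h, fun _ _ => rfl⟩) ?_
  intro b
  obtain ⟨z, hz⟩ := hinj b (rep (L b)) (hrep b).symm
  have h1 : (fun s => (rep (L b)).1 s + (S.ac s z - z)) = b.1 := funext fun s => (hz s).symm
  refine ⟨(L b, z), ?_⟩
  beta_reduce
  have h2 : ZT S T (fun s => (rep (L b)).1 s + (S.ac s z - z)) := by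
    rw [h1]
    exact b.2
  refine (dif_pos h2).trans ?_
  exact Subtype.ext h1

/-- The 2-Selmer groups are finite. -/
theorem fin_Sel1 (h : S.Ok) {T : Set Pl} (hV : LagV S T) {chi : G → ZMod 2}
    (hchi : S.HomG chi) : Finite (S.Sel1 h chi) := by
  classical
  have hf1 := h.fin1
  have hfZ := fin_ZT h hV
  have hfR : {v | chi (S.sg v) ≠ 0}.Finite := hchi.fin h
  have hfR' : Finite {v | chi (S.sg v) ≠ 0} := hfR
  -- the values at the ramified places
  let L : S.Sel1 h chi → ({v | chi (S.sg v) ≠ 0} → V1) := fun b v => b.1 (S.sg v.1)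
  have hdiff : ∀ b b' : S.Sel1 h chi, L b = L b' → ZT S T (b.1 + b'.1) := by
    intro b b' hbb
    refine ⟨b.2.1.add h b'.2.1, fun v hv => ?_⟩
    have hg : v ∈ S.good := by
      by_contra hcon
      exact hv (hV.bad hcon)
    by_cases hr : chi (S.sg v) = 0
    · have h1 := (Sys.mem_Wl_good h hchi hg hr _).1 (b.2.2 v)
      have h2 := (Sys.mem_Wl_good h hchi hg hr _).1 (b'.2.2 v)
      have h1' : b.1 (S.sg v) = 0 := h1
      have h2' : b'.1 (S.sg v) = 0 := h2
      rw [Pi.add_apply, h1', h2', add_zero]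
    · have h1 : b.1 (S.sg v) = b'.1 (S.sg v) := congrFun hbb ⟨v, hr⟩
      rw [Pi.add_apply, h1, V1_add_self]
  let rep : ({v | chi (S.sg v) ≠ 0} → V1) → S.Sel1 h chi := fun x =>
    if hx : ∃ b, L b = x then hx.choose else 0
  have hrep : ∀ b, L (rep (L b)) = L b := by
    intro b
    have hx : ∃ b', L b' = L b := ⟨b, rfl⟩
    simp only [rep, dif_pos hx]
    exact hx.choose_spec
  refine Finite.of_injective (β := ({v | chi (S.sg v) ≠ 0} → V1) × {b : G → V1 // ZT S T b})
    (fun b => (L b, ⟨b.1 + (rep (L b)).1, hdiff b _ (hrep b).symm⟩)) ?_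
  intro b b' hbb
  have h1 : L b = L b' := congrArg Prod.fst hbb
  have h2 : b.1 + (rep (L b)).1 = b'.1 + (rep (L b')).1 :=
    congrArg (fun x => x.2.1) hbb
  rw [h1] at h2
  exact Subtype.ext (add_right_cancel h2)

/-- A character unramified outside `T` which is ramified at `v0`. -/
theorem exists_ram (h : S.Ok) {T : Finset Pl} {v0 : T} (hF : LagF S (T : Set Pl))
    (hF' : LagF S ((T : Set Pl) \ {v0.1})) : ∃ c ∈ XG S T h, c (S.sg v0.1) = 1 := by
  classical
  by_contra hcon
  push Not at hcon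
  obtain ⟨om, h1, h2⟩ := exists_om h hF (a0 v0) fun c hc => by
    rw [br_a0]
    exact (z01 _).resolve_right (hcon c hc)
  have h3 := congrFun h2 v0
  rw [a0, Pi.single_eq_same] at h3
  have h4 : om = 0 := by
    refine hF'.inj om ⟨h1.1, fun v hv => ?_⟩ fun v hv => ?_
    · by_cases hvT : v ∈ (T : Set Pl)
      · have hv0 : v = v0.1 := by
          by_contra hne
          exact hv ⟨hvT, hne⟩
        rw [hv0]
        exact congrArg Prod.fst h3
      · exact h1.2 v hvT
    · have h5 := congrFun h2 ⟨v, hv.1⟩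
      rw [a0, Pi.single_eq_of_ne] at h5
      · exact h5
      · exact fun he => hv.2 (congrArg Subtype.val he)
  have h5 : om (S.phi v0.1) = 1 := congrArg Prod.snd h3
  rw [h4] at h5
  exact zero_ne_one h5

end Pool.Agent.SmN.Half
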