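import Pool.Agent.Lib.SmN.P.Lagr
import Pool.Agent.Lib.SmJ.P.Par
import Pool.Agent.Lib.SmN.G.Crit

/-!
# SMITH with action on `V1`, block P5, module Kramer: the parity of the 2-Selmer ranks of two twists

`QOk S qv`: local quadratic forms `qv v` on the pairs of values of cocycles with polar form
`S.sy v`, which vanish on all local Kummer groups and satisfy the reciprocity law; `S.sy v` is
nondegenerate on `V1 × V1`.
`parity_rel`: if outside the finite set `T` the local Kummer groups of the two twists agree or have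
an intersection of square order, then `#Sel1 (chi) * #Sel1 (chi') * ∏_(v ∈ T) #(W_v ∩ W'_v)` is a
square.
-/

set_option autoImplicit false

namespace Pool.Agent.SmN

open Module

namespace Sys

variable {G V V1 Pl : Type*} [Group G] [AddCommGroup V] [DistribMulAction G V]
  [AddCommGroup V1] [Module (ZMod 2) V1]

/-- Local quadratic forms. -/
structure QOk (S : Sys G V V1 Pl) (qv : Pl → V1 × V1 → ZMod 2) : Prop where
  nd : ∀ v, ∀ x : V1 × V1, (∀ y, S.sy v x y = 0) → x = 0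
  add : ∀ v, ∀ x ∈ S.CP v, ∀ y ∈ S.CP v, qv v (x + y) = qv v x + qv v y + S.sy v x y
  van : ∀ chi : G → ZMod 2, S.HomG chi → ∀ v, ∀ x ∈ S.Wl chi v, qv v x = 0
  recip : ∀ c : G → V1, S.CocG c → ∑ᶠ v, qv v (S.loc v c) = 0

section form

variable (S : Sys G V V1 Pl) (U : Finset Pl)

/-- The sum of the local pairings over `U`. -/
noncomputable def bU : LinearMap.BilinForm (ZMod 2) (U → V1 × V1) :=
  LinearMap.mk₂ (ZMod 2) (fun x y => ∑ v : U, S.sy v.1 (x v) (y v))
    (fun x y z => by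
      simp only [Pi.add_apply, sy_add_left, Finset.sum_add_distrib])
    (fun a x y => by
      simp only [Pi.smul_apply, map_smul, LinearMap.smul_apply, Finset.smul_sum])
    (fun x y z => by
      simp only [Pi.add_apply, sy_add_right, Finset.sum_add_distrib])
    (fun a x y => by
      simp only [Pi.smul_apply, map_smul, Finset.smul_sum])

theorem bU_apply (x y : U → V1 × V1) : S.bU U x y = ∑ v : U, S.sy v.1 (x v) (y v) := rfl

/-- The families of pairs of values of local cocycles. -/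
def CPU (h : S.Ok) : Submodule (ZMod 2) (U → V1 × V1) :=
  AddSubgroup.toZModSubmodule 2
    { carrier := {x | ∀ v : U, x v ∈ S.CP v.1}
      zero_mem' := fun v => by
        have h1 := cob_mem_CP h v.1 0
        rwa [show S.cob v.1 0 = 0 by simp [cob]] at h1
      add_mem' := fun hx hy v => CP_add h (hx v) (hy v)
      neg_mem' := fun {x} hx v => by
        have hx' : -x = x := ZModModule.neg_eq_self x
        rw [hx']
        exact hx v }

theorem mem_CPU {h : S.Ok} {x : U → V1 × V1} : x ∈ S.CPU U h ↔ ∀ v : U, x v ∈ S.CP v.1 := Iff.rfl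

theorem bU_comm (h : S.Ok) {x y : U → V1 × V1} (hx : x ∈ S.CPU U h) (hy : y ∈ S.CPU U h) :
    S.bU U x y = S.bU U y x := by
  rw [bU_apply, bU_apply]
  exact Finset.sum_congr rfl fun v _ => h.sy_comm v.1 _ (hx v) _ (hy v)

theorem bU_nondeg {qv : Pl → V1 × V1 → ZMod 2} (hq : S.QOk qv) (x : U → V1 × V1)
    (hx : ∀ y, S.bU U x y = 0) : x = 0 := by
  classical
  funext v
  refine hq.nd v.1 _ fun y => ?_
  have h1 := hx (Pi.single v y)
  rw [bU_apply, Finset.sum_eq_single v] at h1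
  · rwa [Pi.single_eq_same] at h1
  · intro w _ hw
    rw [Pi.single_eq_of_ne hw, sy_zero_right]
  · intro h2
    exact absurd (Finset.mem_univ v) h2

/-- The sum of the local quadratic forms over `U`. -/
def qU (qv : Pl → V1 × V1 → ZMod 2) (x : U → V1 × V1) : ZMod 2 := ∑ v : U, qv v.1 (x v)

theorem qU_add {h : S.Ok} {qv : Pl → V1 × V1 → ZMod 2} (hq : S.QOk qv) {x y : U → V1 × V1}
    (hx : x ∈ S.CPU U h) (hy : y ∈ S.CPU U h) :
    qU U qv (x + y) = qU U qv x + qU U qv y + S.bU U x y := by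
  simp only [qU, bU_apply, Pi.add_apply]
  rw [Finset.sum_congr rfl fun v _ => hq.add v.1 _ (hx v) _ (hy v)]
  simp only [Finset.sum_add_distrib]

theorem finrank_XU [Finite V1] : finrank (ZMod 2) (U → V1 × V1) =
    2 * (finrank (ZMod 2) V1 * U.card) := by
  have : Module.Finite (ZMod 2) V1 := Module.Finite.of_finite
  rw [Module.finrank_pi_fintype]
  simp only [Module.finrank_prod, Finset.sum_const, Finset.card_univ,
    Fintype.card_coe, smul_eq_mul]
  ring

/-- The product of the local Kummer groups. -/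
noncomputable def PW (chi : G → ZMod 2) : Submodule (ZMod 2) (U → V1 × V1) :=
  AddSubgroup.toZModSubmodule 2 (AddSubgroup.pi Set.univ fun v : U => S.W chi v.1)

theorem mem_PW {chi : G → ZMod 2} {x : U → V1 × V1} :
    x ∈ S.PW U chi ↔ ∀ v : U, x v ∈ S.W chi v.1 := by
  rw [PW, AddSubgroup.mem_toZModSubmodule, AddSubgroup.mem_pi]
  exact ⟨fun h v => h v (Set.mem_univ v), fun h v _ => h v⟩

theorem PW_le (h : S.Ok) {chi : G → ZMod 2} (hchi : S.HomG chi) : S.PW U chi ≤ S.CPU U h :=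
  fun _ hx v => Wl_sub_CP h hchi v.1 ((S.mem_PW U).mp hx v)

/-- The global classes which satisfy the local conditions outside `U`, as elements of the product
over `U`. -/
noncomputable def GU (chi : G → ZMod 2) (h : S.Ok) : Submodule (ZMod 2) (U → V1 × V1) :=
  AddSubgroup.toZModSubmodule 2
    { carrier := {x | ∃ c : G → V1, S.CocG c ∧ (∀ v : U, S.loc v.1 c = x v) ∧
        ∀ v, v ∉ U → S.loc v c ∈ S.W chi v}
      zero_mem' := ⟨0, CocG.zero h, fun _ => rfl, fun v _ => (S.W chi v).zero_mem⟩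
      add_mem' := by
        rintro x y ⟨c, h1, h2, h3⟩ ⟨d, g1, g2, g3⟩
        exact ⟨c + d, h1.add h g1, fun v => by rw [loc_add, h2, g2]; rfl,
          fun v hv => (S.W chi v).add_mem (h3 v hv) (g3 v hv)⟩
      neg_mem' := by
        rintro x ⟨c, h1, h2, h3⟩
        have hx : -x = x := ZModModule.neg_eq_self x
        rw [hx]
        exact ⟨c, h1, h2, h3⟩ }

theorem mem_GU {chi : G → ZMod 2} {h : S.Ok} {x : U → V1 × V1} :
    x ∈ S.GU U chi h ↔ ∃ c : G → V1, S.CocG c ∧ (∀ v : U, S.loc v.1 c = x v) ∧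
      ∀ v, v ∉ U → S.loc v c ∈ S.W chi v := Iff.rfl

theorem GU_le (h : S.Ok) (chi : G → ZMod 2) : S.GU U chi h ≤ S.CPU U h := by
  rintro x ⟨c, h1, h2, _⟩ v
  rw [← h2 v]
  exact loc_mem_CP h1 v.1

end form

variable {S : Sys G V V1 Pl}

private theorem Kramer_card {E : Type*} [AddCommGroup E] [Module (ZMod 2) E]
    [Module.Finite (ZMod 2) E] : Nat.card E = 2 ^ finrank (ZMod 2) E := by
  rw [Module.natCard_eq_pow_finrank (K := ZMod 2), Nat.card_eq_fintype_card, ZMod.card]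

theorem card_PW_inf (U : Finset Pl) (chi chi' : G → ZMod 2) :
    Nat.card (S.PW U chi ⊓ S.PW U chi' : Submodule (ZMod 2) (U → V1 × V1)) =
      ∏ v ∈ U, Nat.card (S.W chi v ⊓ S.W chi' v : AddSubgroup (V1 × V1)) := by
  classical
  rw [← Finset.prod_coe_sort U, ← Nat.card_pi]
  refine Nat.card_congr ⟨fun x v => ⟨x.1 v, (S.mem_PW U).mp x.2.1 v, (S.mem_PW U).mp x.2.2 v⟩,
    fun y => ⟨fun v => (y v).1, (S.mem_PW U).mpr fun v => (y v).2.1,
      (S.mem_PW U).mpr fun v => (y v).2.2⟩, fun _ => rfl, fun _ => rfl⟩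

theorem finrank_PW (h : S.Ok) {chi : G → ZMod 2} (hchi : S.HomG chi) (U : Finset Pl) :
    finrank (ZMod 2) (S.PW U chi) = finrank (ZMod 2) V1 * U.card := by
  have hf1 := h.fin1
  have hm1 : Module.Finite (ZMod 2) V1 := Module.Finite.of_finite
  have h1 := card_PW_inf (S := S) U chi chi
  rw [inf_idem] at h1
  simp only [inf_idem, card_W h hchi, Finset.prod_const] at h1
  rw [Kramer_card, Kramer_card (E := V1), ← pow_mul] at h1
  exact Nat.pow_right_injective le_rfl h1

theorem qU_GU (h : S.Ok) {qv : Pl → V1 × V1 → ZMod 2} (hq : S.QOk qv) {chi : G → ZMod 2}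
    (hchi : S.HomG chi) (U : Finset Pl) : ∀ x ∈ S.GU U chi h, qU U qv x = 0 := by
  rintro x ⟨c, h1, h2, h3⟩
  rw [← hq.recip c h1, qU, finsum_eq_sum_of_support_subset _ (s := U)]
  · rw [← Finset.sum_coe_sort U]
    exact Finset.sum_congr rfl fun v _ => by rw [h2]
  · intro v hv
    by_contra hU
    exact hv (hq.van chi hchi v _ (h3 v hU))

theorem qU_PW {qv : Pl → V1 × V1 → ZMod 2} (hq : S.QOk qv) {chi : G → ZMod 2}
    (hchi : S.HomG chi) (U : Finset Pl) : ∀ x ∈ S.PW U chi, qU U qv x = 0 := by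
  intro x hx
  exact Finset.sum_eq_zero fun v _ => hq.van chi hchi v.1 _ ((S.mem_PW U).mp hx v)

theorem dual_GU (h : S.Ok) {chi : G → ZMod 2} (hchi : S.HomG chi) (U : Finset Pl) :
    ∀ x ∈ S.CPU U h, (∀ y ∈ S.GU U chi h ⊓ S.PW U chi, S.bU U y x = 0) →
      x ∈ S.GU U chi h ⊔ S.PW U chi := by
  classical
  intro x hxY hx
  have h0 : ∀ v, (0 : V1 × V1) ∈ S.CP v := fun v => by
    have h1 := cob_mem_CP h v 0
    rwa [show S.cob v 0 = 0 by simp [cob]] at h1
  set xi : Pl → V1 × V1 := fun v => if hv : v ∈ U then x ⟨v, hv⟩ else 0 with hxi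
  have hxi1 : ∀ v : U, xi v.1 = x v := fun v => by rw [hxi]; exact dif_pos v.2
  have hxi2 : ∀ v, v ∉ U → xi v = 0 := fun v hv => by rw [hxi]; exact dif_neg hv
  obtain ⟨om, hom, hloc⟩ := h.dual (S.W chi) (fun v => Wl_sub_CP h hchi v)
    (fun v z => cob_mem_Wl h chi v z) (card_W h hchi)
    (fun v x hx y hy => h.isot chi hchi v x hx y hy) (exc_fin h hchi) xi
    (fun v => by
      by_cases hv : v ∈ U
      · have h1 := hxi1 ⟨v, hv⟩
        rw [show xi v = x ⟨v, hv⟩ from h1]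
        exact hxY ⟨v, hv⟩
      · rw [hxi2 v hv]
        exact h0 v)
    (U.finite_toSet.subset fun v hv => by
      by_contra hU
      refine hv ?_
      rw [hxi2 v hU]
      exact (S.W chi v).zero_mem)
    (fun b hb1 hb2 => by
      have h1 : (fun v : U => S.loc v.1 b) ∈ S.GU U chi h ⊓ S.PW U chi :=
        ⟨⟨b, hb1, fun _ => rfl, fun v _ => hb2 v⟩, (S.mem_PW U).mpr fun v => hb2 v.1⟩
      have h2 : S.bU U (fun v : U => S.loc v.1 b) x = 0 := hx _ h1
      rw [bU_comm S U h (GU_le S U h chi h1.1) hxY, bU_apply] at h2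
      rw [← h2, finsum_eq_sum_of_support_subset _ (s := U), ← Finset.sum_coe_sort U]
      · exact Finset.sum_congr rfl fun v _ => by rw [hxi1]
      · intro v hv
        by_contra hU
        refine hv ?_
        change S.sy v (xi v) (S.loc v b) = 0
        rw [hxi2 v hU, sy_zero_left])
  set a : U → V1 × V1 := fun v => S.loc v.1 om with ha
  have h3 : a ∈ S.GU U chi h := ⟨om, hom, fun _ => rfl, fun v hv => by
    have := hloc v
    rwa [hxi2 v hv, sub_zero] at this⟩
  have h4 : x - a ∈ S.PW U chi := (S.mem_PW U).mpr fun v => by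
    have h5 := (S.W chi v.1).neg_mem (hloc v.1)
    rw [hxi1, neg_sub] at h5
    exact h5
  rw [show x = a + (x - a) by abel]
  exact Submodule.add_mem_sup h3 h4

/-- Restriction of the 2-Selmer group to `U`. -/
noncomputable def resU (h : S.Ok) (chi : G → ZMod 2) (U : Finset Pl) :
    S.Sel1 h chi →+ (U → V1 × V1) where
  toFun c v := S.loc v.1 c.1
  map_zero' := rfl
  map_add' _ _ := rfl

theorem resU_range (h : S.Ok) (chi : G → ZMod 2) (U : Finset Pl) :
    Nat.card (resU h chi U).range =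
      Nat.card (S.GU U chi h ⊓ S.PW U chi : Submodule (ZMod 2) (U → V1 × V1)) := by
  have h1 : ((resU h chi U).range : Set (U → V1 × V1)) =
      ((S.GU U chi h ⊓ S.PW U chi : Submodule (ZMod 2) (U → V1 × V1)) : Set _) := by
    ext x
    constructor
    · rintro ⟨c, rfl⟩
      exact ⟨⟨c.1, c.2.1, fun _ => rfl, fun v _ => c.2.2 v⟩, (S.mem_PW U).mpr fun v => c.2.2 v.1⟩
    · rintro ⟨⟨c, h1, h2, h3⟩, h4⟩
      refine ⟨⟨c, h1, fun v => ?_⟩, funext fun v => h2 v⟩
      by_cases hv : v ∈ U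
      · have := (S.mem_PW U).mp h4 ⟨v, hv⟩
        rw [← h2] at this
        exact this
      · exact h3 v hv
  exact Nat.card_congr (Equiv.setCongr h1)

theorem card_Sel1_resU (h : S.Ok) (chi : G → ZMod 2) (U : Finset Pl) :
    Nat.card (S.Sel1 h chi) = Nat.card (resU h chi U).ker *
      Nat.card (S.GU U chi h ⊓ S.PW U chi : Submodule (ZMod 2) (U → V1 × V1)) := by
  rw [← resU_range, card_hom]

/-- The kernels of the restriction maps of the two twists agree. -/
theorem card_ker_resU (h : S.Ok) {chi chi' : G → ZMod 2} {U : Finset Pl}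
    (hU : ∀ v, v ∉ U → S.W chi v = S.W chi' v) :
    Nat.card (resU h chi U).ker = Nat.card (resU h chi' U).ker := by
  have key : ∀ {chi chi' : G → ZMod 2}, (∀ v, v ∉ U → S.W chi v = S.W chi' v) →
      ∀ c : (resU h chi U).ker, c.1.1 ∈ S.Sel1 h chi' := by
    intro chi chi' hU c
    refine ⟨c.1.2.1, fun v => ?_⟩
    by_cases hv : v ∈ U
    · have h1 : S.loc v c.1.1 = 0 := congrFun c.2 ⟨v, hv⟩
      rw [h1]
      exact (S.W chi' v).zero_mem
    · rw [← mem_W, ← hU v hv]
      exact c.1.2.2 v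
  exact Nat.card_congr ⟨fun c => ⟨⟨c.1.1, key hU c⟩, c.2⟩,
    fun c => ⟨⟨c.1.1, key (fun v hv => (hU v hv).symm) c⟩, c.2⟩, fun _ => rfl, fun _ => rfl⟩

theorem GU_congr (h : S.Ok) {chi chi' : G → ZMod 2} {U : Finset Pl}
    (hU : ∀ v, v ∉ U → S.W chi v = S.W chi' v) : S.GU U chi h = S.GU U chi' h := by
  ext x
  rw [mem_GU, mem_GU]
  constructor
  · rintro ⟨c, h1, h2, h3⟩
    exact ⟨c, h1, h2, fun v hv => by rw [← hU v hv]; exact h3 v hv⟩
  · rintro ⟨c, h1, h2, h3⟩
    exact ⟨c, h1, h2, fun v hv => by rw [hU v hv]; exact h3 v hv⟩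

/-- `dim V1` is even. -/
theorem even_finrank_V1 (h : S.Ok) : Even (finrank (ZMod 2) V1) := by
  have hf1 := h.fin1
  have hm1 : Module.Finite (ZMod 2) V1 := Module.Finite.of_finite
  exact Pool.Agent.SmJ.even_finrank_of_alt S.e h.e_alt h.e_nondeg

theorem isSquare_of_mul {x y : ℕ} (hy : IsSquare y) (h0 : y ≠ 0) (h : IsSquare (x * y)) :
    IsSquare x := by
  obtain ⟨b, rfl⟩ := hy
  obtain ⟨a, ha⟩ := h
  have hb : b ≠ 0 := fun hb => h0 (by rw [hb])
  have h1 : b * b ∣ a * a := ⟨x, by rw [← ha]; ring⟩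
  have h2 : b ∣ a := by
    rw [← sq, ← sq] at h1
    exact (Nat.pow_dvd_pow_iff two_ne_zero).mp h1
  obtain ⟨c, rfl⟩ := h2
  refine ⟨c, ?_⟩
  have h3 : (b * b) * x = (b * b) * (c * c) := by
    rw [mul_comm, ha]; ring
  exact Nat.eq_of_mul_eq_mul_left (Nat.pos_of_ne_zero h0) h3

/-- The parity relation (Kramer; Klagsbrun, Mazur, Rubin). -/
theorem parity_rel (h : S.Ok) {qv : Pl → V1 × V1 → ZMod 2} (hq : S.QOk qv)
    {chi chi' : G → ZMod 2} (hchi : S.HomG chi) (hchi' : S.HomG chi') (T : Finset Pl)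
    (hT : ∀ v, v ∉ T → S.W chi v ≠ S.W chi' v →
      IsSquare (Nat.card (S.W chi v ⊓ S.W chi' v : AddSubgroup (V1 × V1)))) :
    IsSquare (Nat.card (S.Sel1 h chi) * Nat.card (S.Sel1 h chi') *
      ∏ v ∈ T, Nat.card (S.W chi v ⊓ S.W chi' v : AddSubgroup (V1 × V1))) := by
  classical
  have hf1 := h.fin1
  have hm1 : Module.Finite (ZMod 2) V1 := Module.Finite.of_finite
  have hfin : {v | S.W chi v ≠ S.W chi' v}.Finite := by
    refine ((exc_fin h hchi).union (exc_fin h hchi')).subset fun v hv => ?_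
    by_contra hcon
    rw [Set.mem_union, not_or] at hcon
    refine hv (AddSubgroup.ext fun x => ?_)
    rw [not_not.mp hcon.1 x, not_not.mp hcon.2 x]
  set U : Finset Pl := hfin.toFinset with hUdef
  have hU : ∀ v, v ∉ U → S.W chi v = S.W chi' v := fun v hv => by
    by_contra hcon
    exact hv (hfin.mem_toFinset.mpr hcon)
  have hU' : ∀ v, v ∈ U → S.W chi v ≠ S.W chi' v := fun v hv => hfin.mem_toFinset.mp hv
  -- the three Lagrangians
  have h3 := kramer_lin (S.bU U) (S.bU_nondeg U hq) (Y := S.CPU U h)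
    (fun x hx y hy => S.bU_comm U h hx hy) (qU U qv) (fun x hx y hy => S.qU_add U hq hx hy)
    (finrank_XU U) (S.GU U chi h) (S.PW U chi) (S.PW U chi') (S.GU_le U h chi)
    (S.PW_le U h hchi) (S.PW_le U h hchi') (qU_GU h hq hchi U)
    (qU_PW hq hchi U) (qU_PW hq hchi' U) (finrank_PW h hchi U)
    (finrank_PW h hchi' U) (dual_GU h hchi U)
  obtain ⟨g, hg⟩ := even_finrank_V1 h
  set f : Pl → ℕ := fun v => Nat.card (S.W chi v ⊓ S.W chi' v : AddSubgroup (V1 × V1)) with hf
  have hf0 : ∀ v, f v ≠ 0 := fun v => Nat.card_pos.ne'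
  have hBC : Nat.card (S.PW U chi ⊓ S.PW U chi' : Submodule (ZMod 2) (U → V1 × V1)) =
      ∏ v ∈ U, f v := card_PW_inf U chi chi'
  have hV1 : Nat.card V1 = 2 ^ g * 2 ^ g := by rw [Kramer_card, hg, pow_add]
  have sqp : ∀ A : Finset Pl, (∀ v ∈ A, IsSquare (f v)) → IsSquare (∏ v ∈ A, f v) := by
    intro A hA
    induction A using Finset.induction_on with
    | empty => exact ⟨1, by simp⟩
    | insert a A ha ih =>
      rw [Finset.prod_insert ha]
      exact (hA a (Finset.mem_insert_self a A)).mul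
        (ih fun v hv => hA v (Finset.mem_insert_of_mem hv))
  have e1 : ∏ v ∈ U, f v = (∏ v ∈ U ∩ T, f v) * ∏ v ∈ U \ T, f v :=
    (Finset.prod_inter_mul_prod_sdiff U T f).symm
  have e2 : ∏ v ∈ T, f v = (∏ v ∈ U ∩ T, f v) * ∏ v ∈ T \ U, f v := by
    rw [← Finset.prod_inter_mul_prod_sdiff T U f, Finset.inter_comm T U]
  have s1 : IsSquare (∏ v ∈ U \ T, f v) := sqp _ fun v hv =>
    hT v (Finset.mem_sdiff.mp hv).2 (hU' v (Finset.mem_sdiff.mp hv).1)
  have s2 : IsSquare (∏ v ∈ T \ U, f v) := sqp _ fun v hv => by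
    have h1 := hU v (Finset.mem_sdiff.mp hv).2
    change IsSquare (Nat.card (S.W chi v ⊓ S.W chi' v : AddSubgroup (V1 × V1)))
    rw [← h1, inf_idem, card_W h hchi, hV1]
    exact ⟨2 ^ g, rfl⟩
  have n1 : ∏ v ∈ U \ T, f v ≠ 0 := Finset.prod_ne_zero_iff.mpr fun v _ => hf0 v

  rw [card_Sel1_resU h chi U, card_Sel1_resU h chi' U, ← card_ker_resU h hU, ← GU_congr h hU]
  set K := Nat.card (resU h chi U).ker with hK
  rw [e2]
  rw [e1] at hBC
  rw [Kramer_card (E := (S.GU U chi h ⊓ S.PW U chi : Submodule _ _)),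
    Kramer_card (E := (S.GU U chi h ⊓ S.PW U chi' : Submodule _ _))]
  rw [Kramer_card (E := (S.PW U chi ⊓ S.PW U chi' : Submodule _ _))] at hBC
  set a := finrank (ZMod 2) (S.GU U chi h ⊓ S.PW U chi : Submodule (ZMod 2) (U → V1 × V1))
  set b := finrank (ZMod 2) (S.GU U chi h ⊓ S.PW U chi' : Submodule (ZMod 2) (U → V1 × V1))
  set c := finrank (ZMod 2) (S.PW U chi ⊓ S.PW U chi' : Submodule (ZMod 2) (U → V1 × V1))
  have h4 : Even (a + b + c) := by
    have h5 : Even (finrank (ZMod 2) V1 * U.card) := by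
      rw [hg]
      exact (Even.add_self g).mul_right _
    rw [Nat.even_iff] at h3 h5 ⊢
    omega
  obtain ⟨r, hr⟩ := h4
  have h5 : IsSquare (2 ^ a * 2 ^ b * ∏ v ∈ U ∩ T, f v) := by
    refine isSquare_of_mul s1 n1 ⟨2 ^ r, ?_⟩
    rw [mul_assoc, ← hBC, ← pow_add, ← pow_add, ← pow_add, hr]
  have h6 : K * 2 ^ a * (K * 2 ^ b) * ((∏ v ∈ U ∩ T, f v) * ∏ v ∈ T \ U, f v) =
      (K * K) * ((2 ^ a * 2 ^ b * ∏ v ∈ U ∩ T, f v) * ∏ v ∈ T \ U, f v) := by ring
  rw [h6]
  exact (IsSquare.mul ⟨K, rfl⟩ (h5.mul s2))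

end Sys

end Pool.Agent.SmN
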