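import Pool.Agent.Lib.SmN.P.RedM

/-!
# SMITH with action on `V1`, block P, module MQ: the part of `Sys.MOk` needed for the local quadratic
forms (no Hasse principle, no Hilbert 90)
-/

set_option autoImplicit false

namespace Pool.Agent.SmN.Sys

variable {G V V1 Pl M : Type*} [Group G] [AddCommGroup V] [DistribMulAction G V]
  [AddCommGroup V1] [Module (ZMod 2) V1]
  [AddCommGroup M] [DistribMulAction G M]

/-- Facts on the module `M` of 2-power roots of unity, finiteness of the quotients. -/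
structure MQ (S : Sys G V V1 Pl) (hf : ZMod 2 →+ M) : Prop where
  fin : ∀ N ∈ S.NN, N.FiniteIndex
  half : ∀ m : M, ∃ m', (2 : ℕ) • m' = m
  inj : Function.Injective hf
  two : ∀ m : M, (2 : ℕ) • m = 0 → ∃ a, hf a = m
  act : ∀ m : M, ∃ N ∈ S.NN, ∀ s ∈ N, s • m = m

variable {S : Sys G V V1 Pl} {hf : ZMod 2 →+ M}

theorem MOk.mq (h : S.MOk hf) : S.MQ hf where
  fin := h.fin
  half := h.half
  inj := h.inj
  two := h.two
  act := h.act

theorem MQ.act_fin (h : S.Ok) (hM : S.MQ hf) {A : Set M} (hA : A.Finite) :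
    ∃ N ∈ S.NN, ∀ s ∈ N, ∀ m ∈ A, s • m = m := by
  induction A, hA using Set.Finite.induction_on with
  | empty => exact ⟨⊤, h.top_mem, fun s _ m hm => hm.elim⟩
  | @insert a A _ _ ih =>
    obtain ⟨N, hN, h1⟩ := ih
    obtain ⟨N', hN', h2⟩ := hM.act a
    refine ⟨N ⊓ N', h.inf_mem _ hN _ hN', fun s hs m hm => ?_⟩
    rcases hm with rfl | hm
    · exact h2 s hs.2
    · exact h1 s hs.1 m hm

/-- The coboundary of a 2-finite cochain is 2-finite. -/
theorem MQ.tf2_d (h : S.Ok) (hM : S.MQ hf) {b : G → M} (hb : S.TF b) :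
    S.TF2 (fun s t => b s + s • b t - b (s * t)) := by
  have hr : (Set.range b).Finite := by
    obtain ⟨N, hN, h1⟩ := hb
    have : N.FiniteIndex := hM.fin N hN
    have : Finite (G ⧸ N) := N.finite_quotient_of_finiteIndex
    refine (Set.finite_range (fun q : G ⧸ N => b q.out)).subset ?_
    rintro _ ⟨s, rfl⟩
    obtain ⟨n, hn⟩ := QuotientGroup.mk_out_eq_mul N s
    refine ⟨(s : G ⧸ N), ?_⟩
    beta_reduce
    rw [hn, h1 s n n.2]
  obtain ⟨N', hN', h2⟩ := hM.act_fin h hr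
  obtain ⟨N, hN, h1⟩ := hb
  have := h.normal N hN
  refine ⟨N ⊓ N', h.inf_mem _ hN _ hN', fun s t n hn m hm => ?_⟩
  beta_reduce
  rw [h1 s n hn.1, h1 t m hm.1, mul_smul, h2 n hn.2 _ ⟨t, rfl⟩]
  congr 1
  have h3 : s * n * (t * m) = s * t * ((t⁻¹ * n * t) * m) := by group
  rw [h3, h1]
  refine mul_mem ?_ hm.1
  have := Subgroup.Normal.conj_mem inferInstance n hn.1 t⁻¹
  rwa [inv_inv] at this

end Pool.Agent.SmN.Sys
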