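import Pool.Agent.Lib.SmN.P.Q2
import Pool.Agent.Lib.SmN.P.Kramer
import Pool.Agent.Lib.SmN.P.MQ
import Pool.Agent.Lib.SmN.Loc.Nd

/-!
# SMITH with action on `V1`, block P, module Q3: the local quadratic forms

`qform` is the local invariant of the obstruction cocycle `Ob e 0 2 a`, `2 a = iota c`;
`qok_of_weil : S.QOk (qform S e j q)`.
-/

set_option autoImplicit false

open Finset Pool.Agent.SmN.Loc

namespace Pool.Agent.SmN

variable {G V V1 Pl M : Type*} [Group G] [AddCommGroup V] [DistribMulAction G V]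
  [AddCommGroup V1] [Module (ZMod 2) V1] [AddCommGroup M]
  [DistribMulAction G M]

open Classical in
/-- A half of `Q`. -/
noncomputable def hv (Q : V) : V := if h : ∃ R : V, (2 : ℕ) • R = Q then h.choose else 0

theorem two_hv (half : ∀ Q : V, ∃ R, (2 : ℕ) • R = Q) (Q : V) : (2 : ℕ) • hv Q = Q := by
  rw [hv, dif_pos (half Q)]
  exact (half Q).choose_spec

/-- The correction. -/
def bt (qq : V1 → ZMod 2) (i4 : M) (c : G → V1) (s : G) : M := if qq (c s) = 1 then i4 else 0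

/-- The corrected obstruction. -/
def th0 (e : ℕ → V → V → M) (qq : V1 → ZMod 2) (i4 : M) (c : G → V1) (a : G → V) (s t : G) : M :=
  Ob e (fun _ => 0) 2 a s t + (bt qq i4 c s + s • bt qq i4 c t - bt qq i4 c (s * t))

variable {S : Sys G V V1 Pl} {e : ℕ → V → V → M} {j : ZMod 2 →+ M} {qq : V1 → ZMod 2} {i4 : M}
  {H : Subgroup G} {c d : G → V1} {a b : G → V}

theorem two_bt (hi : (2 : ℕ) • i4 = j 1) (c : G → V1) (s : G) :
    (2 : ℕ) • bt qq i4 c s = j (qq (c s)) := by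
  have h01 : ∀ a : ZMod 2, a = 0 ∨ a = 1 := by decide
  rw [bt]
  rcases h01 (qq (c s)) with h | h
  · rw [h, if_neg (by decide), smul_zero, map_zero]
  · rw [h, if_pos rfl, hi]

theorem two_th0 (hOk : S.Ok) (he : ∀ w, S.e w w = 0) (hw : Weil S e j) (hq : QInv S qq)
    (hi : (2 : ℕ) • i4 = j 1) (h : HalfOn S H c a) {s t : G} (hs : s ∈ H) (ht : t ∈ H) :
    (2 : ℕ) • th0 e qq i4 c a s t = 0 := by
  have hst := H.mul_mem hs ht
  have hy4 : (2 : ℕ) ^ 2 • tw (fun _ => 0) s (a t) = 0 := pow_smul_tw _ s (h.four ht)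
  have hy2 := h.htw hOk (fun _ => 0) s ht
  have e1 : (2 : ℕ) • e 2 (a (s * t)) (a s + tw (fun _ => 0) s (a t)) = 0 := by
    rw [two_nsmul, ← hw.add_right 2 _ _ _ (h.four hst)
      (by rw [smul_add, h.four hs, hy4, add_zero]) (by rw [smul_add, h.four hs, hy4, add_zero]),
      e2_eq hw (h.two _ hst) (w' := c (s * t)) ?_, he, map_zero]
    rw [← two_nsmul, smul_add, h.two s hs, hy2, ← map_add, h.coc s hs t ht]
  have e2 : (2 : ℕ) • e 2 (a s) (tw (fun _ => 0) s (a t)) = j (S.e (c s) (S.ac s (c t))) := by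
    rw [two_nsmul, ← hw.add_right 2 _ _ _ (h.four hs) hy4 hy4,
      e2_eq hw (h.two _ hs) (w' := S.ac s (c t)) ?_]
    rw [← two_nsmul, hy2]
  rw [th0, Ob, smul_add, smul_add, e1, e2, zero_add, smul_sub, smul_add, two_bt hi, two_bt hi,
    smul_comm, two_bt hi, hw.fix, ← map_add, ← map_sub, ← map_add, h.coc s hs t ht, hq.add, hq.inv]
  have : S.e (c s) (S.ac s (c t)) + (qq (c s) + qq (c t) -
      (qq (c s) + qq (c t) + S.e (c s) (S.ac s (c t)))) = 0 := by ring
  rw [this, map_zero]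

theorem th0_coc (hOk : S.Ok) (hw : Weil S e j) (hH : Half (fun _ => 0) 2 a) (c : G → V1)
    (s t u : G) :
    th0 e qq i4 c a s t + th0 e qq i4 c a (s * t) u =
      s • th0 e qq i4 c a t u + th0 e qq i4 c a s (t * u) := by
  have h1 := ob_coc hw (Sys.HomG_zero hOk) le_rfl hH s t u
  simp only [th0, smul_add, smul_sub]
  rw [mul_assoc s t u, ← mul_smul]
  have e1 : ∀ x y z w p1 p2 p3 p4 p5 p6 : M, x + y = z + w →
      x + (p1 + p2 - p3) + (y + (p3 + p4 - p5)) =
        z + (p2 + p4 - p6) + (w + (p1 + p6 - p5)) := by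
    intro x y z w p1 p2 p3 p4 p5 p6 h
    have : x = z + w - y := by rw [← h]; abel
    rw [this]
    abel
  exact e1 _ _ _ _ _ _ _ _ _ _ h1

section inv

variable {q : Pl → ℕ}

/-- The invariant of the corrected obstruction. -/
theorem invM_th0 (hOk : S.Ok) (hL : LocD S q) (hM : LocM S M q) {v : Pl}
    (hc : S.TFOn (S.D v) c) :
    invM (S.sg v) (S.phi v) (q v) (th0 e qq i4 c a) =
      invM (S.sg v) (S.phi v) (q v) (Ob e (fun _ => 0) 2 a) := by
  have h1 : th0 e qq i4 c a = fun s t => Ob e (fun _ => 0) 2 a s t +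
      (fun s t => bt qq i4 c s + s • bt qq i4 c t - bt qq i4 c (s * t)) s t := rfl
  rw [h1, invM_add, invM_zero hL hM (g := bt qq i4 c)
    (hc.comp (fun w => if qq w = 1 then i4 else 0)) fun s _ t _ => rfl, add_zero]

/-- Another half of the same cocycle. -/
theorem invM_ob_congr (hOk : S.Ok) (hw : Weil S e j) (hL : LocD S q) (hM : LocM S M q) {v : Pl}
    (h : HalfOn S (S.D v) c a) (h' : HalfOn S (S.D v) c b) (ha : S.TFOn (S.D v) a)
    (hb : S.TFOn (S.D v) b) :
    invM (S.sg v) (S.phi v) (q v) (Ob e (fun _ => 0) 2 b) =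
      invM (S.sg v) (S.phi v) (q v) (Ob e (fun _ => 0) 2 a) := by
  have h0 : HalfOn S (S.D v) (fun _ => 0) (fun s => b s - a s) :=
    ⟨fun s _ t _ => by rw [map_zero, add_zero], fun s hs => by
      rw [smul_sub, h.two s hs, h'.two s hs, sub_self, map_zero]⟩
  have hg : S.TFOn (S.D v) (fun s => e 2 (a s) (b s - a s)) :=
    Sys.TFOn.comp₂ hOk ha hb fun x y => e 2 x (y - x)
  have hz : ∀ x y : V, (2 : ℕ) • x = 0 → (2 : ℕ) • y = 0 → e 2 x y = 0 := fun x y hx hy =>
    hw.small (i := 1) (k := 1) (by omega) (by rw [pow_one]; exact hx) (by rw [pow_one]; exact hy)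
  have h1 : ∀ s ∈ S.D v, ∀ t ∈ S.D v, Ob e (fun _ => 0) 2 b s t = Ob e (fun _ => 0) 2 a s t +
      (fun s t => e 2 (a s) (b s - a s) + s • e 2 (a t) (b t - a t) -
        e 2 (a (s * t)) (b (s * t) - a (s * t))) s t := by
    intro s hs t ht
    have hst := (S.D v).mul_mem hs ht
    have h2 := ob_plus hOk hw h h0 (fun _ => 0) hs ht
    have e1 : (fun s => a s + (b s - a s)) = b := funext fun s => by abel
    have e0 : ∀ s ∈ S.D v, (2 : ℕ) • (b s - a s) = 0 := fun s hs => by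
      rw [h0.two s hs, map_zero]
    have ey : (2 : ℕ) • tw (fun _ => 0) s (b t - a t) = 0 := by
      rw [← tw_nsmul, e0 t ht, tw_zero]
    have e2 : Ob e (fun _ => 0) 2 (fun s => b s - a s) s t = 0 := by
      rw [Ob, hz _ _ (e0 _ hst) (by rw [smul_add, e0 s hs, ey, add_zero]), hz _ _ (e0 s hs) ey,
        add_zero]
    rw [e1, e2, map_zero, map_zero, map_zero, add_zero, add_zero] at h2
    exact h2
  rw [invM_congr (hL.sg_mem v) (hL.phi_mem v) (q v) h1, invM_add,
    invM_zero hL hM (g := fun s => e 2 (a s) (b s - a s)) hg fun s _ t _ => rfl, add_zero]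

open Classical in
/-- The local quadratic forms. -/
noncomputable def qform (S : Sys G V V1 Pl) (e : ℕ → V → V → M) (j : ZMod 2 →+ M) (q : Pl → ℕ)
    (v : Pl) (x : V1 × V1) : ZMod 2 :=
  if h : ∃ c : G → V1, S.TFOn (S.D v) c ∧
      (∀ s ∈ S.D v, ∀ t ∈ S.D v, c (s * t) = c s + S.ac s (c t)) ∧ S.loc v c = x then
    Function.invFun j (invM (S.sg v) (S.phi v) (q v)
      (Ob e (fun _ => 0) 2 fun s => hv (S.iota (h.choose s))))
  else 0

variable (hOk : S.Ok) (hw : Weil S e j) (hq : QInv S qq) (hMO : S.MQ j) (hL : LocD S q)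
  (hM : LocM S M q)

include hOk hw hq hMO hL hM

/-- The value of the quadratic form. -/
theorem j_qform {v : Pl} (hc : S.TFOn (S.D v) c) (ha : S.TFOn (S.D v) a)
    (h : HalfOn S (S.D v) c a) :
    j (qform S e j q v (S.loc v c)) = invM (S.sg v) (S.phi v) (q v) (Ob e (fun _ => 0) 2 a) := by
  classical
  have hex : ∃ c' : G → V1, S.TFOn (S.D v) c' ∧
      (∀ s ∈ S.D v, ∀ t ∈ S.D v, c' (s * t) = c' s + S.ac s (c' t)) ∧ S.loc v c' = S.loc v c :=
    ⟨c, hc, h.coc, rfl⟩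
  rw [qform, dif_pos hex]
  obtain ⟨hc', hcoc', hloc⟩ := hex.choose_spec
  set c' := hex.choose with hc'def
  have heq : ∀ s ∈ S.D v, c' s = c s := by
    intro s hs
    apply hOk.iota_inj
    refine Sys.cocD_ext hOk (Sys.HomG_zero hOk) v (c := fun s => S.iota (c' s))
      (c' := fun s => S.iota (c s)) ⟨hc'.comp _, fun s hs t ht => ?_⟩
      ⟨hc.comp _, fun s hs t ht => ?_⟩ ?_ ?_ s hs
    · beta_reduce
      rw [hcoc' s hs t ht, map_add, Sys.tw_iota hOk]
    · beta_reduce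
      rw [h.coc s hs t ht, map_add, Sys.tw_iota hOk]
    · exact congrArg (fun x => S.iota x.1) hloc
    · exact congrArg (fun x => S.iota x.2) hloc
  have h' : HalfOn S (S.D v) c (fun s => hv (S.iota (c' s))) :=
    ⟨h.coc, fun s hs => by rw [two_hv hOk.half, heq s hs]⟩
  rw [invM_ob_congr hOk hw hL hM h h' ha ((hc'.comp fun w => hv (S.iota w)))]
  obtain ⟨i4, hi4⟩ := hMO.half (j 1)
  have h2 : (2 : ℕ) • invM (S.sg v) (S.phi v) (q v) (Ob e (fun _ => 0) 2 a) = 0 := by
    rw [← invM_th0 (qq := qq) (i4 := i4) hOk hL hM hc, two_nsmul, ← invM_add]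
    refine (invM_congr (hL.sg_mem v) (hL.phi_mem v) (q v)
      (d := fun _ _ => (0 : M)) fun s hs t ht => ?_).trans (by simp [invM])
    rw [← two_nsmul]
    exact two_th0 hOk hOk.e_alt hw hq hi4 h hs ht
  obtain ⟨t, ht⟩ := hMO.two _ h2
  rw [← ht, Function.leftInverse_invFun hMO.inj]

theorem qform_add (v : Pl) (x : V1 × V1) (hx : x ∈ S.CP v) (y : V1 × V1) (hy : y ∈ S.CP v) :
    qform S e j q v (x + y) = qform S e j q v x + qform S e j q v y + S.sy v x y := by
  obtain ⟨c, hc, hcc, rfl⟩ := hx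
  obtain ⟨d, hd, hdc, rfl⟩ := hy
  have h1 : HalfOn S (S.D v) c (fun s => hv (S.iota (c s))) :=
    ⟨hcc, fun s _ => two_hv hOk.half _⟩
  have h2 : HalfOn S (S.D v) d (fun s => hv (S.iota (d s))) :=
    ⟨hdc, fun s _ => two_hv hOk.half _⟩
  have ht1 : S.TFOn (S.D v) (fun s => hv (S.iota (c s))) := hc.comp fun w => hv (S.iota w)
  have ht2 : S.TFOn (S.D v) (fun s => hv (S.iota (d s))) := hd.comp fun w => hv (S.iota w)
  have h3 : S.loc v c + S.loc v d = S.loc v (fun s => c s + d s) := rfl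
  apply hMO.inj
  rw [h3, j_qform hOk hw hq hMO hL hM (Sys.TFOn.comp₂ hOk hc hd fun x y => x + y)
    (Sys.TFOn.comp₂ hOk ht1 ht2 fun x y => x + y) (h1.add h2), map_add, map_add,
    j_qform hOk hw hq hMO hL hM hc ht1 h1, j_qform hOk hw hq hMO hL hM hd ht2 h2,
    hL.sy_loc v hcc, ← invM_map]
  have hg : S.TFOn (S.D v) (fun s => e 2 (hv (S.iota (c s))) (hv (S.iota (d s)))) :=
    Sys.TFOn.comp₂ hOk ht1 ht2 fun x y => e 2 x y
  have key : ∀ s ∈ S.D v, ∀ t ∈ S.D v,
      Ob e (fun _ => 0) 2 (fun s => hv (S.iota (c s)) + hv (S.iota (d s))) s t =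
        (fun s t => (fun s t => (fun s t => Ob e (fun _ => 0) 2 (fun s => hv (S.iota (c s))) s t +
          Ob e (fun _ => 0) 2 (fun s => hv (S.iota (d s))) s t) s t +
            j (cup S.ac S.e c d s t)) s t +
          (fun s t => e 2 (hv (S.iota (c s))) (hv (S.iota (d s))) +
            s • e 2 (hv (S.iota (c t))) (hv (S.iota (d t))) -
              e 2 (hv (S.iota (c (s * t)))) (hv (S.iota (d (s * t))))) s t) s t := by
    intro s hs t ht
    exact ob_plus hOk hw h1 h2 (fun _ => 0) hs ht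
  rw [invM_congr (hL.sg_mem v) (hL.phi_mem v) (q v) key, invM_add, invM_add, invM_add,
    invM_zero hL hM (g := fun s => e 2 (hv (S.iota (c s))) (hv (S.iota (d s)))) hg
      fun s _ t _ => rfl, add_zero]

theorem qform_van (chi : G → ZMod 2) (hchi : S.HomG chi) (v : Pl) (x : V1 × V1)
    (hx : x ∈ S.Wl chi v) : qform S e j q v x = 0 := by
  obtain ⟨Q, hQ, hx1, hx2⟩ := hx
  obtain ⟨Q1, hQ1⟩ := hOk.half Q
  obtain ⟨r, hr⟩ := hOk.tors Q1
  obtain ⟨Qr, hQr⟩ := exists_div hOk.half Q1 r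
  have h1 : HalfOn S (S.D v) (fun s => S.un (dl chi Q s)) (dl chi Q1) :=
    ⟨fun s hs t ht => by
      rw [dl_mul hchi.2, Sys.un_add hOk (hQ s hs) (Sys.two_tw hOk chi s (hQ t ht)),
        Sys.un_tw hOk chi s (hQ t ht)], fun s hs => by
      rw [← dl_nsmul, hQ1, Sys.iota_un hOk (hQ s hs)]⟩
  have hx3 : S.loc v (fun s => S.un (dl chi Q s)) = x := Prod.ext
    (by rw [← Sys.un_iota hOk x.1, ← hx1]; rfl) (by rw [← Sys.un_iota hOk x.2, ← hx2]; rfl)
  apply hMO.inj
  rw [map_zero, ← hx3, j_qform hOk hw hq hMO hL hM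
    (((Sys.dl_tf hOk hchi Q).comp S.un).on _) ((Sys.dl_tf hOk hchi Q1).on _) h1,
    invM_congr (hL.sg_mem v) (hL.phi_mem v) (q v) fun s hs t ht =>
      (ob_chi hOk hOk.e_alt hw h1 chi hs ht).symm]
  refine invM_zero hL hM (g := fun s => e (2 + r) Q1 (dl chi Qr s))
    (((Sys.dl_tf hOk hchi Qr).comp _).on _) fun s hs t ht => ?_
  exact ob_dl hw hchi.2 hQr (pow_smul_of_le (by omega) hr) (H := S.D v)
    (fun s hs => by
      rw [pow_two, mul_smul, ← dl_nsmul, hQ1, hQ s hs]) hs ht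

theorem qform_recip (hR : S.RecI q) (c : G → V1) (hc : S.CocG c) :
    ∑ᶠ v, qform S e j q v (S.loc v c) = 0 := by
  classical
  obtain ⟨i4, hi4⟩ := hMO.half (j 1)
  have hH : HalfOn S ⊤ c (fun s => hv (S.iota (c s))) :=
    ⟨fun s _ t _ => hc.2 s t, fun s _ => two_hv hOk.half _⟩
  have hT : S.TF (fun s => hv (S.iota (c s))) := hc.1.comp fun w => hv (S.iota w)
  have hHalf : Half (fun _ => 0) 2 (fun s => hv (S.iota (c s))) :=
    ⟨fun s => hH.four trivial, fun s t => hH.df hOk _ trivial trivial⟩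
  set th : G → G → ZMod 2 := fun s t =>
    Function.invFun j (th0 e qq i4 c (fun s => hv (S.iota (c s))) s t) with hth
  have hj : ∀ s t, j (th s t) = th0 e qq i4 c (fun s => hv (S.iota (c s))) s t := by
    intro s t
    exact Function.invFun_eq (hMO.two _
      (two_th0 hOk hOk.e_alt hw hq hi4 hH (H := ⊤) trivial trivial))
  have hTF : S.TF2 th := by
    have h1 := ob_tf (e := e) hOk (Sys.HomG_zero hOk) hHalf hT
    have h2 : S.TF2 (fun s t => bt qq i4 c s + s • bt qq i4 c t - bt qq i4 c (s * t)) :=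
      Sys.MQ.tf2_d hOk hMO (hc.1.comp fun w => if qq w = 1 then i4 else 0)
    obtain ⟨N, hN, h1⟩ := h1
    obtain ⟨N', hN', h2⟩ := h2
    refine ⟨N ⊓ N', hOk.inf_mem N hN N' hN', fun s t n hn m hm => ?_⟩
    have h3 := h2 s t n hn.2 m hm.2
    beta_reduce at h3
    rw [hth]
    beta_reduce
    rw [th0, th0, h1 s t n hn.1 m hm.1, h3]
  have hcoc : ∀ s t w, th s t + th (s * t) w = th t w + th s (t * w) := by
    intro s t w
    apply hMO.inj
    rw [map_add, map_add, hj, hj, hj, hj, th0_coc hOk hw hHalf, ← hj t w, hw.fix]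
  rw [← hR th hTF hcoc]
  refine finsum_congr fun v => ?_
  apply hMO.inj
  rw [j_qform hOk hw hq hMO hL hM (hc.1.on _) (hT.on _)
    ⟨fun s _ t _ => hc.2 s t, fun s _ => two_hv hOk.half _⟩, ← invM_map,
    ← invM_th0 (qq := qq) (i4 := i4) hOk hL hM (hc.1.on _)]
  congr 1
  funext s t
  exact (hj s t).symm

/-- **The local quadratic forms.** -/
theorem qok_of_weil (hR : S.RecI q) : S.QOk (qform S e j q) where
  nd v x hx := by
    have := hOk.fin1
    exact hL.nd hOk.e_nondeg v x hx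
  add := qform_add hOk hw hq hMO hL hM
  van := qform_van hOk hw hq hMO hL hM
  recip := qform_recip hOk hw hq hMO hL hM hR

end inv

end Pool.Agent.SmN
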