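import Pool.Agent.Lib.SmN.P.RedM
import Pool.Agent.Lib.SmN.Loc.Sy

/-!
# SMITH with action on the 2-torsion, block P, module RecZ

`Sys.RecI`: the sum of the local invariants of a 2-cocycle with values in `ZMod 2` is zero.
`recipZ_of`: `RecI` implies `RecipZ` (the local pairing is the invariant of the cup product).
-/

set_option autoImplicit false

open Pool.Agent.SmN.Loc

namespace Pool.Agent.SmN

variable {G V V1 Pl : Type*} [Group G] [AddCommGroup V] [DistribMulAction G V]
  [AddCommGroup V1] [Module (ZMod 2) V1]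

namespace Sys

/-- Reciprocity for `H^2(G, ZMod 2)`. -/
def RecI (S : Sys G V V1 Pl) (q : Pl → ℕ) : Prop :=
  ∀ c : G → G → ZMod 2, S.TF2 c →
    (∀ s t w, c s t + c (s * t) w = c t w + c s (t * w)) →
    ∑ᶠ v, Loc.inv (S.sg v) (S.phi v) (q v) c = 0

variable {S : Sys G V V1 Pl} {q : Pl → ℕ}

/-- Reciprocity for the cocycles whose local restrictions are cup products. -/
theorem recipZ_of (hL : LocD S q) (hR : S.RecI q) : S.RecipZ := by
  intro c x a hc hcc hloc
  rw [← hR c hc hcc]
  refine finsum_congr fun v => ?_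
  obtain ⟨-, hx, -, -, b, hb, h1⟩ := hloc v
  rw [hL.sy_loc v hx, inv_congr (hL.sg_mem v) (hL.phi_mem v) (q v)
    (c := c) (d := fun s t => cup S.ac S.e (x v) (a v) s t + (b s + b t + b (s * t)))
    (fun s hs t ht => h1 s hs t ht), inv_add, inv_cob (hL.q_odd v) b (hL.tf_rel v hb), add_zero]

end Sys

end Pool.Agent.SmN
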