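import Pool.Agent.Lib.SmN.P.Weil
import Pool.Agent.Lib.SmN.P.RecZ

/-!
# SMITH with action on `V1`, block P, module Q: isotropy of the Kummer groups from the Weil pairing

`invM`: the local invariant of a 2-cocycle with values in `M` (kills the coboundaries).
`isot_of_weil`: the cup product of `dl chi Q`, `dl chi Q'` is a coboundary in `M`, so the local Kummer
groups are isotropic. (The quadratic forms are in `Q2`.)
-/

set_option autoImplicit false

open Finset Pool.Agent.SmN.Loc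

namespace Pool.Agent.SmN

/-! ### the local invariant with values in `M` -/

section invM

variable {G M : Type*} [Group G] [AddCommGroup M] [DistribMulAction G M]

/-- The local invariant of a 2-cochain with values in `M`. -/
def invM (sg ph : G) (q : ℕ) (c : G → G → M) : M :=
  c ph sg - c (sg ^ q) ph - ∑ i ∈ Ico 1 q, c (sg ^ i) sg

theorem invM_add (sg ph : G) (q : ℕ) (c d : G → G → M) :
    invM sg ph q (fun s t => c s t + d s t) = invM sg ph q c + invM sg ph q d := by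
  simp only [invM, sum_add_distrib]
  abel

theorem invM_congr {D : Subgroup G} {sg ph : G} (hs : sg ∈ D) (hp : ph ∈ D) (q : ℕ)
    {c d : G → G → M} (h : ∀ s ∈ D, ∀ t ∈ D, c s t = d s t) :
    invM sg ph q c = invM sg ph q d := by
  unfold invM
  rw [h _ hp _ hs, h _ (D.pow_mem hs q) _ hp,
    sum_congr rfl fun i _ => h _ (D.pow_mem hs i) _ hs]

/-- The invariant of a coboundary is zero. -/
theorem invM_cob {sg ph : G} {q : ℕ} (hq : Odd q) (hs : ∀ m : M, sg • m = m)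
    (hp : ∀ m : M, ph • m = q • m) (b : G → M) (h : b (ph * sg) = b (sg ^ q * ph)) :
    invM sg ph q (fun s t => b s + s • b t - b (s * t)) = 0 := by
  have hpow : ∀ (i : ℕ) (m : M), sg ^ i • m = m := by
    intro i m
    induction i with
    | zero => rw [pow_zero, one_smul]
    | succ i ih => rw [pow_succ, mul_smul, hs, ih]
  have key : ∀ m : ℕ, ∑ i ∈ Ico 1 (m + 1), (b (sg ^ i) + sg ^ i • b sg - b (sg ^ i * sg)) =
      m • b sg + b sg - b (sg ^ (m + 1)) := by
    intro m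
    induction m with
    | zero => simp
    | succ m ih =>
      rw [sum_Ico_succ_top (by omega), ih, ← pow_succ, hpow, succ_nsmul]
      abel
  obtain ⟨m, rfl⟩ := hq
  unfold invM
  rw [key]
  beta_reduce
  rw [hp, hpow, h, succ_nsmul]
  abel

theorem invM_map {j : ZMod 2 →+ M} (sg ph : G) (q : ℕ) (c : G → G → ZMod 2) :
    invM sg ph q (fun s t => j (c s t)) = j (Loc.inv sg ph q c) := by
  unfold invM Loc.inv
  rw [← map_sum, ← map_sub, ← map_sub, CharTwo.sub_eq_add, CharTwo.sub_eq_add]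

end invM

variable {G V V1 Pl M : Type*} [Group G] [AddCommGroup V] [DistribMulAction G V]
  [AddCommGroup V1] [Module (ZMod 2) V1] [AddCommGroup M]
  [DistribMulAction G M]

/-- `sg v` acts trivially on `M` and `phi v` by `q v`. -/
structure LocM (S : Sys G V V1 Pl) (M : Type*) [AddCommGroup M] [DistribMulAction G M]
    (q : Pl → ℕ) : Prop where
  sg : ∀ (v : Pl) (m : M), S.sg v • m = m
  phi : ∀ (v : Pl) (m : M), S.phi v • m = q v • m

section loc

variable {S : Sys G V V1 Pl} {e : ℕ → V → V → M} {j : ZMod 2 →+ M} {q : Pl → ℕ}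

/-- A coboundary on `D v` has invariant zero. -/
theorem invM_zero (hL : LocD S q) (hM : LocM S M q) {v : Pl} {c : G → G → M} {g : G → M}
    (hg : S.TFOn (S.D v) g)
    (h : ∀ s ∈ S.D v, ∀ t ∈ S.D v, c s t = g s + s • g t - g (s * t)) :
    invM (S.sg v) (S.phi v) (q v) c = 0 := by
  rw [invM_congr (hL.sg_mem v) (hL.phi_mem v) (q v) h]
  exact invM_cob (hL.q_odd v) (hM.sg v) (hM.phi v) g (hL.tf_rel v hg)

/-- (L1) The local pairing vanishes if the cup product is a coboundary in `M`. -/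
theorem sy_zero (hL : LocD S q) (hM : LocM S M q) (hj : Function.Injective j) {v : Pl}
    {c d : G → V1} (hc : ∀ s ∈ S.D v, ∀ t ∈ S.D v, c (s * t) = c s + S.ac s (c t)) {g : G → M}
    (hg : S.TFOn (S.D v) g)
    (h : ∀ s ∈ S.D v, ∀ t ∈ S.D v, j (S.e (c s) (S.ac s (d t))) = g s + s • g t - g (s * t)) :
    S.sy v (S.loc v c) (S.loc v d) = 0 := by
  rw [hL.sy_loc v hc]
  apply hj
  rw [← invM_map, map_zero]
  exact invM_zero hL hM hg h

end loc

/-! ### the cup product of two coboundaries -/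

section cup

variable {S : Sys G V V1 Pl} {e : ℕ → V → V → M} {j : ZMod 2 →+ M}

/-- The cup product of two coboundaries is a coboundary. -/
theorem cup_dl (hw : Weil S e j) {chi : G → ZMod 2} (hchi : ∀ s t, chi (s * t) = chi s + chi t)
    {m r : ℕ} {Q Q' Qr : V} (hr : (2 : ℕ) ^ r • Qr = Q') (hQ : (2 : ℕ) ^ (m + r) • Q = 0) (s t : G)
    (hs : (2 : ℕ) ^ m • dl chi Q s = 0) (hs' : (2 : ℕ) ^ m • dl chi Q' s = 0)
    (ht : (2 : ℕ) ^ m • dl chi Q' t = 0) (hst : (2 : ℕ) ^ m • dl chi Q' (s * t) = 0) :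
    e m (dl chi Q s) (tw chi s (dl chi Q' t)) = e (m + r) Q (dl chi Qr s) +
      s • e (m + r) Q (dl chi Qr t) - e (m + r) Q (dl chi Qr (s * t)) := by
  have h1 : ∀ u, (2 : ℕ) ^ m • dl chi Q' u = 0 → (2 : ℕ) ^ (m + r) • dl chi Qr u = 0 := by
    intro u hu
    rw [pow_add, mul_smul, ← dl_nsmul, hr]
    exact hu
  have h2 : dl chi Q' t = (2 : ℕ) ^ r • dl chi Qr t := by rw [← dl_nsmul, hr]
  rw [h2, tw_nsmul, ← hw.comp_pow r hs (pow_smul_tw chi s (h1 t ht))]
  have h3 : dl chi Q s = tw chi s Q - Q := rfl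
  rw [h3, hw.sub_left (pow_smul_tw chi s hQ) hQ (pow_smul_tw chi s (h1 t ht)),
    hw.tw_equiv chi _ s hQ (h1 t ht)]
  have h4 : tw chi s (dl chi Qr t) = dl chi Qr (s * t) - dl chi Qr s := by
    rw [dl_mul hchi]; abel
  rw [h4, hw.sub_right hQ (h1 _ hst) (h1 s hs')]
  abel

theorem exists_div (half : ∀ Q : V, ∃ R, (2 : ℕ) • R = Q) (Q : V) (n : ℕ) :
    ∃ Qr : V, (2 : ℕ) ^ n • Qr = Q := by
  induction n with
  | zero => exact ⟨Q, by rw [pow_zero, one_smul]⟩
  | succ n ih =>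
    obtain ⟨Q', hQ'⟩ := ih
    obtain ⟨Q'', hQ''⟩ := half Q'
    exact ⟨Q'', by rw [pow_succ, mul_smul, hQ'', hQ']⟩

/-- **Isotropy of the local Kummer groups.** -/
theorem isot_of_weil {q : Pl → ℕ} (hw : Weil S e j) (hL : LocD S q) (hM : LocM S M q)
    (hj : Function.Injective j)
    (inf_mem : ∀ N ∈ S.NN, ∀ N' ∈ S.NN, N ⊓ N' ∈ S.NN)
    (iota_inj : Function.Injective S.iota)
    (iota_range : ∀ Q : V, (2 : ℕ) • Q = 0 → ∃ w, S.iota w = Q)
    (iota_ac : ∀ (s : G) (w : V1), s • S.iota w = S.iota (S.ac s w))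
    (half : ∀ Q : V, ∃ R, (2 : ℕ) • R = Q) (tors : ∀ Q : V, ∃ j : ℕ, (2 : ℕ) ^ j • Q = 0)
    (act_fin : ∀ j : ℕ, ∃ N ∈ S.NN, ∀ s ∈ N, ∀ Q : V, (2 : ℕ) ^ j • Q = 0 → s • Q = Q) :
    ∀ chi : G → ZMod 2, S.HomG chi → ∀ v, ∀ x ∈ S.Wl chi v, ∀ y ∈ S.Wl chi v,
      S.sy v x y = 0 := by
  classical
  rintro chi hchi v x ⟨Q, hQ, hx1, hx2⟩ y ⟨Q', hQ', hy1, hy2⟩
  obtain ⟨r, hr⟩ := tors Q
  obtain ⟨Qr, hQr⟩ := exists_div half Q' r
  have htw : ∀ (s : G) (w : V1), tw chi s (S.iota w) = S.iota (S.ac s w) := by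
    intro s w
    simp only [tw, iota_ac]
    rcases sgn_eq (chi s) with h' | h'
    · simp [h']
    · rw [h', neg_smul, one_smul, Sys.neg_iota]
  have htf : ∀ Q0 : V, S.TF (dl chi Q0) := by
    intro Q0
    obtain ⟨i, hi⟩ := tors Q0
    obtain ⟨N, hN, h1⟩ := hchi.1
    obtain ⟨N', hN', h2⟩ := act_fin i
    refine ⟨N ⊓ N', inf_mem N hN N' hN', fun s n hn => ?_⟩
    simp only [dl, tw]
    rw [h1 s n hn.1, mul_smul, h2 n hn.2 Q0 hi]
  have hun : ∀ (Q0 : V), (2 : ℕ) • Q0 = 0 → S.iota (Function.invFun S.iota Q0) = Q0 := by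
    intro Q0 h0
    exact Function.invFun_eq (iota_range Q0 h0)
  let c : G → V1 := fun s => Function.invFun S.iota (dl chi Q s)
  let d : G → V1 := fun s => Function.invFun S.iota (dl chi Q' s)
  have hc : ∀ s ∈ S.D v, S.iota (c s) = dl chi Q s := fun s hs => hun _ (hQ s hs)
  have hd : ∀ s ∈ S.D v, S.iota (d s) = dl chi Q' s := fun s hs => hun _ (hQ' s hs)
  have hxc : S.loc v c = x := Prod.ext
    (iota_inj ((hc _ (hL.sg_mem v)).trans hx1)) (iota_inj ((hc _ (hL.phi_mem v)).trans hx2))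
  have hyd : S.loc v d = y := Prod.ext
    (iota_inj ((hd _ (hL.sg_mem v)).trans hy1)) (iota_inj ((hd _ (hL.phi_mem v)).trans hy2))
  rw [← hxc, ← hyd]
  refine sy_zero hL hM hj (c := c) (d := d) (fun s hs t ht => ?_)
    (g := fun s => e (1 + r) Q (dl chi Qr s)) (((htf Qr).comp _).on _) fun s hs t ht => ?_
  · apply iota_inj
    rw [map_add, hc _ ((S.D v).mul_mem hs ht), hc s hs, ← htw, hc t ht, dl_mul hchi.2]
  · have hst := (S.D v).mul_mem hs ht
    rw [← hw.one, ← htw, hc s hs, hd t ht]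
    exact cup_dl hw hchi.2 hQr (by rw [pow_add, mul_smul, hr, smul_zero]) s t
      (by rw [pow_one]; exact hQ s hs) (by rw [pow_one]; exact hQ' s hs)
      (by rw [pow_one]; exact hQ' t ht) (by rw [pow_one]; exact hQ' _ hst)

end cup

end Pool.Agent.SmN
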