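import Pool.Agent.Lib.SmJ.P.WJ3
import Pool.Agent.Lib.SmN.P.Q

/-!
# SMITH with action on `V1`, block P, module WN: the Weil pairing of `JJ (ff a)`, `G` permuting the
roots, as an instance of `SmN.Weil`; the quadratic refinement on the even vectors; `MuT Om` at the
places
-/

set_option autoImplicit false
set_option linter.unusedSectionVars false

open Polynomial

namespace Pool.Agent.SmN

open Pool.Agent.SmP Pool.Agent.SmJ Pool.Agent.SmJ.L

variable {Om : Type} [Field Om] {g : ℕ} (a : Fin (2 * g + 1) → Om) [HypA a]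

/-- **The Weil pairing.** -/
theorem weil_instN [IsSepClosed Om] [Infinite Om] {K : Type} [Field K] [Algebra K Om]
    {V Pl : Type*} [AddCommGroup V]
    [DistribMulAction (Om ≃ₐ[K] Om) V] (S : Sys (Om ≃ₐ[K] Om) V (EV g) Pl) (inc : V →+ JJ (ff a))
    (ha : ∀ (s : Om ≃ₐ[K] Om), (ff a).map ((s : Om ≃+* Om) : Om →+* Om) = ff a)
    (hact : ∀ (s : Om ≃ₐ[K] Om) (x : V),
      inc (s • x) = act (s : Om ≃+* Om) (ha s) (inc x))
    (hi : ∀ x : EV g, inc (S.iota x) = ∑ i ∈ sup1 x, ee a i) (he : S.e = dotE g)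
    (half : ∀ Q : V, ∃ R, (2 : ℕ) • R = Q) :
    Weil S (fun m x y => wM m (inc x) (inc y)) (hfM Om) where
  add_left m x x' y hx hx' hy := by
    rw [map_add]
    exact wM_add_left m (by rw [← map_nsmul, hx, map_zero]) (by rw [← map_nsmul, hx', map_zero])
      (by rw [← map_nsmul, hy, map_zero])
  add_right m x y y' hx hy hy' := by
    rw [map_add]
    exact wM_add_right m (by rw [← map_nsmul, hx, map_zero]) (by rw [← map_nsmul, hy, map_zero])
      (by rw [← map_nsmul, hy', map_zero])
  alt m x hx := by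
    obtain ⟨R, hR⟩ := half x
    exact wM_alt m (by rw [← map_nsmul, hx, map_zero]) (y := inc R) (by rw [← map_nsmul, hR])
  comp m x y hx hy := by
    rw [map_nsmul]
    exact wM_comp m (by rw [← map_nsmul, hx, map_zero]) (by rw [← map_nsmul, hy, map_zero])
  equiv m s x y hx hy := by
    have hx' : (2 : ℕ) ^ m • inc x = 0 := by rw [← map_nsmul, hx, map_zero]
    have hy' : (2 : ℕ) ^ m • inc y = 0 := by rw [← map_nsmul, hy, map_zero]
    rw [hact, hact]
    rcases Nat.eq_zero_or_pos m with rfl | h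
    · rw [wM_zero, wM_zero, smul_zero]
    · apply MuT.el_inj
      rw [MuT.el_smul, wM_el ⟨h, hx', hy'⟩, wM_el ⟨h, by rw [← map_nsmul, hx', map_zero],
        by rw [← map_nsmul, hy', map_zero]⟩, wn_act (even_pow h) _ _ hx' hy']
      rfl
  one w w' := by
    rw [hi, hi, he, wM_one]
  fix s t := by
    obtain ⟨n, rfl⟩ := ZMod.natCast_zmod_surjective t
    apply MuT.el_inj
    rw [MuT.el_smul, el_hfM_natCast _ (HypA.two a), map_pow, map_neg, map_one]

/-- Half of the number of ones, modulo `2`. -/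
def qev (x : EV g) : ZMod 2 := (((sup1 x).card / 2 : ℕ) : ZMod 2)

theorem sup1_add (x y : EV g) : sup1 (x + y) = symmDiff (sup1 x) (sup1 y) := by
  ext i
  have h : ∀ s t : ZMod 2, s + t = 1 ↔ (s = 1 ∧ ¬ t = 1) ∨ (t = 1 ∧ ¬ s = 1) := by decide
  simp only [sup1, Finset.mem_symmDiff, Finset.mem_filter, Finset.mem_univ, true_and]
  exact h (x.1 i) (y.1 i)

theorem card_symm (S T : Finset (Fin (2 * g + 1))) :
    (symmDiff S T).card + 2 * (S ∩ T).card = S.card + T.card := by
  have h1 : (symmDiff S T).card + (S ∩ T).card = (S ∪ T).card := by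
    rw [← Finset.card_union_of_disjoint]
    · congr 1
      exact symmDiff_sup_inf S T
    · exact disjoint_symmDiff_inf S T
  have h2 := Finset.card_union_add_card_inter S T
  omega

/-- The quadratic refinement is invariant under permutations. -/
theorem qinv_EV {G V Pl : Type*} [Group G] [AddCommGroup V] [DistribMulAction G V]
    (S : Sys G V (EV g) Pl) (he : S.e = dotE g)
    (hac : ∀ s : G, ∃ π : Equiv.Perm (Fin (2 * g + 1)), ∀ (x : EV g) (i : Fin (2 * g + 1)),
      (S.ac s x).1 i = x.1 (π i)) : QInv S (qev (g := g)) where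
  add x y := by
    rw [he, dotE_card, qev, qev, qev, sup1_add]
    obtain ⟨m, hm⟩ := sup1_even x
    obtain ⟨n, hn⟩ := sup1_even y
    have h1 := card_symm (sup1 x) (sup1 y)
    have h2 : (symmDiff (sup1 x) (sup1 y)).card / 2 + (sup1 x ∩ sup1 y).card =
        (sup1 x).card / 2 + (sup1 y).card / 2 := by omega
    have h3 := congrArg (fun n : ℕ => (n : ZMod 2)) h2
    push_cast at h3
    have h4 : ∀ a b c d : ZMod 2, a + b = c + d → a = c + d + b := by decide
    exact h4 _ _ _ _ (by exact_mod_cast h3)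
  inv s x := by
    obtain ⟨π, hπ⟩ := hac s
    have h1 : (sup1 (S.ac s x)).card = (sup1 x).card := by
      refine Finset.card_bij (fun i _ => π i) (fun i hi => ?_) (fun i _ j _ h => π.injective h)
        (fun j hj => ⟨π.symm j, ?_, π.apply_symm_apply j⟩)
      · rw [sup1, Finset.mem_filter] at hi ⊢
        exact ⟨Finset.mem_univ _, by rw [← hπ]; exact hi.2⟩
      · rw [sup1, Finset.mem_filter] at hj ⊢
        exact ⟨Finset.mem_univ _, by rw [hπ, π.apply_symm_apply]; exact hj.2⟩
    rw [qev, qev, h1]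

end Pool.Agent.SmN
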