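import Pool.Agent.Lib.SmN.G.Crit

/-!
# SMITH for Jacobians, block P, module Coh: coefficients `M`, the top of a Selmer cocycle, quadratic
refinements

`M` = roots of unity of 2-power order, written additively. `Coh`: two 2-cochains with values in `M`
are cohomologous; `RecipM`: reciprocity for `H^2(G, M)`; `top`: `2^j Psi` as a cocycle with values in `V1`;
`QInv`: an invariant quadratic refinement of the alternating form.
-/

set_option autoImplicit false

namespace Pool.Agent.SmN

variable {G V V1 Pl M : Type*} [Group G] [AddCommGroup V] [DistribMulAction G V]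
  [AddCommGroup V1] [Module (ZMod 2) V1]
  [AddCommGroup M] [DistribMulAction G M]

namespace Sys

variable (S : Sys G V V1 Pl)

/-- The 2-cochains `c`, `c'` with values in `M` differ on `H` by the coboundary of a 2-finite
cochain. -/
def Coh (H : Subgroup G) (c c' : G → G → M) : Prop :=
  ∃ b : G → M, S.TFOn H b ∧ ∀ s ∈ H, ∀ t ∈ H, c s t = c' s t + (b s + s • b t - b (s * t))

/-- Reciprocity for classes of `H^2(G, M)` whose local restrictions are cup products of
cocycles with values in `V1`. -/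
def RecipM (hf : ZMod 2 →+ M) : Prop :=
  ∀ (c : G → G → M) (x a : Pl → G → V1), S.TF2 c →
    (∀ s t w, c s t + c (s * t) w = s • c t w + c s (t * w)) →
    (∀ v, S.TFOn (S.D v) (x v) ∧
      (∀ s ∈ S.D v, ∀ t ∈ S.D v, x v (s * t) = x v s + S.ac s (x v t)) ∧
      S.TFOn (S.D v) (a v) ∧
      (∀ s ∈ S.D v, ∀ t ∈ S.D v, a v (s * t) = a v s + S.ac s (a v t)) ∧
      S.Coh (S.D v) c (fun s t => hf (S.e (x v s) (S.ac s (a v t))))) →
    ∑ᶠ v, S.sy v (S.loc v (x v)) (S.loc v (a v)) = 0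

variable {S}

theorem Coh.refl (h : S.Ok) (H : Subgroup G) (c : G → G → M) : S.Coh H c c :=
  ⟨fun _ => 0, (TF_const h 0).on H, fun s _ t _ => by simp⟩

theorem Coh.of_eq (h : S.Ok) {H : Subgroup G} {c c' : G → G → M}
    (he : ∀ s ∈ H, ∀ t ∈ H, c s t = c' s t) : S.Coh H c c' :=
  ⟨fun _ => 0, (TF_const h 0).on H, fun s hs t ht => by simp [he s hs t ht]⟩

theorem Coh.symm {H : Subgroup G} {c c' : G → G → M} (hc : S.Coh H c c') : S.Coh H c' c := by
  obtain ⟨b, hb, h1⟩ := hc
  refine ⟨fun s => -b s, hb.comp _, fun s hs t ht => ?_⟩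
  beta_reduce
  rw [h1 s hs t ht, smul_neg]
  abel

theorem Coh.trans (h : S.Ok) {H : Subgroup G} {c c' c'' : G → G → M} (hc : S.Coh H c c')
    (hc' : S.Coh H c' c'') : S.Coh H c c'' := by
  obtain ⟨b, hb, h1⟩ := hc
  obtain ⟨b', hb', h2⟩ := hc'
  refine ⟨fun s => b s + b' s, TFOn.comp₂ h hb hb' _, fun s hs t ht => ?_⟩
  beta_reduce
  rw [h1 s hs t ht, h2 s hs t ht, smul_add]
  abel

theorem Coh.add (h : S.Ok) {H : Subgroup G} {c c' d d' : G → G → M} (hc : S.Coh H c c')
    (hd : S.Coh H d d') : S.Coh H (fun s t => c s t + d s t) (fun s t => c' s t + d' s t) := by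
  obtain ⟨b, hb, h1⟩ := hc
  obtain ⟨b', hb', h2⟩ := hd
  refine ⟨fun s => b s + b' s, TFOn.comp₂ h hb hb' _, fun s hs t ht => ?_⟩
  simp only [h1 s hs t ht, h2 s hs t ht, smul_add]
  abel

/-! ### The top of a Selmer cocycle -/

/-- `2^j Psi` for `Psi` of level `j + 1`, as a cocycle with values in `V1`. -/
noncomputable def top (S : Sys G V V1 Pl) (j : ℕ) (Psi : G → V) (s : G) : V1 :=
  S.un ((2 : ℕ) ^ j • Psi s)

theorem isSel_top {chi : G → ZMod 2} : ∀ (j : ℕ) {Psi : G → V}, S.IsSel chi (j + 1) Psi →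
    S.IsSel chi 1 (fun s => (2 : ℕ) ^ j • Psi s)
  | 0, Psi, hP => by simpa using hP
  | j + 1, Psi, hP => by
    have h1 := isSel_top j hP.two
    have h2 : (fun s => (2 : ℕ) ^ j • ((2 : ℕ) • Psi) s) = fun s => (2 : ℕ) ^ (j + 1) • Psi s :=
      funext fun s => by rw [Pi.smul_apply, smul_smul, pow_succ]
    rwa [h2] at h1

theorem isSel1_top (h : S.Ok) {chi : G → ZMod 2} {j : ℕ} {Psi : G → V}
    (hP : S.IsSel chi (j + 1) Psi) : S.IsSel1 chi (top S j Psi) :=
  Sys.isSel_un h (isSel_top j hP)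

end Sys

/-! ### Quadratic refinements -/

/-- An invariant quadratic refinement of the form on `V1`. -/
structure QInv (S : Sys G V V1 Pl) (q : V1 → ZMod 2) : Prop where
  add : ∀ w w', q (w + w') = q w + q w' + S.e w w'
  inv : ∀ s w, q (S.ac s w) = q w

end Pool.Agent.SmN
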