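import Pool.Agent.Lib.SmN.P.ObAlg

/-!
# SMITH block P, module Weil: a compatible family of alternating pairings on the `V[2^m]`

`Weil S e j`: `e m` is a bilinear alternating pairing on `V[2^m]` with values in `M`, compatible with
the action of `G` and for different `m`; on `V[2] = V1` it is `j ∘ S.e`.
-/

set_option autoImplicit false

namespace Pool.Agent.SmN

variable {G V V1 Pl M : Type*} [Group G] [AddCommGroup V] [DistribMulAction G V]
  [AddCommGroup V1] [Module (ZMod 2) V1] [AddCommGroup M]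
  [DistribMulAction G M]

/-- A compatible family of alternating Galois equivariant pairings. -/
structure Weil (S : Sys G V V1 Pl) (e : ℕ → V → V → M) (j : ZMod 2 →+ M) : Prop where
  add_left : ∀ (m : ℕ) (x x' y : V), (2 : ℕ) ^ m • x = 0 → (2 : ℕ) ^ m • x' = 0 →
    (2 : ℕ) ^ m • y = 0 → e m (x + x') y = e m x y + e m x' y
  add_right : ∀ (m : ℕ) (x y y' : V), (2 : ℕ) ^ m • x = 0 → (2 : ℕ) ^ m • y = 0 →
    (2 : ℕ) ^ m • y' = 0 → e m x (y + y') = e m x y + e m x y'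
  alt : ∀ (m : ℕ) (x : V), (2 : ℕ) ^ m • x = 0 → e m x x = 0
  comp : ∀ (m : ℕ) (x y : V), (2 : ℕ) ^ m • x = 0 → (2 : ℕ) ^ (m + 1) • y = 0 →
    e (m + 1) x y = e m x ((2 : ℕ) • y)
  equiv : ∀ (m : ℕ) (s : G) (x y : V), (2 : ℕ) ^ m • x = 0 → (2 : ℕ) ^ m • y = 0 →
    e m (s • x) (s • y) = s • e m x y
  one : ∀ w w' : V1, e 1 (S.iota w) (S.iota w') = j (S.e w w')
  fix : ∀ (s : G) (a : ZMod 2), s • j a = j a

/-- `V[2^m]`. -/
def Tor (V : Type*) [AddCommGroup V] (m : ℕ) : AddSubgroup V where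
  carrier := {x | (2 : ℕ) ^ m • x = 0}
  add_mem' {a b} ha hb := by
    change (2 : ℕ) ^ m • (a + b) = 0
    rw [smul_add, ha, hb, add_zero]
  zero_mem' := smul_zero _
  neg_mem' {a} ha := by
    change (2 : ℕ) ^ m • (-a) = 0
    rw [smul_neg, ha, neg_zero]

theorem mem_Tor {m : ℕ} {x : V} : x ∈ Tor V m ↔ (2 : ℕ) ^ m • x = 0 := Iff.rfl

theorem pow_smul_of_le {i m : ℕ} (h : i ≤ m) {x : V} (hx : (2 : ℕ) ^ i • x = 0) :
    (2 : ℕ) ^ m • x = 0 := by
  obtain ⟨r, rfl⟩ := Nat.exists_eq_add_of_le h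
  rw [pow_add, mul_comm, mul_smul, hx, smul_zero]

theorem pow_smul_tw (chi : G → ZMod 2) (s : G) {m : ℕ} {x : V} (hx : (2 : ℕ) ^ m • x = 0) :
    (2 : ℕ) ^ m • tw chi s x = 0 := by
  rw [← tw_nsmul, hx, tw_zero]

namespace Weil

variable {S : Sys G V V1 Pl} {e : ℕ → V → V → M} {j : ZMod 2 →+ M} (hw : Weil S e j)

include hw

/-- The pairing as a bilinear map. -/
noncomputable def B (m : ℕ) : Tor V m →+ Tor V m →+ M :=
  AddMonoidHom.mk' (fun x => AddMonoidHom.mk' (fun y => e m x y)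
    (fun y y' => hw.add_right m x y y' x.2 y.2 y'.2))
    (fun x x' => AddMonoidHom.ext fun y => hw.add_left m x x' y x.2 x'.2 y.2)

theorem B_apply (m : ℕ) (x y : Tor V m) : hw.B m x y = e m (x : V) (y : V) := rfl

theorem B_alt (m : ℕ) (x : Tor V m) : hw.B m x x = 0 := hw.alt m x x.2

theorem anti {m : ℕ} {x y : V} (hx : (2 : ℕ) ^ m • x = 0) (hy : (2 : ℕ) ^ m • y = 0) :
    e m x y = -e m y x :=
  alt_neg (hw.B m) (hw.B_alt m) (⟨x, hx⟩ : Tor V m) ⟨y, hy⟩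

theorem zero_left {m : ℕ} {y : V} (hy : (2 : ℕ) ^ m • y = 0) : e m 0 y = 0 := by
  have h : hw.B m 0 ⟨y, hy⟩ = 0 := by rw [map_zero, AddMonoidHom.zero_apply]
  exact h

theorem zero_right {m : ℕ} {x : V} (hx : (2 : ℕ) ^ m • x = 0) : e m x 0 = 0 := by
  have h : hw.B m ⟨x, hx⟩ 0 = 0 := map_zero _
  exact h

theorem neg_left {m : ℕ} {x y : V} (hx : (2 : ℕ) ^ m • x = 0) (hy : (2 : ℕ) ^ m • y = 0) :
    e m (-x) y = -e m x y := by
  have h : hw.B m (-⟨x, hx⟩) ⟨y, hy⟩ = -hw.B m ⟨x, hx⟩ ⟨y, hy⟩ := by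
    rw [map_neg, AddMonoidHom.neg_apply]
  exact h

theorem neg_right {m : ℕ} {x y : V} (hx : (2 : ℕ) ^ m • x = 0) (hy : (2 : ℕ) ^ m • y = 0) :
    e m x (-y) = -e m x y := by
  have h : hw.B m ⟨x, hx⟩ (-⟨y, hy⟩) = -hw.B m ⟨x, hx⟩ ⟨y, hy⟩ := map_neg _ _
  exact h

theorem sub_left {m : ℕ} {x x' y : V} (hx : (2 : ℕ) ^ m • x = 0) (hx' : (2 : ℕ) ^ m • x' = 0)
    (hy : (2 : ℕ) ^ m • y = 0) : e m (x - x') y = e m x y - e m x' y := by
  have h : hw.B m (⟨x, hx⟩ - ⟨x', hx'⟩) ⟨y, hy⟩ =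
      hw.B m ⟨x, hx⟩ ⟨y, hy⟩ - hw.B m ⟨x', hx'⟩ ⟨y, hy⟩ := by
    rw [map_sub, AddMonoidHom.sub_apply]
  exact h

theorem sub_right {m : ℕ} {x y y' : V} (hx : (2 : ℕ) ^ m • x = 0) (hy : (2 : ℕ) ^ m • y = 0)
    (hy' : (2 : ℕ) ^ m • y' = 0) : e m x (y - y') = e m x y - e m x y' := by
  have h : hw.B m ⟨x, hx⟩ (⟨y, hy⟩ - ⟨y', hy'⟩) =
      hw.B m ⟨x, hx⟩ ⟨y, hy⟩ - hw.B m ⟨x, hx⟩ ⟨y', hy'⟩ := map_sub _ _ _
  exact h

/-- Compatibility for `r` steps. -/
theorem comp_pow {m : ℕ} (r : ℕ) {x y : V} (hx : (2 : ℕ) ^ m • x = 0)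
    (hy : (2 : ℕ) ^ (m + r) • y = 0) : e (m + r) x y = e m x ((2 : ℕ) ^ r • y) := by
  induction r generalizing y with
  | zero => rw [add_zero, pow_zero, one_smul]
  | succ r ih =>
    have h1 : (2 : ℕ) ^ (m + r) • ((2 : ℕ) • y) = 0 := by
      rw [← mul_smul, ← pow_succ, add_assoc]; exact hy
    rw [← add_assoc, hw.comp (m + r) x y (pow_smul_of_le (Nat.le_add_right m r) hx) hy, ih h1,
      ← mul_smul, ← pow_succ]

/-- The pairing of `V[2^i]` and `V[2^k]` vanishes for `i + k ≤ m`. -/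
theorem small {m i k : ℕ} (h : i + k ≤ m) {x y : V} (hx : (2 : ℕ) ^ i • x = 0)
    (hy : (2 : ℕ) ^ k • y = 0) : e m x y = 0 := by
  obtain ⟨r, rfl⟩ := Nat.exists_eq_add_of_le (le_trans (Nat.le_add_right i k) h)
  rw [hw.comp_pow r hx (pow_smul_of_le (by omega) hy), pow_smul_of_le (by omega : k ≤ r) hy,
    hw.zero_right hx]

/-- The pairing of `V[2^m]` with `V[2]`. -/
theorem red {m : ℕ} {x y : V} (hx : (2 : ℕ) ^ (m + 1) • x = 0) (hy : (2 : ℕ) • y = 0) :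
    e (m + 1) x y = e 1 ((2 : ℕ) ^ m • x) y := by
  have hy1 : (2 : ℕ) ^ 1 • y = 0 := by rw [pow_one]; exact hy
  have hx1 : (2 : ℕ) ^ 1 • ((2 : ℕ) ^ m • x) = 0 := by
    rw [← mul_smul, ← pow_add, add_comm 1 m]; exact hx
  have hy2 : (2 : ℕ) ^ (m + 1) • y = 0 := pow_smul_of_le (by omega) hy1
  rw [hw.anti hx hy2, hw.anti hx1 hy1, add_comm m 1, hw.comp_pow m hy1 (by rw [add_comm]; exact hx)]

/-- Invariance under the twisted action. -/
theorem tw_equiv (chi : G → ZMod 2) (m : ℕ) (s : G) {x y : V} (hx : (2 : ℕ) ^ m • x = 0)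
    (hy : (2 : ℕ) ^ m • y = 0) : e m (tw chi s x) (tw chi s y) = s • e m x y := by
  have hx' : (2 : ℕ) ^ m • (s • x) = 0 := by
    rw [smul_comm, hx, smul_zero]
  have hy' : (2 : ℕ) ^ m • (s • y) = 0 := by
    rw [smul_comm, hy, smul_zero]
  rcases sgn_eq (chi s) with h | h
  · rw [tw, tw, h, one_smul, one_smul, hw.equiv m s x y hx hy]
  · rw [tw, tw, h, neg_one_smul, neg_one_smul, hw.neg_left hx' (by rw [smul_neg, hy', neg_zero]),
      hw.neg_right hx' hy', neg_neg, hw.equiv m s x y hx hy]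

end Weil

/-- The obstruction cocycle of `2 R`. -/
def Ob (e : ℕ → V → V → M) (chi : G → ZMod 2) (m : ℕ) (R : G → V) (s t : G) : M :=
  e m (R (s * t)) (R s + tw chi s (R t)) + e m (R s) (tw chi s (R t))

/-- `R` has values in `V[2^m]` and `2 R` is a cocycle. -/
structure Half (chi : G → ZMod 2) (m : ℕ) (R : G → V) : Prop where
  lev : ∀ s, (2 : ℕ) ^ m • R s = 0
  coc : ∀ s t, (2 : ℕ) • (R (s * t) - R s - tw chi s (R t)) = 0

section

variable {S : Sys G V V1 Pl} {e : ℕ → V → V → M} {j : ZMod 2 →+ M}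

theorem smul_Ob (hw : Weil S e j) {chi : G → ZMod 2} (hchi : ∀ s t, chi (s * t) = chi s + chi t)
    {m : ℕ} {R : G → V} (hR : Half chi m R) (s t u : G) :
    s • Ob e chi m R t u = e m (tw chi s (R (t * u))) (tw chi s (R t) + tw chi (s * t) (R u)) +
      e m (tw chi s (R t)) (tw chi (s * t) (R u)) := by
  rw [Ob, smul_add, ← hw.tw_equiv chi m s (hR.lev _) (by
      rw [smul_add, hR.lev, pow_smul_tw chi t (hR.lev u), add_zero]),
    ← hw.tw_equiv chi m s (hR.lev _) (pow_smul_tw chi t (hR.lev u)), tw_add, ← tw_mul hchi]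

/-- `Ob` is a 2-cocycle. -/
theorem ob_coc (hw : Weil S e j) {chi : G → ZMod 2} (hchi : S.HomG chi)
    {m : ℕ} (hm : 2 ≤ m) {R : G → V} (hR : Half chi m R) (s t u : G) :
    Ob e chi m R s t + Ob e chi m R (s * t) u = s • Ob e chi m R t u + Ob e chi m R s (t * u) := by
  have hT : ∀ (s : G) {x : V}, x ∈ Tor V m → tw chi s x ∈ Tor V m := fun s x hx =>
    pow_smul_tw chi s hx
  have hc : ∀ s t, R (s * t) - R s - tw chi s (R t) ∈ Tor V m := fun s t =>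
    pow_smul_of_le (i := 1) (by omega) (by rw [pow_one]; exact hR.coc s t)
  have key : ∀ a b : Tor V m, (2 : ℕ) • (a : V) = 0 → (2 : ℕ) • (b : V) = 0 →
      hw.B m a b = 0 := fun a b ha hb =>
    hw.small (i := 1) (k := 1) (by omega) (by rw [pow_one]; exact ha) (by rw [pow_one]; exact hb)
  have htwo : ∀ a : Tor V m, (2 : ℕ) • (a : V) = 0 → ∀ z, hw.B m a z + hw.B m a z = 0 := by
    intro a ha z
    rw [← AddMonoidHom.add_apply, ← map_add]
    have : a + a = 0 := Subtype.ext (by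
      rw [AddSubgroup.coe_add, ← two_nsmul]; exact ha)
    rw [this, map_zero, AddMonoidHom.zero_apply]
  have H := coc_alg (hw.B m) (hw.B_alt m) (⟨R s, hR.lev s⟩ : Tor V m)
    ⟨tw chi s (R t), hT s (hR.lev t)⟩ ⟨tw chi (s * t) (R u), hT _ (hR.lev u)⟩
    ⟨_, hc s t⟩ ⟨_, hT s (hc t u)⟩ ⟨_, hc s (t * u)⟩ ⟨_, hc (s * t) u⟩
    (Subtype.ext (by
      simp only [AddSubgroup.coe_add, tw_sub]
      rw [← tw_mul hchi.2, mul_assoc]
      abel))
    (key _ _ (hR.coc _ _) (hR.coc _ _))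
    (key _ _ (hR.coc _ _) (by
      change (2 : ℕ) • tw chi s _ = 0
      rw [← tw_nsmul, hR.coc, tw_zero]))
    (htwo _ (by
      change (2 : ℕ) • tw chi s _ = 0
      rw [← tw_nsmul, hR.coc, tw_zero]))
  rw [smul_Ob hw hchi.2 hR]
  simp only [obf, hw.B_apply, AddSubgroup.coe_add, tw_sub] at H
  rw [Ob, Ob, Ob]
  rw [← tw_mul hchi.2] at H
  have e1 : R s + tw chi s (R t) + (R (s * t) - R s - tw chi s (R t)) = R (s * t) := by abel
  have e2 : R s + tw chi s (R t) + tw chi (s * t) (R u) + (R (s * t) - R s - tw chi s (R t)) +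
      (R (s * t * u) - R (s * t) - tw chi (s * t) (R u)) = R (s * t * u) := by abel
  have e3 : tw chi s (R t) + tw chi (s * t) (R u) +
      (tw chi s (R (t * u)) - tw chi s (R t) - tw chi (s * t) (R u)) = tw chi s (R (t * u)) := by
    abel
  have e4 : R s + tw chi s (R t) + tw chi (s * t) (R u) +
      (tw chi s (R (t * u)) - tw chi s (R t) - tw chi (s * t) (R u)) +
      (R (s * (t * u)) - R s - tw chi s (R (t * u))) = R (s * (t * u)) := by abel
  rw [e1, e2, e3, e4] at H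
  exact H

/-- `Ob` is 2-finite if `R` is. -/
theorem ob_tf (h : S.Ok) {chi : G → ZMod 2} (hchi : S.HomG chi)
    {m : ℕ} {R : G → V} (hR : Half chi m R) (hT : S.TF R) : S.TF2 (Ob e chi m R) := by
  obtain ⟨N1, hN1, h1⟩ := hT
  obtain ⟨N2, hN2, h2⟩ := Sys.act_tf h hchi m
  refine ⟨N1 ⊓ N2, h.inf_mem _ hN1 _ hN2, fun s t n hn k hk => ?_⟩
  have hnorm := h.normal _ hN1
  have e1 : R (s * n) = R s := h1 s n hn.1
  have e2 : R (t * k) = R t := h1 t k hk.1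
  have e3 : R (s * n * (t * k)) = R (s * t) := by
    have : s * n * (t * k) = s * t * (t⁻¹ * n * t * k) := by group
    rw [this]
    refine h1 _ _ (N1.mul_mem ?_ hk.1)
    have := hnorm.conj_mem n hn.1 t⁻¹
    rwa [inv_inv] at this
  have e4 : tw chi (s * n) (R t) = tw chi s (R t) := by
    exact h2 s n hn.2 _ (hR.lev t)
  rw [Ob, Ob, e1, e2, e3, e4]

end

end Pool.Agent.SmN
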