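import Pool.Agent.Lib.SmN.P.MultSN
import Pool.Agent.Lib.SmJ.P.MultK

/-!
# SMITH with action on the 2-torsion, parity, module MULT: the inertia values at a place of
multiplicative reduction, in terms of classes

The roots `a l` are permuted by the Galois group, `s (a l) = a (p s l)`.
`sub_pair`: if `2 Q` is fixed by inertia, `a k - a l` is a unit for all `k` different from `i`, `j`
and all `l ≠ k`, the inertia group fixes the `a k`, `k ≠ i, j`, and `s Q = Q + ∑ r ∈ S, ee r`, `S`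
even, `s` in the inertia group, then `S ⊆ {i, j}`.
-/

set_option autoImplicit false

open Polynomial Pool.Agent.Lib.SmD

namespace Pool.Agent.SmN.Mult

open Pool.Agent.SmJ
open Pool.Agent.SmJ.Mult (infinite_fixed)

variable {K Om : Type} [Field K] [Field Om] [Algebra K Om] {w : ValuationSubring Om} {π : K}
  {g : ℕ} {a : Fin (2 * g + 1) → Om} [HypA a]

/-- a class fixed by a set of automorphisms has a fixed reduced pair -/
theorem exists_fixed {H : Set (Om ≃ₐ[K] Om)}
    (hm : ∀ s ∈ H, (ff a).map ((s : Om ≃+* Om) : Om →+* Om) = ff a) {C : JJ (ff a)}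
    (hC : ∀ s ∈ H, ∀ h : (ff a).map ((s : Om ≃+* Om) : Om →+* Om) = ff a,
      act (s : Om ≃+* Om) h C = C) :
    ∃ U V W : Om[X], U.Monic ∧ U.natDegree ≤ g ∧ V.degree < U.degree ∧ V ^ 2 - U * W = ff a ∧
      (∀ s ∈ H, U.map ((s : Om ≃+* Om) : Om →+* Om) = U) ∧
      (∀ s ∈ H, V.map ((s : Om ≃+* Om) : Om →+* Om) = V) ∧ mcl (ff a) U V = C := by
  obtain ⟨U, V, hU, hg, hV, ⟨D, hD⟩, hc⟩ := exists_red (natDegree_ff a) C
  have hfix : ∀ s ∈ H, U.map ((s : Om ≃+* Om) : Om →+* Om) = U ∧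
      V.map ((s : Om ≃+* Om) : Om →+* Om) = V := by
    intro s hs
    refine fixed_pair (natDegree_ff a) _ (hm s hs) hU hg hV ⟨D, hD⟩ ?_
    rw [hc]
    exact hC s hs (hm s hs)
  exact ⟨U, V, -D, hU, hg, hV, by linear_combination -hD, fun s hs => (hfix s hs).1,
    fun s hs => (hfix s hs).2, hc⟩

/-- **Inertia values**: `S ⊆ {i, j}`. -/
theorem sub_pair [Infinite K] [IsGalois K Om] [IsSepClosed Om] (hL : LocHyp K w π)
    {p : (Om ≃ₐ[K] Om) → Fin (2 * g + 1) → Fin (2 * g + 1)}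
    (hp : ∀ (s : Om ≃ₐ[K] Om) (l : Fin (2 * g + 1)), s (a l) = a (p s l))
    (hm : ∀ s : Om ≃ₐ[K] Om, (ff a).map ((s : Om ≃+* Om) : Om →+* Om) = ff a)
    {i j : Fin (2 * g + 1)}
    (hk : ∀ k, k ≠ i → k ≠ j → ∀ l, l ≠ k → w.valuation (a k - a l) = 1)
    (hfix : ∀ s ∈ iner K w, ∀ k, k ≠ i → k ≠ j → s (a k) = a k) {Q : JJ (ff a)}
    (hQ : ∀ s ∈ iner K w, ∀ h : (ff a).map ((s : Om ≃+* Om) : Om →+* Om) = ff a,
      act (s : Om ≃+* Om) h (2 • Q) = 2 • Q)
    {s : Om ≃ₐ[K] Om} (hs : s ∈ iner K w) {S : Finset (Fin (2 * g + 1))} (hS : Even S.card)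
    (hact : act (s : Om ≃+* Om) (hm s) Q = Q + ∑ r ∈ S, ee a r) :
    ∀ k ∈ S, k = i ∨ k = j := by
  obtain ⟨U, V, W, hU, hg, hV, he, hfU, hfV, hc⟩ := exists_fixed
    (H := (iner K w : Set (Om ≃ₐ[K] Om))) (fun s _ => hm s) hQ
  obtain ⟨ρ, hρ, hρ'⟩ := kform hU hV hg he hc
    (H := (fun s : Om ≃ₐ[K] Om => (s : Om ≃+* Om)) '' (iner K w : Set (Om ≃ₐ[K] Om)))
    (infinite_fixed _) (by rintro σ ⟨t, ht, rfl⟩; exact hfU t ht)
    (by rintro σ ⟨t, ht, rfl⟩; exact hfV t ht)
  intro k hkS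
  by_contra hne
  push Not at hne
  have h20 : (2 : Om) ≠ 0 := HypA.two a
  have hu := hk k hne.1 hne.2
  have hak : ∀ t ∈ iner K w, t (a k) = a k := fun t ht => hfix t ht k hne.1 hne.2
  have hpk : p s k = k := HypA.inj (a := a) ((hp s k).symm.trans (hak s hs))
  have hdvd : U ∣ V ^ 2 - ff a := ⟨W, by linear_combination he⟩
  -- the value of `al`
  have hev : ∃ m : ℤ, w.valuation (ρ k ^ 2) = w.valuation (algebraMap K Om π) ^ (2 * m) := by
    have hodd : Odd (Fintype.card (Fin (2 * g + 1))) := ⟨g, by simp⟩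
    rw [hρ k, al, map_mul, map_pow, Valuation.map_neg, map_one, one_pow, one_mul]
    by_cases h0 : U.eval (a k) = 0
    · rw [if_pos h0]
      obtain ⟨d1, d2⟩ := W_deg hU hV hg he
      have hWm : (-W).Monic := by rw [Monic, leadingCoeff_neg, d2, neg_neg]
      have hfW : ∀ t ∈ iner K w, (-W).map ((t : Om ≃+* Om) : Om →+* Om) = -W := by
        intro t ht
        have h3 : U * (W.map ((t : Om ≃+* Om) : Om →+* Om)) = U * W := by
          have h4 := congrArg (Polynomial.map ((t : Om ≃+* Om) : Om →+* Om)) he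
          rw [hm t, Polynomial.map_sub, Polynomial.map_pow, Polynomial.map_mul,
            hfU t ht, hfV t ht] at h4
          linear_combination he - h4
        rw [Polynomial.map_neg, mul_left_cancel₀ hU.ne_zero h3]
      obtain ⟨m, hmm⟩ := even_val hL hodd a k hak hu (-W) V hWm
        (fun t ht => hfW t ht) (fun t ht => hfV t ht)
        ⟨-U, by
          change V ^ 2 - ff a = _
          linear_combination he⟩ (by
          rw [eval_neg]
          exact neg_ne_zero.mpr (W_eval_ne he h0).2)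
      refine ⟨m, ?_⟩
      rw [eval_neg, Valuation.map_neg] at hmm
      exact hmm
    · rw [if_neg h0]
      exact even_val hL hodd a k hak hu U V hU (fun t ht => hfU t ht)
        (fun t ht => hfV t ht) hdvd h0
  obtain ⟨m, hmm⟩ := hev
  -- the two descriptions of `s ρ`
  have h1 := (hρ' _ ⟨s, hs, rfl⟩ (hm s) (p s) (fun l => hp s l) S hS hact k).2
  rw [hpk] at h1
  have h2 : s (ρ k) = -ρ k := h1 hkS
  have h3 : s (ρ k) = ρ k := by
    refine Pool.Agent.Sm.Mult.fix_even hL hs (n := m) ?_ hmm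
    rw [map_pow, h2, neg_sq]
  have h4 : ρ k = 0 := by
    have h5 : 2 * ρ k = 0 := by linear_combination h2 - h3
    exact (mul_eq_zero.mp h5).resolve_left h20
  have h6 := hρ k
  rw [h4, zero_pow two_ne_zero] at h6
  exact al_ne_zero he k h6.symm

end Pool.Agent.SmN.Mult
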