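import Pool.Agent.Lib.SmN.P.Ob

/-!
# SMITH block P (parity), module AltW: the Cassels-Tate pairings are alternating, from a compatible
family of alternating pairings `e m` only (`Weil S e j`)

The general version of `Lib/Sm/P/AltW.lean`.
-/

set_option autoImplicit false

namespace Pool.Agent.SmN

variable {G V V1 Pl M : Type*} [Group G] [AddCommGroup V] [DistribMulAction G V]
  [AddCommGroup V1] [Module (ZMod 2) V1]
  [AddCommGroup M] [DistribMulAction G M]

namespace Weil

variable {S : Sys G V V1 Pl} {e : ℕ → V → V → M} {j : ZMod 2 →+ M}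

/-- P3: the pairing of `Psi` with `2^i Psi` vanishes. -/
theorem ct_top_self (h : S.Ok) (hw : Weil S e j) {qq : V1 → ZMod 2} (hq : QInv S qq)
    (hR : S.RecipM j) {chi : G → ZMod 2}
    (hchi : S.HomG chi) {i : ℕ} {Psi : G → V} (hP : S.IsSel chi (i + 1) Psi) :
    S.CT chi Psi (Sys.top S i Psi) = 0 := by
  obtain ⟨hat, Q, hd⟩ := Sys.exists_liftData h hchi hP
  have ha := Sys.isSel1_top h hP
  rw [Sys.CT_eq h hchi hd ha]
  have hcD : ∀ v, S.CocD chi v (fun s => hat s - dl chi (Q v) s) := fun v =>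
    Sys.CocD.sub h ⟨hd.tf.on _, fun s _ t _ => hd.coc s t⟩ (Sys.dl_cocD h hchi (Q v) v)
  set x : Pl → G → V1 := fun v s => S.un (hat s - dl chi (Q v) s) with hx
  have hxc : ∀ v, ∀ s ∈ S.D v, ∀ t ∈ S.D v, x v (s * t) = x v s + S.ac s (x v t) :=
      fun v s hs t ht => by
    have h1 := (hcD v).coc s hs t ht
    rw [hx]
    beta_reduce
    rw [h1, Sys.un_add h (hd.two_sub v hs) (Sys.two_tw h chi s (hd.two_sub v ht)),
      Sys.un_tw h chi s (hd.two_sub v ht)]
  choose hf hhf using h.half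
  have hT : S.TF (fun s => hf (hat s)) := hd.tf.comp hf
  have hlev : ∀ s, (2 : ℕ) ^ (i + 2) • hat s = 0 := fun s => by
    rw [pow_succ, mul_smul, hd.two, hP.lev]
  have hH : Half chi (i + 3) (fun s => hf (hat s)) := by
    refine ⟨fun s => ?_, fun s t => ?_⟩
    · rw [pow_succ, mul_smul, hhf, hlev]
    · rw [smul_sub, smul_sub, ← tw_nsmul, hhf, hhf, hhf, hd.coc]
      abel
  have key := hR (Ob e chi (i + 3) (fun s => hf (hat s))) (fun _ => Sys.top S i Psi) x
    (ob_tf h hchi hH hT) (fun s t u => ob_coc hw hchi (by omega) hH s t u) (fun v => by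
      refine ⟨ha.1.1.on _, fun s _ t _ => ha.1.2 s t, (hcD v).tf.comp S.un, hxc v, ?_⟩
      obtain ⟨g, hg, h1⟩ := ob_local h hw hq hchi (Nat.le_add_left 1 i) hP.lev hd
        (fun s => hhf (hat s)) hT v
      exact ⟨g, hg, fun s hs t ht => h1 s hs t ht⟩)
  rw [← key]
  refine finsum_congr fun v => ?_
  exact h.sy_comm v _ (hd.xi_CP h hchi v) _ (Sys.loc_mem_CP ha.1 v)

/-- P4: the pairing of `SelZ_i` with the image of `SelZ_(i+1)` vanishes. -/
theorem ct_top (h : S.Ok) (hw : Weil S e j) {qq : V1 → ZMod 2} (hq : QInv S qq)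
    (hR : S.RecipM j) {chi : G → ZMod 2}
    (hchi : S.HomG chi) {i : ℕ} {Phi Psi : G → V} (hF : S.IsSel chi i Phi)
    (hP : S.IsSel chi (i + 1) Psi) : S.CT chi Phi (Sys.top S i Psi) = 0 := by
  have hF' : S.IsSel chi (i + 1) Phi := hF.mono (Nat.le_succ i)
  have h1 := ct_top_self h hw hq hR hchi (hP.add h hF')
  have h2 : Sys.top S i (Psi + Phi) = Sys.top S i Psi := funext fun s => by
    rw [Sys.top, Sys.top, Pi.add_apply, smul_add, hF.lev, add_zero]
  rw [h2, Sys.CT_add_left h hchi hP hF' (Sys.isSel1_top h hP), ct_top_self h hw hq hR hchi hP,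
    zero_add] at h1
  exact h1

/-- The form `(Psi, Psi') ↦ <Psi, 2^i Psi'>` on `SelZ_(i+1)` is symmetric. -/
theorem ct_top_comm (h : S.Ok) (hw : Weil S e j) {qq : V1 → ZMod 2} (hq : QInv S qq)
    (hR : S.RecipM j) {chi : G → ZMod 2}
    (hchi : S.HomG chi) {i : ℕ} {Phi Psi : G → V} (hF : S.IsSel chi (i + 1) Phi)
    (hP : S.IsSel chi (i + 1) Psi) :
    S.CT chi Phi (Sys.top S i Psi) = S.CT chi Psi (Sys.top S i Phi) := by
  have h1 := ct_top_self h hw hq hR hchi (hP.add h hF)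
  have h2 : Sys.top S i (Psi + Phi) = Sys.top S i Psi + Sys.top S i Phi :=
    funext fun s => by
      rw [Pi.add_apply, Sys.top, Sys.top, Sys.top, Pi.add_apply, smul_add, Sys.un_add h]
      · rw [smul_smul, ← pow_succ', hP.lev]
      · rw [smul_smul, ← pow_succ', hF.lev]
  rw [h2, Sys.CT_add_right h hchi (hP.add h hF) (Sys.isSel1_top h hP)
      (Sys.isSel1_top h hF),
    Sys.CT_add_left h hchi hP hF (Sys.isSel1_top h hP),
    Sys.CT_add_left h hchi hP hF (Sys.isSel1_top h hF),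
    ct_top_self h hw hq hR hchi hP, ct_top_self h hw hq hR hchi hF, zero_add, add_zero] at h1
  exact CharTwo.add_eq_zero.1 h1

end Weil

end Pool.Agent.SmN
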