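import Pool.Agent.Lib.SmJ.P.Par
import Pool.Agent.Lib.SmN.G.TowerFacts
import Pool.Agent.Lib.SmN.P.AltW

/-!
# SMITH with action on `V1`, block P, module ParS: the parity theorem for the tower of any twist

No codes: the tower `twS S h chi` lives over the finite 2-Selmer group `Sel1` itself.
If it is alternating (`altn_twS`: Weil pairings, an invariant quadratic refinement of `e` and the
reciprocity `RecipM`), the number of Selmer cocycles of level `i` of the twist by `chi` grows like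
`#V1 ^ i` if `#Sel1` is a power of `4`, and like `(2 #V1) ^ i` if not, provided
`#SelZ n < (4 #V1) ^ n` for some `n` (`selZ_even`, `selZ_odd`).
-/

set_option autoImplicit false

namespace Pool.Agent.SmN

open Module
open Pool.Agent.Sm (Tower)

namespace Sys

variable {G V V1 Pl : Type*} [Group G] [AddCommGroup V] [DistribMulAction G V]
  [AddCommGroup V1] [Module (ZMod 2) V1]

/-- The 2-Selmer cocycles as a vector space. -/
abbrev SelM (S : Sys G V V1 Pl) (h : S.Ok) (chi : G → ZMod 2) : Submodule (ZMod 2) (G → V1) :=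
  AddSubgroup.toZModSubmodule 2 (S.Sel1 h chi)

/-- The tower of the twist. -/
noncomputable def twS (S : Sys G V V1 Pl) (h : S.Ok) (chi : G → ZMod 2) :
    Tower (S.SelM h chi) (G → V) where
  Z := S.SelZ h chi
  T := Sys.Cob chi
  P := S.PV chi
  c :=
    { toFun := fun c s => S.iota (c.1 s)
      map_zero' := by
        funext s
        exact map_zero _
      map_add' := by
        intro c c'
        funext s
        exact map_add _ _ _ }
  Fs := ⊤

variable {S : Sys G V V1 Pl}

theorem twS_c (h : S.Ok) (chi : G → ZMod 2) (c : S.SelM h chi) :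
    (twS S h chi).c c = fun s => S.iota (c.1 s) := rfl

theorem mem_SelM (h : S.Ok) {chi : G → ZMod 2} {b : G → V1} :
    b ∈ S.SelM h chi ↔ S.IsSel1 chi b := Iff.rfl

/-- The tower of the twist satisfies all axioms. -/
theorem twS_ok (h : S.Ok) {chi : G → ZMod 2} (hchi : S.HomG chi) (hfin : Finite (S.Sel1 h chi)) :
    (twS S h chi).Ok where
  fin := hfin
  zero := Sys.SelZ_zero h _
  mono := Sys.SelZ_le_succ h _
  lev := fun _ _ hm => Sys.SelZ_pow h _ hm
  low := fun _ _ hm h0 => Sys.SelZ_of_pow h _ hm h0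
  addl := fun _ _ hm _ hm' _ hb => Sys.PV_add_left h hchi hm hm' hb
  addr := fun _ _ hm _ hb _ hb' => Sys.PV_add_right h hchi hm hb hb'
  crit := fun _ _ hm => Sys.PV_crit h hchi hm
  ttor := fun _ ht => Sys.Cob_tors h ht
  tdiv := fun _ ht => Sys.Cob_half h ht
  tlev := fun _ _ ht h0 => Sys.Cob_SelZ h hchi ht h0
  cinj := by
    intro a b hab
    exact Subtype.ext (funext fun s => h.iota_inj (congrFun hab s))
  crange := by
    intro m
    constructor
    · intro hm
      refine ⟨⟨fun s => S.un (m s), Sys.isSel_un h hm⟩, trivial, ?_⟩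
      rw [twS_c]
      funext s
      refine Sys.iota_un h ?_
      have := (show S.IsSel chi 1 m from hm).lev s
      rwa [pow_one] at this
    · rintro ⟨a, -, rfl⟩
      exact Sys.isSel_iota h hchi a.2

/-- The tower is alternating. -/
theorem altn_twS {M : Type*} [AddCommGroup M] [DistribMulAction G M] (h : S.Ok) {chi : G → ZMod 2}
    (hchi : S.HomG chi) {e : ℕ → V → V → M} {j : ZMod 2 →+ M} (hw : Weil S e j)
    {qq : V1 → ZMod 2} (hq : QInv S qq) (hR : S.RecipM j) : (twS S h chi).Altn :=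
  fun _ _ hm => Weil.ct_top_self h hw hq hR hchi hm

/-! ### The torsion codes -/

/-- The points with vanishing coboundary. -/
private def Iv (chi : G → ZMod 2) : AddSubgroup V where
  carrier := {Q | ∀ s : G, dl chi Q s = 0}
  zero_mem' := fun s => dl_zero chi s
  add_mem' := by
    intro Q R hQ hR s
    rw [dl_add, hQ s, hR s, add_zero]
  neg_mem' := by
    intro Q hQ s
    rw [dl_neg, hQ s, neg_zero]

/-- The points whose coboundary is killed by 2. -/
private def Jv (chi : G → ZMod 2) : AddSubgroup V where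
  carrier := {Q | ∀ s : G, (2 : ℕ) • dl chi Q s = 0}
  zero_mem' := fun s => by rw [dl_zero, smul_zero]
  add_mem' := by
    intro Q R hQ hR s
    rw [dl_add, smul_add, hQ s, hR s, add_zero]
  neg_mem' := by
    intro Q hQ s
    rw [dl_neg, smul_neg, hQ s, neg_zero]

theorem mem_twS_Kp (h : S.Ok) (chi : G → ZMod 2) (a : S.SelM h chi) :
    a ∈ (twS S h chi).Kp ↔ ∃ Q : V, ∀ s, S.iota (a.1 s) = dl chi Q s := by
  rw [Tower.mem_Kp]
  constructor
  · rintro ⟨Q, hQ⟩
    exact ⟨Q, fun s => congrFun hQ s⟩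
  · rintro ⟨Q, hQ⟩
    exact ⟨Q, funext hQ⟩

theorem card_Kp_twS [Nonempty Pl] (h : S.Ok) {chi : G → ZMod 2} (hchi : S.HomG chi) :
    Nat.card (twS S h chi).Kp = Nat.card V1 := by
  obtain ⟨v⟩ := (inferInstance : Nonempty Pl)
  have hfin : Finite (Iv (V := V) chi) :=
    (h.fin_inv chi hchi v).subset fun Q hQ s _ => hQ s
  have hle : Iv (V := V) chi ≤ Jv chi := fun Q hQ s => by rw [hQ s, smul_zero]
  -- the first count
  let f : Jv (V := V) chi →+ (twS S h chi).Kp :=
    { toFun := fun Q => ⟨⟨fun s => S.un (dl chi Q.1 s), by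
          have h1 : S.IsSel chi 1 (dl chi Q.1) := isSel_dl h hchi fun s => by
            rw [pow_one]; exact Q.2 s
          exact Sys.isSel_un h h1⟩, (mem_twS_Kp h chi _).mpr ⟨Q.1, fun s => iota_un h (Q.2 s)⟩⟩
      map_zero' := by
        apply Subtype.ext
        apply Subtype.ext
        funext s
        change S.un (dl chi 0 s) = 0
        rw [dl_zero, un_zero h]
      map_add' := by
        intro Q R
        apply Subtype.ext
        apply Subtype.ext
        funext s
        change S.un (dl chi (Q.1 + R.1) s) = S.un (dl chi Q.1 s) + S.un (dl chi R.1 s)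
        rw [dl_add, un_add h (Q.2 s) (R.2 s)] }
  have hf : Function.Surjective f := by
    rintro ⟨a, ha⟩
    obtain ⟨Q, hQ⟩ := (mem_twS_Kp h chi a).mp ha
    refine ⟨⟨Q, fun s => by rw [← hQ s]; exact two_iota S _⟩, ?_⟩
    apply Subtype.ext
    apply Subtype.ext
    funext s
    change S.un (dl chi Q s) = a.1 s
    rw [← hQ s, un_iota h]
  have e1 : Nat.card (Iv (V := V) chi) * Nat.card (twS S h chi).Kp = Nat.card (Jv (V := V) chi) := by
    rw [← card_hom f, AddMonoidHom.range_eq_top.mpr hf, AddSubgroup.card_top]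
    congr 1
    refine Nat.card_congr ⟨fun Q => ⟨⟨Q.1, hle Q.2⟩, ?_⟩, fun Q => ⟨Q.1.1, ?_⟩, fun _ => rfl,
      fun _ => rfl⟩
    · rw [AddMonoidHom.mem_ker]
      apply Subtype.ext
      apply Subtype.ext
      funext s
      change S.un (dl chi Q.1 s) = 0
      rw [Q.2 s, un_zero h]
    · intro s
      have h1 := congrArg (fun x : (twS S h chi).Kp => x.1.1 s) (AddMonoidHom.mem_ker.mp Q.2)
      change S.un (dl chi Q.1.1 s) = 0 at h1
      rwa [un_eq_iff h (Q.1.2 s), map_zero] at h1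
  -- the second count
  let g : Jv (V := V) chi →+ Iv (V := V) chi :=
    { toFun := fun Q => ⟨(2 : ℕ) • Q.1, fun s => by rw [dl_nsmul]; exact Q.2 s⟩
      map_zero' := by ext; simp
      map_add' := by intro Q R; ext; simp }
  have hg : Function.Surjective g := by
    rintro ⟨Q, hQ⟩
    obtain ⟨R, hR⟩ := h.half Q
    refine ⟨⟨R, fun s => ?_⟩, Subtype.ext hR⟩
    rw [← dl_nsmul, hR, hQ s]
  have e2 : Nat.card V1 * Nat.card (Iv (V := V) chi) = Nat.card (Jv (V := V) chi) := by
    rw [← card_hom g, AddMonoidHom.range_eq_top.mpr hg, AddSubgroup.card_top]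
    congr 1
    refine Nat.card_congr (Equiv.ofBijective (fun w => ⟨⟨S.iota w, fun s => ?_⟩, ?_⟩) ⟨?_, ?_⟩)
    · exact two_dl_iota h chi s w
    · rw [AddMonoidHom.mem_ker]
      exact Subtype.ext (two_iota S w)
    · intro w w' hw
      exact h.iota_inj (congrArg (fun x => x.1.1) hw)
    · rintro ⟨⟨Q, hQ⟩, hQ2⟩
      obtain ⟨w, hw⟩ := h.iota_range Q (congrArg Subtype.val (AddMonoidHom.mem_ker.mp hQ2))
      exact ⟨w, Subtype.ext (Subtype.ext hw)⟩
  have hpos : 0 < Nat.card (Iv (V := V) chi) := Nat.card_pos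
  have : Nat.card (Iv (V := V) chi) * Nat.card (twS S h chi).Kp =
      Nat.card (Iv (V := V) chi) * Nat.card V1 := by
    rw [e1, ← e2]; ring
  exact Nat.eq_of_mul_eq_mul_left hpos this

private theorem ParS_card {E : Type*} [AddCommGroup E] [Module (ZMod 2) E]
    [Module.Finite (ZMod 2) E] : Nat.card E = 2 ^ finrank (ZMod 2) E := by
  rw [Module.natCard_eq_pow_finrank (K := ZMod 2), Nat.card_eq_fintype_card, ZMod.card]

theorem finrank_Kp_twS [Nonempty Pl] (h : S.Ok) {chi : G → ZMod 2} (hchi : S.HomG chi)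
    (hfin : Finite (S.Sel1 h chi)) :
    finrank (ZMod 2) (twS S h chi).Kp = finrank (ZMod 2) V1 := by
  have hf1 := h.fin1
  have hfC : Finite (S.SelM h chi) := hfin
  have hm1 : Module.Finite (ZMod 2) V1 := Module.Finite.of_finite
  have hmC : Module.Finite (ZMod 2) (S.SelM h chi) := Module.Finite.of_finite
  have h1 := card_Kp_twS h hchi
  rw [ParS_card, ParS_card (E := V1)] at h1
  exact Nat.pow_right_injective le_rfl h1

theorem card_Sel1_twS (h : S.Ok) {chi : G → ZMod 2} (hfin : Finite (S.Sel1 h chi)) :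
    Nat.card (S.Sel1 h chi) = 2 ^ finrank (ZMod 2) (twS S h chi).Fs := by
  have hfC : Finite (S.SelM h chi) := hfin
  have hmC : Module.Finite (ZMod 2) (S.SelM h chi) := Module.Finite.of_finite
  have h1 : (twS S h chi).Fs = ⊤ := rfl
  rw [h1, finrank_top, ← ParS_card]
  rfl

theorem even_Fs_twS (h : S.Ok) {chi : G → ZMod 2} (hfin : Finite (S.Sel1 h chi)) :
    Even (finrank (ZMod 2) (twS S h chi).Fs) ↔ ∃ r : ℕ, Nat.card (S.Sel1 h chi) = 4 ^ r := by
  rw [card_Sel1_twS h hfin]
  constructor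
  · rintro ⟨r, hr⟩
    exact ⟨r, by rw [hr, ← two_mul, pow_mul]; norm_num⟩
  · rintro ⟨r, hr⟩
    refine ⟨r, ?_⟩
    have h1 : (2 : ℕ) ^ finrank (ZMod 2) (twS S h chi).Fs = 2 ^ (r + r) := by
      rw [hr, ← two_mul, pow_mul]; norm_num
    exact Nat.pow_right_injective le_rfl h1

private theorem ParS_four (h : S.Ok) :
    4 * Nat.card V1 = 2 ^ (finrank (ZMod 2) V1 + 2) ∧
      2 * Nat.card V1 = 2 ^ (finrank (ZMod 2) V1 + 1) ∧
      Nat.card V1 = 2 ^ finrank (ZMod 2) V1 := by
  have hf1 := h.fin1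
  have hm1 : Module.Finite (ZMod 2) V1 := Module.Finite.of_finite
  have h1 : Nat.card V1 = 2 ^ finrank (ZMod 2) V1 := ParS_card
  rw [h1, pow_add, pow_add]
  exact ⟨by ring, by ring, rfl⟩

private theorem ParS_even (h : S.Ok) : Even (finrank (ZMod 2) V1) := by
  have hf1 := h.fin1
  have hm1 : Module.Finite (ZMod 2) V1 := Module.Finite.of_finite
  exact Pool.Agent.SmJ.even_finrank_of_alt S.e h.e_alt h.e_nondeg

/-- If the Selmer cocycles of some level `n ≥ 1` are finite in number, then so is `Sel1`. -/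
theorem finite_Sel1 (h : S.Ok) {chi : G → ZMod 2} (hchi : S.HomG chi) {n : ℕ} (hn : 1 ≤ n)
    (hfin : Finite (S.SelZ h chi n)) : Finite (S.Sel1 h chi) := by
  refine Finite.of_injective (fun b : S.Sel1 h chi =>
    (⟨fun s => S.iota (b.1 s), ?_⟩ : S.SelZ h chi n)) ?_
  · exact (Sys.isSel_iota h hchi b.2).mono hn
  · intro b b' hb
    exact Subtype.ext (funext fun s => h.iota_inj (congrFun (congrArg Subtype.val hb) s))

/-- Parity theorem, even case. -/
theorem selZ_even [Nonempty Pl] (h : S.Ok) {chi : G → ZMod 2} (hchi : S.HomG chi)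
    (hfin : Finite (S.Sel1 h chi)) (ha : (twS S h chi).Altn) {n : ℕ}
    (hn : Nat.card (S.SelZ h chi n) < (4 * Nat.card V1) ^ n)
    (hr : ∃ r : ℕ, Nat.card (S.Sel1 h chi) = 4 ^ r) :
    ∃ B : ℕ, ∀ i, Nat.card (S.SelZ h chi i) ≤ B * (Nat.card V1) ^ i := by
  obtain ⟨h4, -, h1⟩ := ParS_four h
  rw [h4] at hn
  rw [h1]
  exact Pool.Agent.SmJ.Tower.card_Z_even (twS_ok h hchi hfin) ha (ParS_even h)
    (finrank_Kp_twS h hchi hfin) ((even_Fs_twS h hfin).mpr hr) hn

/-- Parity theorem, odd case. -/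
theorem selZ_odd [Nonempty Pl] (h : S.Ok) {chi : G → ZMod 2} (hchi : S.HomG chi)
    (hfin : Finite (S.Sel1 h chi)) (ha : (twS S h chi).Altn) {n : ℕ}
    (hn : Nat.card (S.SelZ h chi n) < (4 * Nat.card V1) ^ n)
    (hr : ¬ ∃ r : ℕ, Nat.card (S.Sel1 h chi) = 4 ^ r) :
    (∀ i, (2 * Nat.card V1) ^ i ≤ Nat.card (S.SelZ h chi i)) ∧
      ∃ B : ℕ, ∀ i, Nat.card (S.SelZ h chi i) ≤ B * (2 * Nat.card V1) ^ i := by
  obtain ⟨h4, h2, -⟩ := ParS_four h
  rw [h4] at hn
  rw [h2]
  exact Pool.Agent.SmJ.Tower.card_Z_odd (twS_ok h hchi hfin) ha (ParS_even h)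
    (finrank_Kp_twS h hchi hfin) (fun h1 => hr ((even_Fs_twS h hfin).mp h1)) hn

end Sys

end Pool.Agent.SmN
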