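import Pool.Agent.Lib.SmN.P.Dick
import Pool.Agent.Lib.SmN.P.ParS

/-!
# SMITH with action on `V1`, block P, module LocPar: the parity of the 2-Selmer rank is local

`dS h chi` = dimension of the 2-Selmer space modulo 2, `wv chi chi' v` = dimension of the intersection
of the local Kummer groups modulo 2, `sq2 v c d` = the local symbol of two quadratic characters,
`dk` = the Dickson invariant of the action on `V1` (a quadratic character).

`par_rel_add`: if all places outside the finite set `T` are good, then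
`dS chi + dS chi' = ∑_(v ∈ T) (wv chi chi' v + sq2 v dk (chi + chi'))`.
`dS_eq_of_agree`: twists which agree on the decomposition groups at `T` have the same parity.
`dS_flip`: twists which agree at `T` except at `v0`.
-/

set_option autoImplicit false

open Module

namespace Pool.Agent.SmN

namespace Sys

variable {G V V1 Pl : Type*} [Group G] [AddCommGroup V] [DistribMulAction G V]
  [AddCommGroup V1] [Module (ZMod 2) V1]

/-- The local symbol of two quadratic characters. -/
def sq2 (S : Sys G V V1 Pl) (v : Pl) (c d : G → ZMod 2) : ZMod 2 :=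
  c (S.sg v) * d (S.phi v) + c (S.phi v) * d (S.sg v) + S.eps v * (c (S.sg v) * d (S.sg v))

/-- Reciprocity for quadratic characters. -/
def RecQ (S : Sys G V V1 Pl) : Prop :=
  ∀ c d : G → ZMod 2, S.HomG c → S.HomG d → ∑ᶠ v, S.sq2 v c d = 0

/-- `W_v ∩ W'_v` as a vector space. -/
noncomputable abbrev WI (S : Sys G V V1 Pl) (chi chi' : G → ZMod 2) (v : Pl) :
    Submodule (ZMod 2) (V1 × V1) := AddSubgroup.toZModSubmodule 2 (S.W chi v ⊓ S.W chi' v)

/-- The dimension of `W_v ∩ W'_v` modulo 2. -/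
noncomputable def wv (S : Sys G V V1 Pl) (chi chi' : G → ZMod 2) (v : Pl) : ZMod 2 :=
  (finrank (ZMod 2) (S.WI chi chi' v) : ℕ)

/-- The dimension of the 2-Selmer space modulo 2. -/
noncomputable def dS (S : Sys G V V1 Pl) (h : S.Ok) (chi : G → ZMod 2) : ZMod 2 :=
  (finrank (ZMod 2) (S.SelM h chi) : ℕ)

variable {S : Sys G V V1 Pl}

private theorem LP_card {E : Type*} [AddCommGroup E] [Module (ZMod 2) E]
    [Module.Finite (ZMod 2) E] : Nat.card E = 2 ^ finrank (ZMod 2) E := by
  rw [Module.natCard_eq_pow_finrank (K := ZMod 2), Nat.card_eq_fintype_card, ZMod.card]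

theorem isSquare_two_pow {n : ℕ} : IsSquare (2 ^ n) ↔ Even n := by
  constructor
  · rintro ⟨r, hr⟩
    obtain ⟨k, -, rfl⟩ := (Nat.dvd_prime_pow Nat.prime_two).mp ⟨r, hr⟩
    rw [← pow_add] at hr
    exact ⟨k, Nat.pow_right_injective le_rfl hr⟩
  · rintro ⟨k, rfl⟩
    exact ⟨2 ^ k, pow_add 2 k k⟩

private theorem LP_z01 : ∀ x : ZMod 2, x = 0 ∨ x = 1 := by decide

theorem card_WI (h : S.Ok) (chi chi' : G → ZMod 2) (v : Pl) :
    Nat.card (S.W chi v ⊓ S.W chi' v : AddSubgroup (V1 × V1)) =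
      2 ^ finrank (ZMod 2) (S.WI chi chi' v) := by
  have hf1 := h.fin1
  have hm1 : Module.Finite (ZMod 2) V1 := Module.Finite.of_finite
  exact LP_card (E := S.WI chi chi' v)

theorem isSquare_WI (h : S.Ok) (chi chi' : G → ZMod 2) (v : Pl) :
    IsSquare (Nat.card (S.W chi v ⊓ S.W chi' v : AddSubgroup (V1 × V1))) ↔
      S.wv chi chi' v = 0 := by
  rw [card_WI h, isSquare_two_pow, wv, ZMod.natCast_eq_zero_iff_even]

theorem wv_comm (chi chi' : G → ZMod 2) (v : Pl) : S.wv chi chi' v = S.wv chi' chi v := by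
  rw [wv, wv, WI, WI, inf_comm]

/-- The local Kummer groups depend only on the values of the character at `sg` and `phi`. -/
theorem agree_D (h : S.Ok) {chi chi' : G → ZMod 2} (hchi : S.HomG chi)
    (hchi' : S.HomG chi') {v : Pl} (h1 : chi (S.sg v) = chi' (S.sg v))
    (h2 : chi (S.phi v) = chi' (S.phi v)) : ∀ s ∈ S.D v, chi s = chi' s := by
  have hone : ∀ {c : G → ZMod 2}, S.HomG c → c 1 = 0 := fun hc => chi_one hc.2
  have hcl : ∀ t ∈ Subgroup.closure {S.phi v, S.sg v}, chi t = chi' t := by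
    intro t ht
    refine Subgroup.closure_induction (p := fun x _ => chi x = chi' x) ?_ ?_ ?_ ?_ ht
    · rintro y (rfl | rfl)
      · exact h2
      · exact h1
    · rw [hone hchi, hone hchi']
    · intro a b _ _ ha hb
      rw [hchi.2, hchi'.2, ha, hb]
    · intro a _ ha
      have e1 := hchi.2 a⁻¹ a
      have e2 := hchi'.2 a⁻¹ a
      rw [inv_mul_cancel, hone hchi] at e1
      rw [inv_mul_cancel, hone hchi', ← ha] at e2
      have key : ∀ x y z : ZMod 2, 0 = x + z → 0 = y + z → x = y := by decide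
      exact key _ _ _ e1 e2
  intro s hs
  obtain ⟨N, hN, hN1⟩ := hchi.1
  obtain ⟨N', hN', hN1'⟩ := hchi'.1
  obtain ⟨t, ht, hts⟩ := h.gen v _ (h.inf_mem N hN N' hN') s hs
  have e1 := hN1 t _ hts.1
  have e2 := hN1' t _ hts.2
  rw [mul_inv_cancel_left] at e1 e2
  rw [e1, e2, hcl t ht]

theorem W_eq_of_agree {chi chi' : G → ZMod 2} {v : Pl} (h : S.Ok)
    (hall : ∀ s ∈ S.D v, chi s = chi' s) : S.W chi v = S.W chi' v := by
  have hdl : ∀ (Q : V), ∀ s ∈ S.D v, dl chi Q s = dl chi' Q s := by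
    intro Q s hs
    unfold dl tw
    rw [hall s hs]
  ext x
  rw [mem_W, mem_W]
  constructor
  · rintro ⟨Q, hQ1, hQ2, hQ3⟩
    exact ⟨Q, fun s hs => by rw [← hdl Q s hs]; exact hQ1 s hs,
      by rw [← hdl Q _ (h.sg_mem v)]; exact hQ2, by rw [← hdl Q _ (h.phi_mem v)]; exact hQ3⟩
  · rintro ⟨Q, hQ1, hQ2, hQ3⟩
    exact ⟨Q, fun s hs => by rw [hdl Q s hs]; exact hQ1 s hs,
      by rw [hdl Q _ (h.sg_mem v)]; exact hQ2, by rw [hdl Q _ (h.phi_mem v)]; exact hQ3⟩

theorem wv_of_eq (h : S.Ok) {chi chi' : G → ZMod 2} (hchi : S.HomG chi) {v : Pl}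
    (he : S.W chi v = S.W chi' v) : S.wv chi chi' v = 0 := by
  rw [← isSquare_WI h, ← he, inf_idem, card_W h hchi]
  obtain ⟨g, hg⟩ := even_finrank_V1 h
  have hf1 := h.fin1
  have hm1 : Module.Finite (ZMod 2) V1 := Module.Finite.of_finite
  rw [LP_card (E := V1), hg]
  exact ⟨2 ^ g, pow_add 2 g g⟩

/-! ### The good places -/

/-- The coboundary map of `V1` at a place. -/
def cobL (S : Sys G V V1 Pl) (v : Pl) : V1 →ₗ[ZMod 2] V1 × V1 :=
  (((S.ac (S.sg v) : V1 →ₗ[ZMod 2] V1) - LinearMap.id).prod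
    ((S.ac (S.phi v) : V1 →ₗ[ZMod 2] V1) - LinearMap.id))

theorem cobL_apply (v : Pl) (z : V1) : S.cobL v z = S.cob v z := rfl

theorem finrank_cobL (h : S.Ok) {v : Pl} (hv : v ∈ S.good) :
    finrank (ZMod 2) (LinearMap.range (S.cobL v)) + fx (S.ac (S.phi v)) =
      finrank (ZMod 2) V1 := by
  have hf1 := h.fin1
  have hm1 : Module.Finite (ZMod 2) V1 := Module.Finite.of_finite
  have h1 : LinearMap.ker (S.cobL v) = Fixd (S.ac (S.phi v)) := by
    ext x
    rw [LinearMap.mem_ker, mem_Fixd, cobL_apply, cob, ac_sg h hv]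
    constructor
    · intro hx
      exact sub_eq_zero.mp (congrArg Prod.snd hx)
    · intro hx
      refine Prod.ext ?_ (sub_eq_zero.mpr hx)
      change x - x = 0
      exact sub_self x
  have h2 := LinearMap.finrank_range_add_finrank_ker (S.cobL v)
  rwa [h1] at h2

/-- An element of the Kummer group of a ramified twist with first component zero is a coboundary. -/
theorem ram_zero (h : S.Ok) {chi : G → ZMod 2} {v : Pl} (hv : v ∈ S.good)
    (h1 : chi (S.sg v) = 1) {x : V1 × V1} (hx : x ∈ S.Wl chi v) (hx0 : x.1 = 0) :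
    ∃ w, x = S.cob v w := by
  obtain ⟨Q, hQ, h2, h3⟩ := hx
  rw [dl_sg_one h hv h1, hx0, map_zero, neg_eq_zero] at h2
  obtain ⟨w, rfl⟩ := h.iota_range Q h2
  refine ⟨w, Prod.ext ?_ (h.iota_inj ?_)⟩
  · rw [hx0]
    change 0 = S.ac (S.sg v) w - w
    rw [ac_sg h hv]
    exact (sub_self w).symm
  · rw [← h3, dl_iota h]
    rfl

theorem wv_one (h : S.Ok) {chi chi' : G → ZMod 2} (hchi : S.HomG chi) {v : Pl}
    (hv : v ∈ S.good) (h0 : chi (S.sg v) = 0) (h1 : chi' (S.sg v) = 1) :
    S.wv chi chi' v = S.dk (S.phi v) := by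
  have h2 : S.WI chi chi' v = LinearMap.range (S.cobL v) := by
    ext x
    constructor
    · rintro ⟨hx1, hx2⟩
      obtain ⟨w, rfl⟩ := ram_zero h hv h1 hx2 ((mem_Wl_good h hchi hv h0 x).mp hx1)
      exact ⟨w, rfl⟩
    · rintro ⟨w, rfl⟩
      exact ⟨cob_mem_Wl h chi v w, cob_mem_Wl h chi' v w⟩
  rw [wv, h2, dk]
  have h3 := finrank_cobL h hv
  have h4 := (ZMod.natCast_eq_zero_iff_even (n := finrank (ZMod 2) V1)).mpr (even_finrank_V1 h)
  rw [← h3] at h4
  push_cast at h4
  exact CharTwo.add_eq_zero.mp h4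

/-- The sum of the coboundaries of two ramified twists which differ at `phi`. -/
private theorem LP_dl {chi chi' : G → ZMod 2} {s : G} (hne : chi s ≠ chi' s) (Q : V) :
    dl chi' Q s = -dl chi Q s - (2 : ℕ) • Q := by
  rcases LP_z01 (chi s) with h1 | h1 <;> rcases LP_z01 (chi' s) with h2 | h2
  · exact absurd (h1.trans h2.symm) hne
  · rw [dl, dl, tw_of_zero chi h1, tw_of_one chi' h2, two_nsmul]
    abel
  · rw [dl, dl, tw_of_one chi h1, tw_of_zero chi' h2, two_nsmul]
    abel
  · exact absurd (h1.trans h2.symm) hne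

theorem wv_two (h : S.Ok) {qq : V1 → ZMod 2} (hqi : QInv S qq) {chi chi' : G → ZMod 2}
    (hchi : S.HomG chi) {v : Pl} (hv : v ∈ S.good)
    (h1 : chi (S.sg v) = 1) (h1' : chi' (S.sg v) = 1) (hne : chi (S.phi v) ≠ chi' (S.phi v)) :
    S.wv chi chi' v = 0 := by
  have hf1 := h.fin1
  have hm1 : Module.Finite (ZMod 2) V1 := Module.Finite.of_finite
  set F := S.ac (S.phi v) with hF
  set d := finrank (ZMod 2) V1 with hd
  have hker : ∀ P : Submodule (ZMod 2) (V1 × V1), (∀ x ∈ P, x ∈ S.Wl chi v) →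
      (∀ w, S.cob v w ∈ P) →
      finrank (ZMod 2) (P.map (LinearMap.fst (ZMod 2) V1 V1)) + (d - fx F) =
        finrank (ZMod 2) P := by
    intro P hP hcob
    have e1 := LinearMap.finrank_range_add_finrank_ker
      ((LinearMap.fst (ZMod 2) V1 V1).comp P.subtype)
    rw [LinearMap.range_comp, Submodule.range_subtype] at e1
    have e2 : finrank (ZMod 2) (LinearMap.ker ((LinearMap.fst (ZMod 2) V1 V1).comp P.subtype)) =
        finrank (ZMod 2) (LinearMap.range (S.cobL v)) := by
      refine LinearEquiv.finrank_eq (LinearEquiv.ofBijective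
        (LinearMap.codRestrict (LinearMap.range (S.cobL v))
          (P.subtype.comp (LinearMap.ker _).subtype) ?_) ⟨?_, ?_⟩)
      · intro x
        have hx0 : x.1.1.1 = 0 := LinearMap.mem_ker.mp x.2
        obtain ⟨w, hw⟩ := ram_zero h hv h1 (hP _ x.1.2) hx0
        exact ⟨w, hw.symm⟩
      · intro x y hxy
        have hxy' := congrArg Subtype.val hxy
        exact Subtype.ext (Subtype.ext hxy')
      · rintro ⟨_, w, rfl⟩
        refine ⟨⟨⟨S.cob v w, hcob w⟩, ?_⟩, rfl⟩
        rw [LinearMap.mem_ker]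
        change S.ac (S.sg v) w - w = 0
        rw [ac_sg h hv]
        exact sub_self w
    have e3 : _ + fx F = d := finrank_cobL h hv
    omega
  -- the first components of the Kummer group
  have hfst : ∀ y : V1, F y = y → ∃ x ∈ S.Wl chi v, x.1 = y := by
    have e1 := hker (AddSubgroup.toZModSubmodule 2 (S.W chi v)) (fun x hx => hx)
      (fun w => cob_mem_Wl h chi v w)
    have e2 : finrank (ZMod 2) (AddSubgroup.toZModSubmodule 2 (S.W chi v)) = d := by
      have e3 : Nat.card (S.W chi v) = Nat.card V1 := card_W h hchi v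
      have e4 : 2 ^ finrank (ZMod 2) (AddSubgroup.toZModSubmodule 2 (S.W chi v)) = 2 ^ d := by
        rw [← LP_card, hd, ← LP_card (E := V1)]
        exact e3
      exact Nat.pow_right_injective le_rfl e4
    have e3 : (AddSubgroup.toZModSubmodule 2 (S.W chi v)).map (LinearMap.fst (ZMod 2) V1 V1) =
        Fixd F := by
      refine Submodule.eq_of_le_of_finrank_eq ?_ ?_
      · rintro _ ⟨x, hx, rfl⟩
        exact cp_fix h hv (Wl_sub_CP h hchi v hx)
      · change _ = fx F
        have e4 : _ + fx F = d := finrank_cobL h hv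
        rw [e2] at e1
        omega
    intro y hy
    have e5 : y ∈ (AddSubgroup.toZModSubmodule 2 (S.W chi v)).map
        (LinearMap.fst (ZMod 2) V1 V1) := by
      rw [e3]
      exact hy
    obtain ⟨x, hx, hxy⟩ := e5
    exact ⟨x, hx, hxy⟩
  -- the image of the intersection
  have himg : (S.WI chi chi' v).map (LinearMap.fst (ZMod 2) V1 V1) =
      (Fixd (F * F)).map ((F : V1 →ₗ[ZMod 2] V1) - LinearMap.id) := by
    ext y
    constructor
    · rintro ⟨x, ⟨hx1, hx2⟩, rfl⟩
      have hfix : F x.1 = x.1 := cp_fix h hv (Wl_sub_CP h hchi v hx1)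
      obtain ⟨Q, hQ, e1, e2⟩ := hx1
      obtain ⟨Q', hQ', e1', e2'⟩ := hx2
      rw [dl_sg_one h hv h1] at e1
      rw [dl_sg_one h hv h1'] at e1'
      have e3 : (2 : ℕ) • (Q' - Q) = 0 := by
        rw [smul_sub, sub_eq_zero, ← neg_inj, e1, e1']
      obtain ⟨w, hw⟩ := h.iota_range _ e3
      have e4 : Q' = Q + S.iota w := by rw [hw]; abel
      rw [e4, dl_add, LP_dl hne, dl_iota h, e2] at e2'
      have e5 : S.iota (F w - w) = S.iota x.1 := by
        have e6 : -((2 : ℕ) • Q) = S.iota x.1 := e1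
        have e7 : -S.iota x.2 + S.iota x.1 + S.iota (F w - w) = S.iota x.2 := by
          rw [← e6, ← sub_eq_add_neg]
          exact e2'
        rw [neg_iota, ← map_add, ← map_add] at e7
        have e8 := h.iota_inj e7
        have e9 : F w - w = x.1 := by
          have e10 : x.1 + (F w - w) = 0 := by
            have e11 : x.2 + (x.1 + (F w - w)) = x.2 + 0 := by rw [← add_assoc, add_zero]; exact e8
            exact add_left_cancel e11
          rw [← V1_neg x.1]
          exact (neg_eq_of_add_eq_zero_right e10).symm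
        rw [e9]
      have e6 : F w - w = x.1 := h.iota_inj e5
      refine ⟨w, ?_, e6⟩
      change F (F w) = w
      have e7 : F (F w - w) = F w - w := by rw [e6, hfix]
      rw [map_sub, sub_eq_iff_eq_add] at e7
      rw [e7]
      have e8 : F w - w + F w = (F w + F w) - w := by abel
      rw [e8, V1_add_self, zero_sub, V1_neg]
    · rintro ⟨w, hw, rfl⟩
      have hw2 : F (F w) = w := hw
      change F w - w ∈ _
      have hfix : F (F w - w) = F w - w := by
        rw [map_sub, hw2, ← V1_neg (w - F w), neg_sub]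
      obtain ⟨x, hx, hx1⟩ := hfst _ hfix
      refine ⟨x, ⟨hx, ?_⟩, hx1⟩
      obtain ⟨Q, hQ, e1, e2⟩ := hx
      rw [dl_sg_one h hv h1] at e1
      have e2Q : (2 : ℕ) • Q = S.iota x.1 := by
        rw [← neg_iota S x.1, ← e1, neg_neg]
      have hall : ∀ s ∈ S.D v, S.ac s x.1 = x.1 := by
        intro s hs
        have e3 := hQ s hs
        rw [← dl_nsmul, e2Q, dl_iota h] at e3
        exact sub_eq_zero.mp ((iota_eq_zero h).mp e3)
      have e2Q' : (2 : ℕ) • (Q + S.iota w) = S.iota x.1 := by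
        rw [smul_add, two_iota, add_zero, e2Q]
      refine ⟨Q + S.iota w, fun s hs => ?_, ?_, ?_⟩
      · rw [← dl_nsmul, e2Q', dl_iota h, hall s hs, sub_self, map_zero]
      · rw [dl_sg_one h hv h1', e2Q', neg_iota]
      · rw [dl_add, LP_dl hne, dl_iota h, e2, e2Q]
        change -S.iota x.2 - S.iota x.1 + S.iota (F w - w) = S.iota x.2
        rw [← hx1, neg_iota, sub_add_cancel]
  have e1 := hker (S.WI chi chi' v) (fun x hx => hx.1)
    (fun w => ⟨cob_mem_Wl h chi v w, cob_mem_Wl h chi' v w⟩)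
  rw [himg] at e1
  have e2 : finrank (ZMod 2) ((Fixd (F * F)).map ((F : V1 →ₗ[ZMod 2] V1) - LinearMap.id)) +
      fx F = fx (F * F) := by
    have e3 := LinearMap.finrank_range_add_finrank_ker
      (((F : V1 →ₗ[ZMod 2] V1) - LinearMap.id).comp (Fixd (F * F)).subtype)
    rw [LinearMap.range_comp, Submodule.range_subtype] at e3
    have e4 : finrank (ZMod 2) (LinearMap.ker
        (((F : V1 →ₗ[ZMod 2] V1) - LinearMap.id).comp (Fixd (F * F)).subtype)) = fx F := by
      refine LinearEquiv.finrank_eq (LinearEquiv.ofBijective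
        (LinearMap.codRestrict (Fixd F)
          ((Fixd (F * F)).subtype.comp (LinearMap.ker _).subtype) ?_) ⟨?_, ?_⟩)
      · intro x
        have hx : F x.1.1 - x.1.1 = 0 := LinearMap.mem_ker.mp x.2
        exact sub_eq_zero.mp hx
      · intro x y hxy
        have hxy' := congrArg Subtype.val hxy
        exact Subtype.ext (Subtype.ext hxy')
      · rintro ⟨y, hy⟩
        have hy' : F y = y := hy
        refine ⟨⟨⟨y, ?_⟩, ?_⟩, rfl⟩
        · change F (F y) = y
          rw [hy', hy']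
        · rw [LinearMap.mem_ker]
          exact sub_eq_zero.mpr hy'
    rw [e4] at e3
    exact e3
  have e3 : Even (fx (F * F)) := by
    have := dk_sq h hqi (S.phi v)
    rw [dk, map_mul, ZMod.natCast_eq_zero_iff_even] at this
    exact this
  have e4 := even_finrank_V1 h
  have e5 : _ + fx F = d := finrank_cobL h hv
  rw [← hd] at e4
  rw [wv, ZMod.natCast_eq_zero_iff_even, ← e1]
  rw [Nat.even_iff] at e3 e4 ⊢
  omega

/-! ### The parity relation -/

/-- `#Sel1` is a power of 4 iff the dimension is even. -/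
theorem dS_eq_zero_iff (h : S.Ok) {chi : G → ZMod 2} (hfin : Finite (S.Sel1 h chi)) :
    S.dS h chi = 0 ↔ ∃ r : ℕ, Nat.card (S.Sel1 h chi) = 4 ^ r := by
  rw [dS, ZMod.natCast_eq_zero_iff_even, ← even_Fs_twS h hfin]
  have h1 : (twS S h chi).Fs = ⊤ := rfl
  rw [h1, finrank_top]

theorem dk_sg (h : S.Ok) {v : Pl} (hv : v ∈ S.good) : S.dk (S.sg v) = 0 :=
  dk_of_one h (ac_sg h hv)

theorem sq2_good (h : S.Ok) {v : Pl} (hv : v ∈ S.good) (d : G → ZMod 2) :
    S.sq2 v S.dk d = S.dk (S.phi v) * d (S.sg v) := by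
  rw [sq2, dk_sg h hv]
  ring

/-- The parity of the 2-Selmer rank: the contribution of the good places is the reciprocal of the
symbols with the Dickson character at the bad ones. -/
theorem par_rel_add (h : S.Ok) {qv : Pl → V1 × V1 → ZMod 2} (hq : S.QOk qv)
    {qq : V1 → ZMod 2} (hqi : QInv S qq) (hrec : S.RecQ) {chi chi' : G → ZMod 2}
    (hchi : S.HomG chi) (hchi' : S.HomG chi') (hfin : Finite (S.Sel1 h chi))
    (hfin' : Finite (S.Sel1 h chi')) (T : Finset Pl) (hT : ∀ v, v ∉ T → v ∈ S.good) :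
    S.dS h chi + S.dS h chi' = ∑ v ∈ T, (S.wv chi chi' v + S.sq2 v S.dk (chi + chi')) := by
  classical
  have hf1 := h.fin1
  have hm1 : Module.Finite (ZMod 2) V1 := Module.Finite.of_finite
  have hsum : S.HomG (chi + chi') := hchi.add h hchi'
  have hRfin := hsum.fin h
  set R : Finset Pl := hRfin.toFinset with hRdef
  have hR : ∀ v, v ∈ R ↔ (chi + chi') (S.sg v) ≠ 0 := fun v => hRfin.mem_toFinset
  have hRn : ∀ v, v ∉ R → chi (S.sg v) = chi' (S.sg v) := fun v hv => by
    by_contra hcon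
    refine hv ((hR v).mpr fun h0 => hcon ?_)
    exact CharTwo.add_eq_zero.mp h0
  -- the places outside
  have hout : ∀ v, v ∉ T ∪ R → S.wv chi chi' v = 0 := by
    intro v hv
    rw [Finset.mem_union, not_or] at hv
    have hg := hT v hv.1
    have he := hRn v hv.2
    by_cases hp : chi (S.phi v) = chi' (S.phi v)
    · exact wv_of_eq h hchi (W_eq_of_agree h (agree_D h hchi hchi' he hp))
    · rcases LP_z01 (chi (S.sg v)) with h0 | h0
      · have h0' : chi' (S.sg v) = 0 := by rw [← he, h0]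
        exact wv_of_eq h hchi (by rw [W_good h hchi hg h0, W_good h hchi' hg h0'])
      · exact wv_two h hqi hchi hg h0 (by rw [← he, h0]) hp
  have h1 := parity_rel h hq hchi hchi' (T ∪ R) fun v hv _ => (isSquare_WI h chi chi' v).mpr
    (hout v hv)
  have hmS : Module.Finite (ZMod 2) (S.SelM h chi) := by
    have : Finite (S.SelM h chi) := hfin
    exact Module.Finite.of_finite
  have hmS' : Module.Finite (ZMod 2) (S.SelM h chi') := by
    have : Finite (S.SelM h chi') := hfin'
    exact Module.Finite.of_finite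
  have c1 : Nat.card (S.Sel1 h chi) = 2 ^ finrank (ZMod 2) (S.SelM h chi) :=
    LP_card (E := S.SelM h chi)
  have c2 : Nat.card (S.Sel1 h chi') = 2 ^ finrank (ZMod 2) (S.SelM h chi') :=
    LP_card (E := S.SelM h chi')
  simp only [c1, c2, card_WI h] at h1
  rw [Finset.prod_pow_eq_pow_sum, ← pow_add, ← pow_add, isSquare_two_pow,
    ← ZMod.natCast_eq_zero_iff_even] at h1
  push_cast at h1
  have h2 : S.dS h chi + S.dS h chi' + ∑ v ∈ T ∪ R, S.wv chi chi' v = 0 := h1
  -- reciprocity
  have h3 := hrec S.dk (chi + chi') (dk_hom h hqi) hsum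
  rw [finsum_eq_sum_of_support_subset _ (s := T ∪ R) (by
    intro v hv
    by_contra hcon
    refine hv ?_
    rw [Finset.mem_coe, Finset.mem_union, not_or] at hcon
    change S.sq2 v S.dk (chi + chi') = 0
    rw [sq2_good h (hT v hcon.1)]
    have h4 : (chi + chi') (S.sg v) = 0 := by
      rw [Pi.add_apply, hRn v hcon.2]
      exact CharTwo.add_self_eq_zero _
    rw [h4, mul_zero])] at h3
  have hsplit : ∀ f : Pl → ZMod 2, ∑ v ∈ T ∪ R, f v = ∑ v ∈ T, f v + ∑ v ∈ R \ T, f v := by
    intro f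
    rw [← Finset.sum_union (Finset.disjoint_sdiff), Finset.union_sdiff_self_eq_union]
  have h5 : ∑ v ∈ R \ T, S.wv chi chi' v = ∑ v ∈ R \ T, S.sq2 v S.dk (chi + chi') := by
    refine Finset.sum_congr rfl fun v hv => ?_
    rw [Finset.mem_sdiff] at hv
    have hg := hT v hv.2
    rw [sq2_good h hg]
    have hne := (hR v).mp hv.1
    rcases LP_z01 (chi (S.sg v)) with h0 | h0 <;> rcases LP_z01 (chi' (S.sg v)) with h0' | h0'
    · exact absurd (by rw [Pi.add_apply, h0, h0', add_zero]) hne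
    · rw [wv_one h hchi hg h0 h0', Pi.add_apply, h0, h0', zero_add, mul_one]
    · rw [wv_comm, wv_one h hchi' hg h0' h0, Pi.add_apply, h0, h0', add_zero, mul_one]
    · exact absurd (by rw [Pi.add_apply, h0, h0']; decide) hne
  rw [hsplit] at h2 h3
  rw [h5] at h2
  rw [Finset.sum_add_distrib]
  have key : ∀ a b c d : ZMod 2, a + (b + c) = 0 → d + c = 0 → a = b + d := by decide
  exact key _ _ _ _ h2 h3

/-- Twists which agree at the bad places have the same parity. -/
theorem dS_eq_of_agree (h : S.Ok) {qv : Pl → V1 × V1 → ZMod 2} (hq : S.QOk qv)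
    {qq : V1 → ZMod 2} (hqi : QInv S qq) (hrec : S.RecQ) {chi chi' : G → ZMod 2}
    (hchi : S.HomG chi) (hchi' : S.HomG chi') (hfin : Finite (S.Sel1 h chi))
    (hfin' : Finite (S.Sel1 h chi')) (T : Finset Pl) (hT : ∀ v, v ∉ T → v ∈ S.good)
    (hag : ∀ v ∈ T, ∀ s ∈ S.D v, chi s = chi' s) : S.dS h chi = S.dS h chi' := by
  have h1 := par_rel_add h hq hqi hrec hchi hchi' hfin hfin' T hT
  rw [Finset.sum_eq_zero] at h1
  · exact CharTwo.add_eq_zero.mp h1
  · intro v hv
    rw [wv_of_eq h hchi (W_eq_of_agree h (hag v hv)), sq2, Pi.add_apply, Pi.add_apply,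
      hag v hv _ (h.sg_mem v), hag v hv _ (h.phi_mem v), CharTwo.add_self_eq_zero,
      CharTwo.add_self_eq_zero]
    ring

/-- Twists which agree at the bad places except at `v0`. -/
theorem dS_flip (h : S.Ok) {qv : Pl → V1 × V1 → ZMod 2} (hq : S.QOk qv)
    {qq : V1 → ZMod 2} (hqi : QInv S qq) (hrec : S.RecQ) {chi chi' : G → ZMod 2}
    (hchi : S.HomG chi) (hchi' : S.HomG chi') (hfin : Finite (S.Sel1 h chi))
    (hfin' : Finite (S.Sel1 h chi')) (T : Finset Pl) (hT : ∀ v, v ∉ T → v ∈ S.good)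
    {v0 : Pl} (hv0 : v0 ∈ T) (hag : ∀ v ∈ T, v ≠ v0 → ∀ s ∈ S.D v, chi s = chi' s) :
    S.dS h chi + S.dS h chi' = S.wv chi chi' v0 + S.sq2 v0 S.dk (chi + chi') := by
  rw [par_rel_add h hq hqi hrec hchi hchi' hfin hfin' T hT, Finset.sum_eq_single v0]
  · intro v hv hne
    rw [wv_of_eq h hchi (W_eq_of_agree h (hag v hv hne)), sq2, Pi.add_apply, Pi.add_apply,
      hag v hv hne _ (h.sg_mem v), hag v hv hne _ (h.phi_mem v), CharTwo.add_self_eq_zero,
      CharTwo.add_self_eq_zero]
    ring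
  · exact fun hn => absurd hv0 hn

/-- The symbol at a place where both characters are unramified and differ at `phi`. -/
theorem sq2_unr {v : Pl} {chi chi' : G → ZMod 2} (h0 : chi (S.sg v) = 0)
    (h0' : chi' (S.sg v) = 0) (hne : chi (S.phi v) ≠ chi' (S.phi v)) :
    S.sq2 v S.dk (chi + chi') = S.dk (S.sg v) := by
  rw [sq2, Pi.add_apply, Pi.add_apply, h0, h0']
  have h1 : chi (S.phi v) + chi' (S.phi v) = 1 := by
    have key : ∀ x y : ZMod 2, x ≠ y → x + y = 1 := by decide
    exact key _ _ hne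
  rw [h1]
  ring

end Sys

end Pool.Agent.SmN
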