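import Pool.Agent.Lib.SmN.G.Kum
import Pool.Agent.Lib.SmN.P.LocPar

/-!
# SMITH with action on `V1`, block P, module MultN: the places where the inertia acts on `V1` by an
involution

`Uv S v`: the pairs `cob z + (0, u)`, `sg u = u` (the classes which are trivial on the inertia).
`W_eq_Uv`: if `sg v` acts on `V1` as an involution and the first components of the elements of the
Kummer group `W chi v` are values `sg z - z`, then `W chi v = Uv S v`.
`flip_odd`: if `sg v` acts as the transvection `z ↦ z + e z w0 w0`, then for all unramified `chi`,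
`chi'` with first components in `{0, w0}` the Kummer groups agree and
`wv chi chi' v + dk (sg v) = 1`.
-/

set_option autoImplicit false

open Module

namespace Pool.Agent.SmN

namespace Sys

variable {G V V1 Pl : Type*} [Group G] [AddCommGroup V] [DistribMulAction G V]
  [AddCommGroup V1] [Module (ZMod 2) V1]

/-- The pairs of values of the cocycles on `D v` which are trivial on the inertia group. -/
def Uv (S : Sys G V V1 Pl) (v : Pl) : AddSubgroup (V1 × V1) where
  carrier := {x | ∃ z, x.1 = S.ac (S.sg v) z - z ∧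
    S.ac (S.sg v) (x.2 - (S.ac (S.phi v) z - z)) = x.2 - (S.ac (S.phi v) z - z)}
  zero_mem' := ⟨0, by simp, by simp⟩
  add_mem' := by
    rintro x y ⟨z, h1, h2⟩ ⟨z', h3, h4⟩
    refine ⟨z + z', ?_, ?_⟩
    · rw [Prod.fst_add, h1, h3, map_add]
      abel
    · have e : (x + y).2 - (S.ac (S.phi v) (z + z') - (z + z')) =
          (x.2 - (S.ac (S.phi v) z - z)) + (y.2 - (S.ac (S.phi v) z' - z')) := by
        rw [Prod.snd_add, map_add]
        abel
      rw [e, map_add, h2, h4]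
  neg_mem' := by
    rintro x ⟨z, h1, h2⟩
    refine ⟨-z, ?_, ?_⟩
    · rw [Prod.fst_neg, h1, map_neg]
      abel
    · have e : (-x).2 - (S.ac (S.phi v) (-z) - -z) = -(x.2 - (S.ac (S.phi v) z - z)) := by
        rw [Prod.snd_neg, map_neg]
        abel
      rw [e, map_neg, h2]

variable {S : Sys G V V1 Pl}

/-- The group generated by an involution: odd powers. -/
theorem odd_pow_apply {A : V1 ≃ₗ[ZMod 2] V1} (hA : ∀ z, A (A z) = z) {q : ℕ} (hq : Odd q) (z : V1) :
    (A ^ q) z = A z := by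
  obtain ⟨m, rfl⟩ := hq
  have h2 : A ^ 2 = 1 := by
    ext z
    rw [pow_two]
    exact hA z
  rw [pow_succ, pow_mul, h2, one_pow, one_mul]

/-- If `sg v` acts as an involution it commutes with the Frobenius. -/
theorem ac_comm (h : S.Ok) (v : Pl) (hA : ∀ z, S.ac (S.sg v) (S.ac (S.sg v) z) = z) (z : V1) :
    S.ac (S.sg v) (S.ac (S.phi v) z) = S.ac (S.phi v) (S.ac (S.sg v) z) := by
  obtain ⟨N, hN, hN1⟩ := ac_fin h
  obtain ⟨q, hq, hq1⟩ := h.frob v N hN
  have h1 := hN1 _ hq1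
  rw [map_mul, map_inv, inv_mul_eq_one, map_pow, map_mul, map_mul, map_inv] at h1
  have h2 : S.ac (S.sg v) ^ q * S.ac (S.phi v) = S.ac (S.phi v) * S.ac (S.sg v) := by
    rw [h1, inv_mul_cancel_right]
  have h3 := congrArg (fun f : V1 ≃ₗ[ZMod 2] V1 => f z) h2
  change (S.ac (S.sg v) ^ q) (S.ac (S.phi v) z) = S.ac (S.phi v) (S.ac (S.sg v) z) at h3
  rw [odd_pow_apply hA hq] at h3
  exact h3

/-- The elements fixed by `sg v`. -/
def Fx (S : Sys G V V1 Pl) (v : Pl) : AddSubgroup V1 where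
  carrier := {u | S.ac (S.sg v) u = u}
  zero_mem' := map_zero _
  add_mem' := by
    intro x y hx hy
    change S.ac (S.sg v) (x + y) = x + y
    rw [map_add]
    exact congrArg₂ (· + ·) hx hy
  neg_mem' := by
    intro x hx
    change S.ac (S.sg v) (-x) = -x
    rw [map_neg]
    exact congrArg Neg.neg hx

theorem mem_Fx {v : Pl} {u : V1} : u ∈ S.Fx v ↔ S.ac (S.sg v) u = u := Iff.rfl

/-- `(z, u) ↦ cob z + (0, u)`. -/
def cobU (S : Sys G V V1 Pl) (v : Pl) : V1 × S.Fx v →+ V1 × V1 where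
  toFun x := (S.ac (S.sg v) x.1 - x.1, S.ac (S.phi v) x.1 - x.1 + x.2.1)
  map_zero' := by simp
  map_add' x y := by
    refine Prod.ext ?_ ?_
    · simp only [Prod.fst_add, map_add]
      abel
    · simp only [Prod.fst_add, Prod.snd_add, map_add, AddSubgroup.coe_add]
      abel

theorem cobU_range (v : Pl) : (S.cobU v).range = S.Uv v := by
  ext x
  rw [AddMonoidHom.mem_range]
  constructor
  · rintro ⟨⟨z, u⟩, rfl⟩
    refine ⟨z, rfl, ?_⟩
    change S.ac (S.sg v) (S.ac (S.phi v) z - z + u.1 - (S.ac (S.phi v) z - z)) =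
      S.ac (S.phi v) z - z + u.1 - (S.ac (S.phi v) z - z)
    rw [add_sub_cancel_left]
    exact u.2
  · rintro ⟨z, h1, h2⟩
    refine ⟨(z, ⟨_, h2⟩), ?_⟩
    refine Prod.ext h1.symm ?_
    change S.ac (S.phi v) z - z + (x.2 - (S.ac (S.phi v) z - z)) = x.2
    abel

theorem card_Uv (h : S.Ok) (v : Pl) (hA : ∀ z, S.ac (S.sg v) (S.ac (S.sg v) z) = z) :
    Nat.card (S.Uv v) = Nat.card V1 := by
  have hfin : Finite V1 := h.fin1
  have e1 := card_hom (S.cobU v)
  rw [cobU_range, Nat.card_prod] at e1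
  have e2 : Nat.card (S.cobU v).ker = Nat.card (S.Fx v) := by
    refine Nat.card_congr ⟨fun x => ⟨x.1.1, ?_⟩, fun z => ⟨(z.1, ⟨-(S.ac (S.phi v) z.1 - z.1), ?_⟩),
      ?_⟩, fun x => ?_, fun z => rfl⟩
    · have h1 := congrArg Prod.fst (AddMonoidHom.mem_ker.mp x.2)
      exact sub_eq_zero.mp h1
    · change S.ac (S.sg v) (-(S.ac (S.phi v) z.1 - z.1)) = -(S.ac (S.phi v) z.1 - z.1)
      rw [map_neg, map_sub, ac_comm h v hA, mem_Fx.mp z.2]
    · rw [AddMonoidHom.mem_ker]
      refine Prod.ext ?_ ?_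
      · exact sub_eq_zero.mpr z.2
      · change S.ac (S.phi v) z.1 - z.1 + -(S.ac (S.phi v) z.1 - z.1) = 0
        exact add_neg_cancel _
    · refine Subtype.ext (Prod.ext rfl (Subtype.ext ?_))
      have h1 := congrArg Prod.snd (AddMonoidHom.mem_ker.mp x.2)
      exact (eq_neg_of_add_eq_zero_right h1).symm
  rw [e2] at e1
  have hpos : 0 < Nat.card (S.Fx v) := Nat.card_pos
  exact Nat.eq_of_mul_eq_mul_left hpos (by rw [e1, mul_comm])

/-- A cocycle on `D v` which vanishes at `sg v`. -/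
theorem fix_of_cp (h : S.Ok) {v : Pl} (hA : ∀ z, S.ac (S.sg v) (S.ac (S.sg v) z) = z)
    {x : V1 × V1} (hx : x ∈ S.CP v) (h0 : x.1 = 0) : S.ac (S.sg v) x.2 = x.2 := by
  obtain ⟨c, ⟨N, hN, htf⟩, hc, rfl⟩ := hx
  change c (S.sg v) = 0 at h0
  have hsg := h.sg_mem v
  have hph := h.phi_mem v
  have hone : c 1 = 0 := by
    have := hc 1 (one_mem _) 1 (one_mem _)
    rw [one_mul, map_one] at this
    exact left_eq_add.mp this
  obtain ⟨N1, hN1, hN1'⟩ := ac_fin h
  obtain ⟨q, hq, hq1⟩ := h.frob v (N ⊓ N1) (h.inf_mem N hN N1 hN1)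
  have hpow : ∀ n : ℕ, c (S.sg v ^ n) = 0 := by
    intro n
    induction n with
    | zero => rw [pow_zero, hone]
    | succ n ih => rw [pow_succ', hc _ hsg _ ((S.D v).pow_mem hsg n), ih, h0, map_zero, add_zero]
  have hconj : (S.phi v)⁻¹ * ((S.sg v ^ q)⁻¹ * (S.phi v * S.sg v * (S.phi v)⁻¹)) * S.phi v ∈ N := by
    have h1 := (h.normal N hN).conj_mem _ hq1.1 (S.phi v)⁻¹
    rwa [inv_inv] at h1
  have h2 := htf (S.sg v ^ q * S.phi v) ((S.D v).mul_mem ((S.D v).pow_mem hsg q) hph) _ hconj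
    ((S.D v).mul_mem ((S.D v).mul_mem ((S.D v).inv_mem hph) ((S.D v).mul_mem
      ((S.D v).inv_mem ((S.D v).pow_mem hsg q)) ((S.D v).mul_mem ((S.D v).mul_mem hph hsg)
      ((S.D v).inv_mem hph)))) hph)
  have e1 : S.sg v ^ q * S.phi v *
      ((S.phi v)⁻¹ * ((S.sg v ^ q)⁻¹ * (S.phi v * S.sg v * (S.phi v)⁻¹)) * S.phi v) =
      S.phi v * S.sg v := by group
  rw [e1, hc _ hph _ hsg, h0, map_zero, add_zero, hc _ ((S.D v).pow_mem hsg q) _ hph, hpow,
    zero_add, map_pow, odd_pow_apply hA hq] at h2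
  exact h2.symm

/-- **The Kummer group is the group of the classes which are trivial on the inertia.** -/
theorem W_eq_Uv (h : S.Ok) {chi : G → ZMod 2} (hchi : S.HomG chi) {v : Pl}
    (hA : ∀ z, S.ac (S.sg v) (S.ac (S.sg v) z) = z)
    (hW : ∀ x ∈ S.W chi v, ∃ z, x.1 = S.ac (S.sg v) z - z) : S.W chi v = S.Uv v := by
  have hfin : Finite V1 := h.fin1
  have hle : S.W chi v ≤ S.Uv v := by
    intro x hx
    obtain ⟨z, hz⟩ := hW x hx
    have h1 : x - S.cob v z ∈ S.W chi v := (S.W chi v).sub_mem hx (cob_mem_Wl h chi v z)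
    have h2 : (x - S.cob v z).1 = 0 := by
      change x.1 - (S.ac (S.sg v) z - z) = 0
      rw [hz, sub_self]
    exact ⟨z, hz, fix_of_cp h hA (Wl_sub_CP h hchi v h1) h2⟩
  apply SetLike.coe_injective
  refine Set.eq_of_subset_of_ncard_le hle ?_ (Set.toFinite _)
  rw [← Nat.card_coe_set_eq, ← Nat.card_coe_set_eq]
  have e1 : Nat.card (S.W chi v : Set (V1 × V1)) = Nat.card V1 := card_W h hchi v
  have e2 : Nat.card (S.Uv v : Set (V1 × V1)) = Nat.card V1 := card_Uv h v hA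
  rw [e1, e2]

/-- `sg v` acts on `V1` as the transvection with vector `w0`. -/
def Trv (S : Sys G V V1 Pl) (v : Pl) (w0 : V1) : Prop :=
  w0 ≠ 0 ∧ ∀ z, S.ac (S.sg v) z = z + S.e z w0 • w0

theorem Trv.invol (h : S.Ok) {v : Pl} {w0 : V1} (ht : S.Trv v w0) (z : V1) :
    S.ac (S.sg v) (S.ac (S.sg v) z) = z := by
  rw [ht.2 (S.ac (S.sg v) z), ht.2 z, map_add, LinearMap.add_apply, map_smul, LinearMap.smul_apply,
    h.e_alt, smul_zero, add_zero, add_assoc, ← add_smul, CharTwo.add_self_eq_zero, zero_smul,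
    add_zero]

theorem exists_e_one (h : S.Ok) {w0 : V1} (hw : w0 ≠ 0) : ∃ z, S.e z w0 = 1 := by
  by_contra hc
  push Not at hc
  apply hw
  refine h.e_nondeg w0 fun u => ?_
  rw [e_comm h.e_alt]
  have h1 : ∀ a : ZMod 2, a ≠ 1 → a = 0 := by decide
  exact h1 _ (hc u)

theorem Trv.exists (h : S.Ok) {v : Pl} {w0 : V1} (ht : S.Trv v w0) :
    ∃ z, w0 = S.ac (S.sg v) z - z := by
  obtain ⟨z, hz⟩ := exists_e_one h ht.1
  refine ⟨z, ?_⟩
  rw [ht.2, hz, one_smul, add_sub_cancel_left]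

theorem Trv.W_eq (h : S.Ok) {chi : G → ZMod 2} (hchi : S.HomG chi) {v : Pl} {w0 : V1}
    (ht : S.Trv v w0) (hW : ∀ x ∈ S.W chi v, x.1 = 0 ∨ x.1 = w0) : S.W chi v = S.Uv v := by
  refine W_eq_Uv h hchi (ht.invol h) fun x hx => ?_
  rcases hW x hx with h1 | h1
  · exact ⟨0, by rw [h1]; simp⟩
  · rw [h1]
    exact ht.exists h

/-- `2 * #(V1^sg) = #V1`. -/
theorem Trv.card_Fixd (h : S.Ok) {v : Pl} {w0 : V1} (ht : S.Trv v w0) :
    2 * Nat.card (Fixd (S.ac (S.sg v))) = Nat.card V1 := by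
  let f : V1 →+ ZMod 2 := ((S.e).flip w0).toAddMonoidHom
  have hf : ∀ u, f u = S.e u w0 := fun u => rfl
  have hsurj : Function.Surjective f := by
    obtain ⟨u, hu⟩ := exists_e_one h ht.1
    intro a
    have h01 : ∀ a : ZMod 2, a = 0 ∨ a = 1 := by decide
    rcases h01 a with rfl | rfl
    · exact ⟨0, map_zero f⟩
    · exact ⟨u, hu⟩
  have h1 := card_hom f
  rw [AddMonoidHom.range_eq_top.mpr hsurj, AddSubgroup.card_top, Nat.card_zmod] at h1
  have h3 : Nat.card f.ker = Nat.card (Fixd (S.ac (S.sg v))) := by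
    refine Nat.card_congr (Equiv.subtypeEquivRight fun u => ?_)
    rw [AddMonoidHom.mem_ker, hf, mem_Fixd, ht.2]
    constructor
    · intro h4
      rw [h4, zero_smul, add_zero]
    · intro h4
      have h5 : S.e u w0 • w0 = 0 := by
        rwa [add_eq_left] at h4
      exact (smul_eq_zero.mp h5).resolve_right ht.1
  rw [← h1, h3, mul_comm]

private theorem MN_card {E : Type*} [AddCommGroup E] [Module (ZMod 2) E]
    [Module.Finite (ZMod 2) E] : Nat.card E = 2 ^ finrank (ZMod 2) E := by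
  rw [Module.natCard_eq_pow_finrank (K := ZMod 2), Nat.card_eq_fintype_card, ZMod.card]

/-- **The sign change at a node of odd thickness.** -/
theorem Trv.flip (h : S.Ok) {chi chi' : G → ZMod 2} (hchi : S.HomG chi) (hchi' : S.HomG chi')
    {v : Pl} {w0 : V1} (ht : S.Trv v w0) (hW : ∀ x ∈ S.W chi v, x.1 = 0 ∨ x.1 = w0)
    (hW' : ∀ x ∈ S.W chi' v, x.1 = 0 ∨ x.1 = w0) :
    S.wv chi chi' v + S.dk (S.sg v) = 1 := by
  have hfin : Finite V1 := h.fin1
  have hfin' : Module.Finite (ZMod 2) V1 := Module.Finite.of_finite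
  have e0 : S.W chi v = S.W chi' v := (ht.W_eq h hchi hW).trans (ht.W_eq h hchi' hW').symm
  have e1 : S.wv chi chi' v = (finrank (ZMod 2) V1 : ℕ) := by
    have h1 : 2 ^ finrank (ZMod 2) (S.WI chi chi' v) = 2 ^ finrank (ZMod 2) V1 := by
      rw [← MN_card, ← MN_card, ← card_W h hchi v]
      change Nat.card (S.W chi v ⊓ S.W chi' v : AddSubgroup (V1 × V1)) = _
      rw [← e0, inf_idem]
    rw [wv, Nat.pow_right_injective le_rfl h1]
  have e2 : finrank (ZMod 2) V1 = fx (S.ac (S.sg v)) + 1 := by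
    have h1 := ht.card_Fixd h
    rw [MN_card, MN_card, ← pow_succ'] at h1
    exact (Nat.pow_right_injective le_rfl h1).symm
  rw [e1, dk, e2]
  push_cast
  have key : ∀ x : ZMod 2, x + 1 + x = 1 := by decide
  exact key _

end Sys

end Pool.Agent.SmN
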