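import Pool.Agent.Lib.SmN.P.Half

/-!
# SMITH-U (SmN), block P, module Half2: the half / half theorem

`chebQ_of`: the hypothesis `ChebQ` from `CData.Cheb`.
`Fam n` = the twists `(chi0, D)`, `degS D = n`, which are unramified at `v0`.
`card_Fam`: `2 #Fam n = #XG * nDD n` if some character of `XG` is ramified at `v0`.
`half_half`: for a proportion `1/2 - ε` of `Fam n` the number of Selmer cocycles of level `i` is
`O (#V1 ^ i)` (corank 0), for a proportion `1/2 - ε` it is between `(2 #V1) ^ i` and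
`O ((2 #V1) ^ i)` (corank 1).
-/

set_option autoImplicit false

open Finset

namespace Pool.Agent.SmN.Half

open Pool.Agent.SmN.Ch Pool.Agent.Sm

variable {G V V1 Pl : Type} [Group G] [AddCommGroup V] [DistribMulAction G V]
  [AddCommGroup V1] [Module (ZMod 2) V1] {S : Sys G V V1 Pl} {T : Finset Pl} {X : PSys}

/-- Square root cancellation from Chebotarev. -/
theorem chebQ_of {cd : CData S X} (hc : cd.Ok) (hT : ∀ v, v ∉ T ↔ v ∈ Set.range cd.pl)
    {Geo : Subgroup G} {fr : G} {q a C : ℕ} (hch : cd.Cheb Geo fr q a C)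
    (hG : CData.GeoOk (S := S) Geo fr) (v0 : Pl) : ChebQ S T X cd.pl q v0 := by
  classical
  intro c hc0 hc1
  have hcm : ∀ s t, c (s * t) = c s + c t := hc0.1.2
  have hone : c 1 = 0 := chi_one hcm
  have hinv : ∀ s, c s⁻¹ = c s := by
    intro s
    have h1 := hcm s⁻¹ s
    rw [inv_mul_cancel, hone] at h1
    exact CharTwo.add_eq_zero.1 h1.symm
  let N : Subgroup G :=
    { carrier := {s | c s = 0}
      mul_mem' := by
        intro s t hs ht
        change c (s * t) = 0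
        rw [hcm, hs, ht, add_zero]
      one_mem' := hone
      inv_mem' := by
        intro s hs
        change c s⁻¹ = 0
        rw [hinv, hs] }
  have hmem : ∀ s, s ∈ N ↔ c s = 0 := fun s => Iff.rfl
  have hN : N.Normal := ⟨fun n hn g => by
    rw [hmem] at hn ⊢
    rw [hcm, hcm, hn, hinv, add_zero]
    exact CharTwo.add_self_eq_zero _⟩
  have hN0 : ∃ N0 ∈ S.NN, N0 ≤ N := by
    obtain ⟨N0, h1, h2⟩ := hc0.1.1
    refine ⟨N0, h1, fun n hn => ?_⟩
    have h3 := h2 1 n hn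
    rwa [one_mul, hone] at h3
  have hf : ∀ s, ∀ n ∈ N, sgR (c (s * n)) = sgR (c s) := by
    intro s n hn
    rw [hcm, (hmem n).1 hn, add_zero]
  have hfc : ∀ s t, sgR (c (t * s * t⁻¹)) = sgR (c s) := by
    intro s t
    rw [hcm, hcm, hinv]
    congr 1
    have h3 : ∀ x y : ZMod 2, x + y + x = y := by decide
    exact h3 _ _
  have hv0 : S.sg v0 ∉ N := fun h => by
    rw [hmem, hc1] at h
    exact one_ne_zero h
  have hne : (1 : G) ≠ S.sg v0 := fun h => hv0 (h ▸ N.one_mem)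
  have hTrep : ∀ g ∈ Geo, ∃! t, t ∈ ({1, S.sg v0} : Finset G) ∧ t⁻¹ * g ∈ N := by
    intro g _
    rcases z01 (c g) with h0 | h0
    · refine ⟨1, ⟨mem_insert_self _ _, by rw [inv_one, one_mul]; exact h0⟩, ?_⟩
      rintro t ⟨ht, htN⟩
      rcases mem_insert.1 ht with rfl | ht'
      · rfl
      · exfalso
        rw [mem_singleton.1 ht', hmem, hcm, hinv, hc1, h0] at htN
        exact absurd htN (by decide)
    · refine ⟨S.sg v0, ⟨mem_insert_of_mem (mem_singleton_self _), ?_⟩, ?_⟩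
      · rw [hmem, hcm, hinv, hc1, h0]
        decide
      · rintro t ⟨ht, htN⟩
        rcases mem_insert.1 ht with rfl | ht'
        · exfalso
          rw [inv_one, one_mul, hmem, h0] at htN
          exact absurd htN (by decide)
        · exact mem_singleton.1 ht'
  refine ⟨C * ((N.index : ℝ) * (((0 : ℕ) : ℝ) + 1)) ^ a, fun d E hd hE => ?_⟩
  have key := hch N hN hN0 (fun s => sgR (c s)) hf hfc (fun s => (sgR_abs _).le)
    {1, S.sg v0} (by
      intro t ht
      rcases mem_insert.1 ht with rfl | ht'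
      · exact Geo.one_mem
      · rw [mem_singleton.1 ht']
        exact hG.sg_mem v0) hTrep d 0 hd ∅ (by
      intro P hP
      exfalso
      refine hP ?_
      rw [hmem]
      exact hc0.2 _ ((hT _).2 ⟨P, rfl⟩)) (by simp [PSys.degS]) E (by
      intro P
      rw [hE P]
      simp)
  have hav : (∑ t ∈ ({1, S.sg v0} : Finset G), sgR (c (fr ^ d * t))) = 0 := by
    rw [sum_pair hne, mul_one, hcm, hc1, sgR_add, sgR_one]
    ring
  rw [hav, zero_div, mul_zero, sub_zero] at key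
  exact key

/-! ### The family -/

variable {pl : X.Pr → Pl} {ch : X.Pr → G → ZMod 2}

/-- The twists unramified at `v0` of degree `n`. -/
abbrev Fam (h : S.Ok) (T : Finset Pl) (X : PSys) (ch : X.Pr → G → ZMod 2) (v0 : Pl) (n : ℕ) :
    Type :=
  {x : XG S T h × Finset X.Pr // X.degS x.2 = n ∧ chX h ch x (S.sg v0) = 0}

open Classical in
/-- The same as a finset. -/
noncomputable def FamF (h : S.Ok) (T : Finset Pl) [Fintype (XG S T h)]
    (hfin : ∀ d, Finite (X.Of d)) (ch : X.Pr → G → ZMod 2) (v0 : Pl) (n : ℕ) :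
    Finset (XG S T h × Finset X.Pr) :=
  (univ ×ˢ DDn X hfin n).filter fun x => chX h ch x (S.sg v0) = 0

theorem mem_FamF {h : S.Ok} [Fintype (XG S T h)] {hfin : ∀ d, Finite (X.Of d)} {v0 : Pl} {n : ℕ}
    {x : XG S T h × Finset X.Pr} : x ∈ FamF h T hfin ch v0 n ↔
      X.degS x.2 = n ∧ chX h ch x (S.sg v0) = 0 := by
  classical
  rw [FamF, mem_filter, mem_product, mem_DDn]
  simp

open Classical in
theorem card_sub (h : S.Ok) [Fintype (XG S T h)] (hfin : ∀ d, Finite (X.Of d)) (v0 : Pl) (n : ℕ)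
    (p : XG S T h × Finset X.Pr → Prop) :
    Nat.card {x : Fam h T X ch v0 n // p x.1} = ((FamF h T hfin ch v0 n).filter p).card := by
  rw [← Nat.card_eq_finsetCard]
  refine Nat.card_congr ⟨fun x => ⟨x.1.1, mem_filter.2 ⟨mem_FamF.2 x.1.2, x.2⟩⟩,
    fun x => ⟨⟨x.1, mem_FamF.1 (mem_filter.1 x.2).1⟩, (mem_filter.1 x.2).2⟩, fun _ => rfl,
    fun _ => rfl⟩

theorem card_FamF (h : S.Ok) [Fintype (XG S T h)] (hfin : ∀ d, Finite (X.Of d)) (v0 : Pl)
    (n : ℕ) : Nat.card (Fam h T X ch v0 n) = (FamF h T hfin ch v0 n).card := by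
  rw [← Nat.card_eq_finsetCard]
  exact Nat.card_congr ⟨fun x => ⟨x.1, mem_FamF.2 x.2⟩, fun x => ⟨x.1, mem_FamF.1 x.2⟩,
    fun _ => rfl, fun _ => rfl⟩

theorem nDD_eq (hfin : ∀ d, Finite (X.Of d)) (n : ℕ) : X.nDD n = (DDn X hfin n).card := by
  rw [PSys.nDD, ← Nat.card_eq_finsetCard]
  exact Nat.card_congr ⟨fun D => ⟨D.1, mem_DDn.2 D.2⟩, fun D => ⟨D.1, mem_DDn.1 D.2⟩,
    fun _ => rfl, fun _ => rfl⟩

/-- If some character unramified outside `T` is ramified at `v0`, exactly half of the twists are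
unramified at `v0`. -/
theorem card_Fam (h : S.Ok) [Fintype (XG S T h)] (hfin : ∀ d, Finite (X.Of d)) {v0 : Pl}
    (hram : ∃ c ∈ XG S T h, c (S.sg v0) = 1) (n : ℕ) :
    2 * Nat.card (Fam h T X ch v0 n) = Nat.card (XG S T h) * X.nDD n := by
  classical
  obtain ⟨c, hc, hc1⟩ := hram
  rw [card_FamF h hfin, nDD_eq hfin, Nat.card_eq_fintype_card, ← card_univ, ← card_product]
  have h1 : ((univ ×ˢ DDn X hfin n).filter
      fun x : XG S T h × Finset X.Pr => ¬ chX h ch x (S.sg v0) = 0).card =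
      (FamF h T hfin ch v0 n).card := by
    refine card_bij' (fun x _ => (x.1 + ⟨c, hc⟩, x.2)) (fun x _ => (x.1 + ⟨c, hc⟩, x.2)) ?_ ?_ ?_ ?_
    · intro x hx
      rw [mem_filter, mem_product, mem_DDn] at hx
      rw [mem_FamF]
      refine ⟨hx.1.2, ?_⟩
      have h2 := (z01 _).resolve_left hx.2
      change x.1.1 (S.sg v0) + c (S.sg v0) + chS ch x.2 (S.sg v0) = 0
      have h3 : x.1.1 (S.sg v0) + chS ch x.2 (S.sg v0) = 1 := h2
      rw [hc1]
      have key : ∀ a b : ZMod 2, a + b = 1 → a + 1 + b = 0 := by decide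
      exact key _ _ h3
    · intro x hx
      rw [mem_FamF] at hx
      rw [mem_filter, mem_product, mem_DDn]
      refine ⟨⟨mem_univ _, hx.1⟩, ?_⟩
      change ¬ (x.1.1 (S.sg v0) + c (S.sg v0) + chS ch x.2 (S.sg v0) = 0)
      have h3 : x.1.1 (S.sg v0) + chS ch x.2 (S.sg v0) = 0 := hx.2
      rw [hc1]
      have key : ∀ a b : ZMod 2, a + b = 0 → ¬ (a + 1 + b = 0) := by decide
      exact key _ _ h3
    · intro x _
      refine Prod.ext ?_ rfl
      change x.1 + ⟨c, hc⟩ + ⟨c, hc⟩ = x.1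
      rw [add_assoc]
      have h4 : (⟨c, hc⟩ : XG S T h) + ⟨c, hc⟩ = 0 := Subtype.ext (ZModModule.add_self c)
      rw [h4, add_zero]
    · intro x _
      refine Prod.ext ?_ rfl
      change x.1 + ⟨c, hc⟩ + ⟨c, hc⟩ = x.1
      rw [add_assoc]
      have h4 : (⟨c, hc⟩ : XG S T h) + ⟨c, hc⟩ = 0 := Subtype.ext (ZModModule.add_self c)
      rw [h4, add_zero]
  rw [← card_filter_add_card_filter_not (s := univ ×ˢ DDn X hfin n)
    (fun x : XG S T h × Finset X.Pr => chX h ch x (S.sg v0) = 0), h1, two_mul]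
  rfl

/-- Corank 0. -/
def Ev (S : Sys G V V1 Pl) (h : S.Ok) (chi : G → ZMod 2) : Prop :=
  ∃ B : ℕ, ∀ i, Nat.card (S.SelZ h chi i) ≤ B * (Nat.card V1) ^ i

/-- Corank 1. -/
def Od (S : Sys G V V1 Pl) (h : S.Ok) (chi : G → ZMod 2) : Prop :=
  (∀ i, (2 * Nat.card V1) ^ i ≤ Nat.card (S.SelZ h chi i)) ∧
    ∃ B : ℕ, ∀ i, Nat.card (S.SelZ h chi i) ≤ B * (2 * Nat.card V1) ^ i

/-- The conclusion of block L for all `chi0`. -/
def LAll (S : Sys G V V1 Pl) (h : S.Ok) (T : Finset Pl) (X : PSys) (ch : X.Pr → G → ZMod 2) :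
    Prop :=
  ∀ chi0 ∈ XG S T h, ∀ ε : ℝ, 0 < ε → ∃ m₁ : ℕ, ∀ m ≥ m₁, ∃ n₀ : ℕ, ∀ n ≥ n₀,
    (Nat.card {D : Finset X.Pr // X.degS D = n ∧
      ¬ (Finite {Psi : G → V // S.IsSel (chi0 + chS ch D) m Psi} ∧
        Nat.card {Psi : G → V // S.IsSel (chi0 + chS ch D) m Psi} < (4 * Nat.card V1) ^ m)} : ℝ) ≤
      ε * X.nDD n

/-- **Half of the twists unramified at the flip place have corank 0, half have corank 1.** -/
theorem half_half [Nonempty Pl] (h : S.Ok) {qv : Pl → V1 × V1 → ZMod 2} {qq : V1 → ZMod 2}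
    (hP : ParOk S h qv qq) (halt : ∀ chi : G → ZMod 2, S.HomG chi → (Sys.twS S h chi).Altn)
    (hF : LagF S (T : Set Pl)) (hp : PrOk S T X pl ch)
    (hT : ∀ v, v ∉ T → v ∈ S.good) {q : ℕ} (hX : X.Ok q) {v0 : T}
    (hfl : Flip S v0.1) (hch : ChebQ S T X pl q v0.1)
    (hram : ∃ c ∈ XG S T h, c (S.sg v0.1) = 1) (hL : LAll S h T X ch)
    {ε : ℝ} (hε : 0 < ε) : ∃ n₀ : ℕ, ∀ n ≥ n₀,
      (1 / 2 - ε) * Nat.card (Fam h T X ch v0.1 n) ≤
        Nat.card {x : Fam h T X ch v0.1 n // Ev S h (chX h ch x.1)} ∧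
      (1 / 2 - ε) * Nat.card (Fam h T X ch v0.1 n) ≤
        Nat.card {x : Fam h T X ch v0.1 n // Od S h (chX h ch x.1)} := by
  classical
  have hfinX := fin_XG h hF
  have hft : Fintype (XG S T h) := Fintype.ofFinite _
  obtain ⟨k, hk⟩ : ∃ k : ℝ, k = (Nat.card (XG S T h) : ℝ) := ⟨_, rfl⟩
  have hk0 : 0 < k := by
    rw [hk]
    exact_mod_cast Nat.card_pos
  obtain ⟨c₁, hc₁, n₁, hn₁⟩ := hX.dd
  -- the parity sum
  obtain ⟨n₂, hn₂⟩ := half_sum h hP hF hp hT hX hfl hch (ε := ε * k * c₁ / 2) (by positivity)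
  -- the bad twists
  have hbad := fun chi0 : XG S T h => hL chi0.1 chi0.2 (ε / 4) (by positivity)
  choose M hM using hbad
  set m := (∑ chi0 : XG S T h, M chi0) + 1 with hm
  have hbad2 := fun chi0 : XG S T h => hM chi0 m
    ((single_le_sum (f := M) (fun _ _ => Nat.zero_le _) (mem_univ chi0)).trans (Nat.le_succ _))
  choose N hN using hbad2
  refine ⟨n₁ + n₂ + ∑ chi0 : XG S T h, N chi0, fun n hn => ?_⟩
  have hn1 : n₁ ≤ n := by omega
  have hn2 : n₂ ≤ n := by omega
  have hnN : ∀ chi0 : XG S T h, n ≥ N chi0 := fun chi0 => by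
    have := single_le_sum (f := N) (fun _ _ => Nat.zero_le _) (mem_univ chi0)
    omega
  have hDD := hn₁ n hn1
  have hsum := hn₂ n hn2
  set Fm := FamF h T hX.fin ch v0.1 n with hFm
  have hcF : (2 : ℝ) * (Fm.card : ℝ) = k * X.nDD n := by
    have h1 := card_Fam (ch := ch) h hX.fin hram n
    rw [card_FamF h hX.fin] at h1
    rw [hk]
    exact_mod_cast h1
  set E0 := Fm.filter fun x => S.dS h (chX h ch x) = 0 with hE0
  set E1 := Fm.filter fun x => ¬ S.dS h (chX h ch x) = 0 with hE1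
  have hadd : (E0.card : ℝ) + E1.card = Fm.card := by
    have := card_filter_add_card_filter_not (s := Fm) (fun x => S.dS h (chX h ch x) = 0)
    exact_mod_cast this
  have hdiff : ∑ x ∈ Fm, sgR (S.dS h (chX h ch x)) = (E0.card : ℝ) - E1.card := by
    rw [← sum_filter_add_sum_filter_not Fm (fun x => S.dS h (chX h ch x) = 0)]
    have h1 : ∑ x ∈ Fm.filter (fun x => S.dS h (chX h ch x) = 0), sgR (S.dS h (chX h ch x)) =
        (E0.card : ℝ) := by
      rw [card_eq_sum_ones, Nat.cast_sum]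
      refine sum_congr rfl fun x hx => ?_
      rw [(mem_filter.1 hx).2, sgR_zero, Nat.cast_one]
    have h2 : ∑ x ∈ Fm.filter (fun x => ¬ S.dS h (chX h ch x) = 0), sgR (S.dS h (chX h ch x)) =
        -(E1.card : ℝ) := by
      rw [card_eq_sum_ones, Nat.cast_sum, ← sum_neg_distrib]
      refine sum_congr rfl fun x hx => ?_
      rw [(z01 _).resolve_left (mem_filter.1 hx).2, sgR_one, Nat.cast_one]
    rw [h1, h2]
    ring
  have hsum' : |(E0.card : ℝ) - E1.card| ≤ ε * Fm.card := by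
    rw [← hdiff]
    refine hsum.trans ?_
    have h1 : ε * k * c₁ / 2 * (q : ℝ) ^ n = ε / 2 * k * (c₁ * (q : ℝ) ^ n) := by ring
    rw [h1]
    have h2 : ε * (Fm.card : ℝ) = ε / 2 * k * X.nDD n := by
      have : (Fm.card : ℝ) = k * X.nDD n / 2 := by linarith
      rw [this]; ring
    rw [h2]
    exact mul_le_mul_of_nonneg_left hDD (by positivity)
  -- the bad ones
  set Gd : XG S T h × Finset X.Pr → Prop := fun x =>
    Finite {Psi : G → V // S.IsSel (chX h ch x) m Psi} ∧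
      Nat.card {Psi : G → V // S.IsSel (chX h ch x) m Psi} < (4 * Nat.card V1) ^ m with hGd
  have hB : ((Fm.filter fun x => ¬ Gd x).card : ℝ) ≤ ε / 2 * Fm.card := by
    have h1 : ((Fm.filter fun x => ¬ Gd x).card : ℝ) ≤
        ((univ ×ˢ DDn X hX.fin n).filter fun x : XG S T h × Finset X.Pr => ¬ Gd x).card := by
      have h2 : (Fm.filter fun x => ¬ Gd x) ⊆
          (univ ×ˢ DDn X hX.fin n).filter fun x : XG S T h × Finset X.Pr => ¬ Gd x := by
        intro x hx
        rw [mem_filter] at hx ⊢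
        exact ⟨(mem_filter.1 hx.1).1, hx.2⟩
      exact_mod_cast card_le_card h2
    refine h1.trans ?_
    rw [card_filter]
    push_cast
    rw [sum_product]
    have h2 : ∀ chi0 : XG S T h, (∑ D ∈ DDn X hX.fin n, (if ¬ Gd (chi0, D) then (1 : ℝ) else 0)) ≤
        ε / 4 * X.nDD n := by
      intro chi0
      refine le_trans (le_of_eq ?_) (hN chi0 n (hnN chi0))
      rw [sum_ite, sum_const_zero, add_zero, sum_const, nsmul_eq_mul, mul_one,
        ← Nat.card_eq_finsetCard]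
      congr 1
      refine Nat.card_congr ⟨fun D => ⟨D.1, mem_DDn.1 (mem_filter.1 D.2).1, ?_⟩,
        fun D => ⟨D.1, mem_filter.2 ⟨mem_DDn.2 D.2.1, ?_⟩⟩, fun _ => rfl, fun _ => rfl⟩
      · exact (mem_filter.1 D.2).2
      · exact D.2.2
    calc _ ≤ ∑ _chi0 : XG S T h, ε / 4 * X.nDD n := sum_le_sum fun chi0 _ => h2 chi0
      _ = ε / 4 * (k * X.nDD n) := by
          rw [sum_const, card_univ, nsmul_eq_mul, hk, Nat.card_eq_fintype_card]
          ring
      _ = ε / 2 * Fm.card := by rw [← hcF]; ring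
  have hm1 : 1 ≤ m := by omega
  have hZ : ∀ x : XG S T h × Finset X.Pr, Nat.card (S.SelZ h (chX h ch x) m) =
      Nat.card {Psi : G → V // S.IsSel (chX h ch x) m Psi} := fun _ => rfl
  have hEv : ∀ x : XG S T h × Finset X.Pr, Gd x → S.dS h (chX h ch x) = 0 → Ev S h (chX h ch x) := by
    intro x hx h0
    have hch := chX_hom h hp x
    have hfin := hP.fin _ hch
    exact Sys.selZ_even h hch hfin (halt _ hch) (n := m) (by rw [hZ]; exact hx.2)
      ((Sys.dS_eq_zero_iff h hfin).1 h0)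
  have hOd : ∀ x : XG S T h × Finset X.Pr, Gd x → ¬ S.dS h (chX h ch x) = 0 → Od S h (chX h ch x) := by
    intro x hx h0
    have hch := chX_hom h hp x
    have hfin := hP.fin _ hch
    exact Sys.selZ_odd h hch hfin (halt _ hch) (n := m) (by rw [hZ]; exact hx.2)
      (fun hr => h0 ((Sys.dS_eq_zero_iff h hfin).2 hr))
  have hcE : ∀ (p : XG S T h × Finset X.Pr → Prop) (E : Finset (XG S T h × Finset X.Pr)),
      E ⊆ Fm → (∀ x ∈ E, Gd x → p x) →
      (E.card : ℝ) ≤ (Fm.filter p).card + ε / 2 * Fm.card := by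
    intro p E hE hp1
    have h1 : E ⊆ Fm.filter p ∪ Fm.filter fun x => ¬ Gd x := by
      intro x hx
      rw [mem_union, mem_filter, mem_filter]
      by_cases hg : Gd x
      · exact Or.inl ⟨hE hx, hp1 x hx hg⟩
      · exact Or.inr ⟨hE hx, hg⟩
    have h2 : (E.card : ℝ) ≤ (Fm.filter p).card + (Fm.filter fun x => ¬ Gd x).card := by
      exact_mod_cast (card_le_card h1).trans (card_union_le _ _)
    linarith
  have e0 := hcE (fun x => Ev S h (chX h ch x)) E0 (filter_subset _ _)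
    fun x hx hg => hEv x hg (mem_filter.1 hx).2
  have e1 := hcE (fun x => Od S h (chX h ch x)) E1 (filter_subset _ _)
    fun x hx hg => hOd x hg (mem_filter.1 hx).2
  have h1 := abs_le.1 hsum'
  have h2 : (0 : ℝ) ≤ Fm.card := Nat.cast_nonneg _
  rw [card_sub h hX.fin v0.1 n (fun x => Ev S h (chX h ch x)),
    card_sub h hX.fin v0.1 n (fun x => Od S h (chX h ch x)), card_FamF h hX.fin]
  constructor
  · linarith
  · linarith

end Pool.Agent.SmN.Half
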