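import Pool.Agent.Lib.SmN.P.Kramer
import Pool.Agent.Lib.SmN.P.Coh

/-!
# SMITH with action on `V1`, block P, module Dick: the Dickson invariant

`fx F = dim ker (F - 1)`. For isometries `F`, `F'` of a nondegenerate quadratic space over `F_2` of
even dimension, `fx (F F') = fx F + fx F'` modulo 2 (`fx_mul`; the graphs of isometries are
Lagrangians of `q + q`). So `dk S s = fx (ac s)` modulo 2 is a quadratic character (`dk_hom`).
-/

set_option autoImplicit false

open Module

namespace Pool.Agent.SmN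

section lin

variable {V1 : Type*} [AddCommGroup V1] [Module (ZMod 2) V1]

/-- The fixed space. -/
def Fixd (F : V1 ≃ₗ[ZMod 2] V1) : Submodule (ZMod 2) V1 :=
  LinearMap.eqLocus (F : V1 →ₗ[ZMod 2] V1) LinearMap.id

theorem mem_Fixd {F : V1 ≃ₗ[ZMod 2] V1} {x : V1} : x ∈ Fixd F ↔ F x = x := Iff.rfl

/-- The dimension of the fixed space. -/
noncomputable def fx (F : V1 ≃ₗ[ZMod 2] V1) : ℕ := finrank (ZMod 2) (Fixd F)

private theorem Dick_inf [Finite V1] (f f' : V1 →ₗ[ZMod 2] V1) (P : Submodule (ZMod 2) V1)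
    (hP : ∀ x, x ∈ P ↔ f x = f' x) :
    finrank (ZMod 2) (f.graph ⊓ f'.graph : Submodule (ZMod 2) (V1 × V1)) =
      finrank (ZMod 2) P := by
  refine (LinearEquiv.finrank_eq (LinearEquiv.ofBijective
    (LinearMap.codRestrict (f.graph ⊓ f'.graph)
      ((LinearMap.id.prod f).comp P.subtype) ?_) ⟨?_, ?_⟩)).symm
  · intro x
    exact ⟨rfl, (hP _).mp x.2⟩
  · intro x y hxy
    exact Subtype.ext (congrArg (fun z => z.1.1) hxy)
  · rintro ⟨⟨x, y⟩, h1, h2⟩
    have e1 : y = f x := h1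
    have e2 : y = f' x := h2
    refine ⟨⟨x, (hP x).mpr (e1.symm.trans e2)⟩, Subtype.ext (Prod.ext rfl e1.symm)⟩

private theorem Dick_graph (f : V1 →ₗ[ZMod 2] V1) :
    finrank (ZMod 2) f.graph = finrank (ZMod 2) V1 := by
  refine (LinearEquiv.finrank_eq (LinearEquiv.ofBijective
    (LinearMap.codRestrict f.graph (LinearMap.id.prod f) ?_) ⟨?_, ?_⟩)).symm
  · intro x
    exact rfl
  · intro x y hxy
    exact congrArg (fun z => z.1.1) hxy
  · rintro ⟨⟨x, y⟩, h1⟩
    have e1 : y = f x := h1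
    exact ⟨x, Subtype.ext (Prod.ext rfl e1.symm)⟩

/-- The Dickson invariant is additive. -/
theorem fx_mul [Finite V1] {e : V1 →ₗ[ZMod 2] V1 →ₗ[ZMod 2] ZMod 2} (halt : ∀ w, e w w = 0)
    (hnd : ∀ w, (∀ w', e w w' = 0) → w = 0) {q : V1 → ZMod 2}
    (hq : ∀ w w', q (w + w') = q w + q w' + e w w') (F F' : V1 ≃ₗ[ZMod 2] V1)
    (hF : ∀ w, q (F w) = q w) (hF' : ∀ w, q (F' w) = q w) :
    ((fx (F * F') : ℕ) : ZMod 2) = (fx F : ℕ) + (fx F' : ℕ) := by
  have hm : Module.Finite (ZMod 2) V1 := Module.Finite.of_finite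
  have hev := Pool.Agent.SmJ.even_finrank_of_alt e halt hnd
  have hcomm := e_comm halt
  let b : LinearMap.BilinForm (ZMod 2) (V1 × V1) :=
    LinearMap.mk₂ (ZMod 2) (fun x y => e x.1 y.1 + e x.2 y.2)
      (by
        intro x x' y
        simp only [Prod.fst_add, Prod.snd_add, map_add, LinearMap.add_apply]
        ring)
      (by
        intro a x y
        simp only [Prod.smul_fst, Prod.smul_snd, map_smul, LinearMap.smul_apply, smul_eq_mul,
          mul_add])
      (by
        intro x y y'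
        simp only [Prod.fst_add, Prod.snd_add, map_add]
        ring)
      (by
        intro a x y
        simp only [Prod.smul_fst, Prod.smul_snd, map_smul, smul_eq_mul, mul_add])
  have hb : ∀ x y, b x y = e x.1 y.1 + e x.2 y.2 := fun _ _ => rfl
  have hsym : ∀ x y, b x y = b y x := fun x y => by rw [hb, hb, hcomm x.1, hcomm x.2]
  have h0 : ∀ x, (∀ y, b x y = 0) → x = 0 := by
    intro x hx
    refine Prod.ext (hnd _ fun w' => ?_) (hnd _ fun w' => ?_)
    · simpa [hb] using hx (w', 0)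
    · simpa [hb] using hx (0, w')
  have hbn : b.Nondegenerate := ⟨h0, fun y hy => h0 y fun x => by rw [hsym]; exact hy x⟩
  have hGr : ∀ f : V1 →ₗ[ZMod 2] V1, (∀ w, q (f w) = q w) → ∀ x ∈ f.graph,
      q x.1 + q x.2 = 0 := by
    intro f hf x hx
    have h1 : x.2 = f x.1 := hx
    rw [h1, hf]
    exact CharTwo.add_self_eq_zero _
  have hFi : ∀ w, q (F.symm w) = q w := fun w => by
    conv_rhs => rw [← F.apply_symm_apply w, hF]
  have key := Pool.Agent.Sm.three_lagr b hbn hsym (fun x => q x.1 + q x.2)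
    (fun x y => by
      change q (x.1 + y.1) + q (x.2 + y.2) = _
      rw [hq, hq, hb]
      ring) (n := finrank (ZMod 2) V1) (by rw [Module.finrank_prod]; ring)
    (LinearMap.id : V1 →ₗ[ZMod 2] V1).graph (F.symm : V1 →ₗ[ZMod 2] V1).graph
    (F' : V1 →ₗ[ZMod 2] V1).graph (hGr _ fun w => rfl) (hGr _ hFi) (hGr _ hF')
    (Dick_graph _) (Dick_graph _) (Dick_graph _)
  rw [Dick_inf _ _ (Fixd F) (fun x => ?_), Dick_inf _ _ (Fixd (F * F')) (fun x => ?_),
    Dick_inf _ _ (Fixd F') (fun x => ?_)] at key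
  · have h1 : Even (fx F + fx (F * F') + fx F') := by
      change Even (fx F + fx (F * F') + fx F' + finrank (ZMod 2) V1) at key
      rw [Nat.even_iff] at key hev ⊢
      omega
    have h2 : ((fx F + fx (F * F') + fx F' : ℕ) : ZMod 2) = 0 :=
      (ZMod.natCast_eq_zero_iff_even).mpr h1
    push_cast at h2
    have h3 : ∀ x y z : ZMod 2, x + y + z = 0 → y = x + z := by decide
    exact h3 _ _ _ h2
  · rw [mem_Fixd]
    exact ⟨fun h => h.symm, fun h => h.symm⟩
  · rw [mem_Fixd]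
    change F (F' x) = x ↔ F.symm x = F' x
    rw [LinearEquiv.symm_apply_eq]
    exact ⟨fun h => h.symm, fun h => h.symm⟩
  · rw [mem_Fixd]
    change F x = x ↔ x = F.symm x
    rw [LinearEquiv.eq_symm_apply]

theorem fx_one : fx (1 : V1 ≃ₗ[ZMod 2] V1) = finrank (ZMod 2) V1 := by
  have h1 : Fixd (1 : V1 ≃ₗ[ZMod 2] V1) = ⊤ := by
    ext x
    exact ⟨fun _ => trivial, fun _ => rfl⟩
  rw [fx, h1, finrank_top]

end lin

namespace Sys

variable {G V V1 Pl : Type*} [Group G] [AddCommGroup V] [DistribMulAction G V]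
  [AddCommGroup V1] [Module (ZMod 2) V1]

/-- The Dickson invariant of the action of `s` on `V1`. -/
noncomputable def dk (S : Sys G V V1 Pl) (s : G) : ZMod 2 := (fx (S.ac s) : ℕ)

variable {S : Sys G V V1 Pl}

theorem dk_of_one (h : S.Ok) {s : G} (hs : S.ac s = 1) : S.dk s = 0 := by
  rw [dk, hs, fx_one]
  exact (ZMod.natCast_eq_zero_iff_even).mpr (even_finrank_V1 h)

theorem dk_mul (h : S.Ok) {qq : V1 → ZMod 2} (hq : QInv S qq) (s t : G) :
    S.dk (s * t) = S.dk s + S.dk t := by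
  have hf1 := h.fin1
  rw [dk, map_mul]
  exact fx_mul h.e_alt h.e_nondeg hq.add _ _ (hq.inv s) (hq.inv t)

/-- The Dickson invariant is a quadratic character. -/
theorem dk_hom (h : S.Ok) {qq : V1 → ZMod 2} (hq : QInv S qq) : S.HomG S.dk := by
  obtain ⟨N, hN, h1⟩ := ac_fin h
  refine ⟨⟨N, hN, fun s n hn => ?_⟩, dk_mul h hq⟩
  rw [dk_mul h hq, dk_of_one h (h1 n hn), add_zero]

/-- The fixed space of a square has even dimension. -/
theorem dk_sq (h : S.Ok) {qq : V1 → ZMod 2} (hq : QInv S qq) (s : G) : S.dk (s * s) = 0 := by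
  rw [dk_mul h hq]
  exact CharTwo.add_self_eq_zero _

end Sys

end Pool.Agent.SmN
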