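import Pool.Agent.Lib.SmN.Cnt.Defs

/-!
# SMITH-U (SmN), block P, module EqS: sums of multiplicative functions over squarefree divisors

`ψ : X.Pr → ℝ`, `|ψ P| ≤ 1`, with `|∑_(deg P = d) ψ P| ≤ C √(q^d)`. Then
`∑_(D, degS D = n) ∏_(P ∈ D) ψ P = o(q^n)` (`sum_psi_small`).

`ee ψ A n` = sum over the subsets of the finite set `A` of degree `n` (an integer). Recursion:
`n ee A n = ∑_(P ∈ A) deg P ψ(P) ee (A - P) (n - deg P)` and
`ee A n = ee (A - P) n + ψ(P) ee (A - P) (n - deg P)`.
-/

set_option autoImplicit false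

open Finset

namespace Pool.Agent.SmN.PSys

variable {X : PSys}

open Classical in
/-- Sum over the subsets of `A` of degree `n`. -/
noncomputable def ee (ψ : X.Pr → ℝ) (A : Finset X.Pr) (n : ℤ) : ℝ :=
  ∑ D ∈ A.powerset with (X.degS D : ℤ) = n, ∏ P ∈ D, ψ P

theorem ee_neg (ψ : X.Pr → ℝ) (A : Finset X.Pr) {n : ℤ} (hn : n < 0) : ee ψ A n = 0 := by
  classical
  refine sum_eq_zero_iff_of_nonneg ?_ |>.mpr ?_ <;> intro D hD
  · exfalso
    have := (mem_filter.mp hD).2
    omega
  · exfalso
    have := (mem_filter.mp hD).2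
    omega

theorem ee_insert [DecidableEq X.Pr] (ψ : X.Pr → ℝ) {A : Finset X.Pr} {a : X.Pr} (ha : a ∉ A)
    (n : ℤ) : ee ψ (insert a A) n = ee ψ A n + ψ a * ee ψ A (n - X.deg a) := by
  classical
  unfold ee
  rw [sum_filter, sum_powerset_insert ha, ← sum_filter, sum_filter (s := A.powerset)
    (p := fun D => (X.degS D : ℤ) = n - X.deg a), mul_sum]
  congr 1
  refine sum_congr rfl fun D hD => ?_
  have haD : a ∉ D := fun h => ha (mem_powerset.mp hD h)
  have h1 : X.degS (insert a D) = X.deg a + X.degS D := by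
    unfold degS
    rw [sum_insert haD]
  rw [h1, prod_insert haD]
  have h2 : ((X.deg a + X.degS D : ℕ) : ℤ) = n ↔ (X.degS D : ℤ) = n - X.deg a := by
    push_cast
    constructor <;> intro h <;> linarith
  simp only [h2]
  split_ifs
  · rfl
  · rw [mul_zero]

theorem ee_erase [DecidableEq X.Pr] (ψ : X.Pr → ℝ) {A : Finset X.Pr} {a : X.Pr} (ha : a ∈ A)
    (n : ℤ) : ee ψ A n = ee ψ (A.erase a) n + ψ a * ee ψ (A.erase a) (n - X.deg a) := by
  conv_lhs => rw [← insert_erase ha]
  exact ee_insert ψ (notMem_erase a A) n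

/-- The recursion. -/
theorem ee_rec [DecidableEq X.Pr] (ψ : X.Pr → ℝ) (A : Finset X.Pr) :
    ∀ n : ℤ, (n : ℝ) * ee ψ A n =
      ∑ P ∈ A, (X.deg P : ℝ) * ψ P * ee ψ (A.erase P) (n - X.deg P) := by
  induction A using Finset.induction_on with
  | empty =>
    intro n
    rw [sum_empty]
    by_cases hn : n = 0
    · rw [hn]; simp
    · have h1 : ee ψ (∅ : Finset X.Pr) n = 0 := by
        classical
        unfold ee
        rw [powerset_empty, sum_filter, sum_singleton, if_neg]
        intro h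
        refine hn ?_
        rw [← h]
        simp [degS]
      rw [h1, mul_zero]
  | insert a A ha ih =>
    intro n
    rw [ee_insert ψ ha, sum_insert ha, erase_insert ha]
    have h1 : ∑ P ∈ A, (X.deg P : ℝ) * ψ P * ee ψ ((insert a A).erase P) (n - X.deg P) =
        ∑ P ∈ A, (X.deg P : ℝ) * ψ P * ee ψ (A.erase P) (n - X.deg P) +
        ψ a * ∑ P ∈ A, (X.deg P : ℝ) * ψ P * ee ψ (A.erase P) (n - X.deg a - X.deg P) := by
      rw [mul_sum, ← sum_add_distrib]
      refine sum_congr rfl fun P hP => ?_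
      have hne : P ≠ a := fun h => ha (h ▸ hP)
      rw [erase_insert_of_ne hne.symm, ee_insert ψ (fun h => ha (mem_of_mem_erase h)),
        show n - (X.deg P : ℤ) - X.deg a = n - X.deg a - X.deg P by ring]
      ring
    rw [h1, ← ih n, ← ih (n - X.deg a)]
    push_cast
    ring

/-- Enlarging `A` by primes of large degree does not change `ee`. -/
theorem ee_mono (ψ : X.Pr → ℝ) {A B : Finset X.Pr} (hAB : A ⊆ B) {n : ℤ}
    (h : ∀ P ∈ B, (X.deg P : ℤ) ≤ n → P ∈ A) : ee ψ A n = ee ψ B n := by
  classical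
  unfold ee
  congr 1
  ext D
  simp only [mem_filter, mem_powerset]
  constructor
  · rintro ⟨h1, h2⟩
    exact ⟨h1.trans hAB, h2⟩
  · rintro ⟨h1, h2⟩
    refine ⟨fun P hP => h P (h1 hP) ?_, h2⟩
    rw [← h2]
    have : X.deg P ≤ X.degS D := single_le_sum (f := X.deg) (fun _ _ => Nat.zero_le _) hP
    exact_mod_cast this

section main

variable (X)

/-- The primes of degree at most `n`. -/
noncomputable def AA (hfin : ∀ d, Finite (X.Of d)) (n : ℕ) : Finset X.Pr :=
  (Set.Finite.subset (s := ⋃ d ∈ Finset.range (n + 1), {P : X.Pr | X.deg P = d})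
    (Set.Finite.biUnion (Finset.finite_toSet _) fun d _ => hfin d)
    (t := {P : X.Pr | X.deg P ≤ n}) (fun P hP => by
      simp only [Finset.mem_range, Set.mem_iUnion]
      exact ⟨X.deg P, Nat.lt_succ_of_le hP, rfl⟩)).toFinset

variable {X}

theorem mem_AA {hfin : ∀ d, Finite (X.Of d)} {n : ℕ} {P : X.Pr} :
    P ∈ X.AA hfin n ↔ X.deg P ≤ n := by
  rw [AA, Set.Finite.mem_toFinset]
  rfl

/-- The sum over the squarefree divisors of degree `n`. -/
noncomputable def SS (hfin : ∀ d, Finite (X.Of d)) (ψ : X.Pr → ℝ) (n : ℕ) : ℝ :=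
  ee ψ (X.AA hfin n) n

theorem ee_AA {hfin : ∀ d, Finite (X.Of d)} (ψ : X.Pr → ℝ) {m n : ℕ} (h : m ≤ n) :
    ee ψ (X.AA hfin n) m = SS hfin ψ m := by
  refine (ee_mono ψ (fun P hP => ?_) fun P _ hP => ?_).symm
  · exact mem_AA.mpr ((mem_AA.mp hP).trans h)
  · exact mem_AA.mpr (by exact_mod_cast hP)

/-- Sum over the primes of degree `≤ n`, grouped by degree. -/
theorem sum_AA {hfin : ∀ d, Finite (X.Of d)} (n : ℕ) (g : X.Pr → ℝ) :
    ∑ P ∈ X.AA hfin n, g P =
      ∑ d ∈ range (n + 1), ∑ P ∈ (X.AA hfin n).filter (fun P => X.deg P = d), g P := by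
  rw [sum_fiberwise_of_maps_to]
  intro P hP
  exact mem_range.mpr (Nat.lt_succ_of_le (mem_AA.mp hP))

/-- `ee` of the set without one prime. -/
theorem ee_erase_bound [DecidableEq X.Pr] {ψ : X.Pr → ℝ} (hψ : ∀ P, |ψ P| ≤ 1)
    {A : Finset X.Pr} {P : X.Pr} (hP : P ∈ A) (hd : 1 ≤ X.deg P) {β M : ℝ} (hβ : 1 < β)
    (hM : 0 ≤ M) {n : ℕ} (h : ∀ m : ℕ, m < n → |ee ψ A m| ≤ M * β ^ m) :
    ∀ m : ℕ, m < n → |ee ψ (A.erase P) m| ≤ β / (β - 1) * (M * β ^ m) := by
  intro m
  induction m using Nat.strong_induction_on with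
  | _ m ih =>
    intro hm
    have hb : 0 < β - 1 := by linarith
    have h1 : ee ψ (A.erase P) m = ee ψ A m - ψ P * ee ψ (A.erase P) (m - X.deg P) := by
      rw [ee_erase ψ hP (m : ℤ)]; ring
    have h3 : |ψ P * ee ψ (A.erase P) ((m : ℤ) - X.deg P)| ≤ 1 / (β - 1) * (M * β ^ m) := by
      rcases lt_or_ge m (X.deg P) with h4 | h4
      · rw [ee_neg ψ _ (by omega), mul_zero, abs_zero]
        positivity
      · have h5 : (m : ℤ) - X.deg P = ((m - X.deg P : ℕ) : ℤ) := by omega
        rw [h5, abs_mul]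
        have h6 := ih (m - X.deg P) (by omega) (by omega)
        calc |ψ P| * |ee ψ (A.erase P) ((m - X.deg P : ℕ) : ℤ)|
            ≤ 1 * (β / (β - 1) * (M * β ^ (m - X.deg P))) :=
              mul_le_mul (hψ P) h6 (abs_nonneg _) zero_le_one
          _ = 1 / (β - 1) * (M * (β * β ^ (m - X.deg P))) := by ring
          _ ≤ 1 / (β - 1) * (M * β ^ m) := by
              refine mul_le_mul_of_nonneg_left (mul_le_mul_of_nonneg_left ?_ hM) (by positivity)
              rw [← pow_succ']
              exact pow_le_pow_right₀ hβ.le (by omega)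
    rw [h1]
    calc |ee ψ A m - ψ P * ee ψ (A.erase P) ((m : ℤ) - X.deg P)|
        ≤ |ee ψ A m| + |ψ P * ee ψ (A.erase P) ((m : ℤ) - X.deg P)| := abs_sub _ _
      _ ≤ M * β ^ m + 1 / (β - 1) * (M * β ^ m) := add_le_add (h m hm) h3
      _ = β / (β - 1) * (M * β ^ m) := by field_simp; ring

/-- **The sums of a multiplicative function with square root cancellation are small.** -/
theorem SS_bound {q : ℕ} (hq : 2 ≤ q) (hpos : ∀ P, 1 ≤ X.deg P) (hfin : ∀ d, Finite (X.Of d))
    {C₀ : ℝ} (hcard : ∀ d : ℕ, 1 ≤ d → (d : ℝ) * Nat.card (X.Of d) ≤ C₀ * (q : ℝ) ^ d)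
    {ψ : X.Pr → ℝ} (hψ : ∀ P, |ψ P| ≤ 1) {C : ℝ}
    (hsum : ∀ (d : ℕ) (E : Finset X.Pr), 1 ≤ d → (∀ P, P ∈ E ↔ X.deg P = d) →
      |∑ P ∈ E, ψ P| ≤ C * √((q : ℝ) ^ d)) :
    ∃ β M : ℝ, 0 < β ∧ β < q ∧ ∀ n : ℕ, |SS hfin ψ n| ≤ M * β ^ n := by
  classical
  have hq' : (2 : ℝ) ≤ q := by exact_mod_cast hq
  have hq0 : (0 : ℝ) < q := by linarith
  have hs0 : 0 < √(q : ℝ) := Real.sqrt_pos.mpr hq0
  have hs1 : 1 < √(q : ℝ) := by
    rw [show (1 : ℝ) = √1 by simp]
    exact Real.sqrt_lt_sqrt zero_le_one (by linarith)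
  have hss : √(q : ℝ) * √(q : ℝ) = q := Real.mul_self_sqrt hq0.le
  have hsq : √(q : ℝ) < q := by nlinarith
  obtain ⟨β, hβdef⟩ : ∃ β : ℝ, β = (√(q : ℝ) + q) / 2 := ⟨_, rfl⟩
  have hβs : √(q : ℝ) < β := by rw [hβdef]; linarith
  have hβq : β < q := by rw [hβdef]; linarith
  have hβ1 : 1 < β := hs1.trans hβs
  have hβ0 : 0 < β := by linarith
  have hC₀ : 0 ≤ C₀ := by
    have h1 := hcard 1 le_rfl
    have h2 : (0 : ℝ) ≤ ((1 : ℕ) : ℝ) * Nat.card (X.Of 1) := by positivity
    have h3 : 0 ≤ C₀ * (q : ℝ) ^ 1 := h2.trans h1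
    rw [pow_one] at h3
    exact nonneg_of_mul_nonneg_left h3 hq0
  have hC : 0 ≤ C := by
    obtain ⟨E, hE⟩ : ∃ E : Finset X.Pr, ∀ P, P ∈ E ↔ X.deg P = 1 :=
      ⟨(show Set.Finite {P : X.Pr | X.deg P = 1} from hfin 1).toFinset, fun P => by
        rw [Set.Finite.mem_toFinset]; rfl⟩
    have h1 := (abs_nonneg _).trans (hsum 1 E le_rfl hE)
    exact nonneg_of_mul_nonneg_left h1 (Real.sqrt_pos.mpr (by positivity))
  -- the two series
  obtain ⟨x, hx⟩ : ∃ x : ℝ, x = √(q : ℝ) / β := ⟨_, rfl⟩
  obtain ⟨y, hy⟩ : ∃ y : ℝ, y = q / β ^ 2 := ⟨_, rfl⟩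
  have hx0 : 0 ≤ x := by rw [hx]; positivity
  have hx1 : x < 1 := by rw [hx, div_lt_one hβ0]; exact hβs
  have hy0 : 0 ≤ y := by rw [hy]; positivity
  have hy1 : y < 1 := by
    rw [hy, div_lt_one (by positivity), sq]
    nlinarith
  have hsx : Summable fun d : ℕ => (d : ℝ) * x ^ d :=
    (hasSum_coe_mul_geometric_of_norm_lt_one (by rwa [Real.norm_eq_abs, abs_of_nonneg hx0])).summable
  have hsy : Summable fun d : ℕ => y ^ d := summable_geometric_of_lt_one hy0 hy1
  obtain ⟨K, hK⟩ : ∃ K : ℝ, K =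
    C * (∑' d : ℕ, (d : ℝ) * x ^ d) + C₀ * (β / (β - 1)) * ∑' d : ℕ, y ^ d := ⟨_, rfl⟩
  have hK0 : 0 ≤ K := by
    have h1 : 0 ≤ ∑' d : ℕ, (d : ℝ) * x ^ d := tsum_nonneg fun d => by positivity
    have h2 : 0 ≤ ∑' d : ℕ, y ^ d := tsum_nonneg fun d => by positivity
    have hb : 0 < β - 1 := by linarith
    rw [hK]
    positivity
  obtain ⟨K₀, hK₀⟩ := exists_nat_ge K
  obtain ⟨M, hM⟩ : ∃ M : ℝ, M = ∑ m ∈ range (K₀ + 1), |SS hfin ψ m| := ⟨_, rfl⟩
  have hM0 : 0 ≤ M := by rw [hM]; exact sum_nonneg fun _ _ => abs_nonneg _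
  refine ⟨β, M, hβ0, hβq, ?_⟩
  intro n
  induction n using Nat.strong_induction_on with
  | _ n ih =>
    rcases Nat.lt_or_ge K₀ n with hn | hn
    swap
    · calc |SS hfin ψ n| ≤ M := by
            rw [hM]
            exact single_le_sum (f := fun m => |SS hfin ψ m|) (fun _ _ => abs_nonneg _)
              (mem_range.mpr (Nat.lt_succ_of_le hn))
        _ = M * 1 := (mul_one _).symm
        _ ≤ M * β ^ n := mul_le_mul_of_nonneg_left (one_le_pow₀ hβ1.le) hM0
    · have hn0 : (0 : ℝ) < n := by exact_mod_cast (Nat.zero_lt_of_lt hn)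
      have hnK : K ≤ n := hK₀.trans (by exact_mod_cast hn.le)
      set A := X.AA hfin n with hA
      have hbd : ∀ m : ℕ, m < n → |ee ψ A m| ≤ M * β ^ m := fun m hm => by
        rw [hA, ee_AA ψ hm.le]
        exact ih m hm
      have hrec := ee_rec ψ A (n : ℤ)
      have hsplit : ∀ P ∈ A, (X.deg P : ℝ) * ψ P * ee ψ (A.erase P) ((n : ℤ) - X.deg P) =
          (X.deg P : ℝ) * ψ P * ee ψ A ((n : ℤ) - X.deg P) -
          (X.deg P : ℝ) * ψ P * ψ P * ee ψ (A.erase P) ((n : ℤ) - 2 * X.deg P) := by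
        intro P hP
        rw [ee_erase ψ hP ((n : ℤ) - X.deg P),
          show (n : ℤ) - X.deg P - X.deg P = (n : ℤ) - 2 * X.deg P by ring]
        ring
      rw [sum_congr rfl hsplit, sum_sub_distrib] at hrec
      -- the first sum
      have hfirst : |∑ P ∈ A, (X.deg P : ℝ) * ψ P * ee ψ A ((n : ℤ) - X.deg P)| ≤
          C * (∑' d : ℕ, (d : ℝ) * x ^ d) * (M * β ^ n) := by
        rw [hA, sum_AA]
        calc |∑ d ∈ range (n + 1), ∑ P ∈ (X.AA hfin n).filter (fun P => X.deg P = d),
              (X.deg P : ℝ) * ψ P * ee ψ (X.AA hfin n) ((n : ℤ) - X.deg P)|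
            ≤ ∑ d ∈ range (n + 1), |∑ P ∈ (X.AA hfin n).filter (fun P => X.deg P = d),
              (X.deg P : ℝ) * ψ P * ee ψ (X.AA hfin n) ((n : ℤ) - X.deg P)| :=
              abs_sum_le_sum_abs _ _
          _ ≤ ∑ d ∈ range (n + 1), C * ((d : ℝ) * x ^ d) * (M * β ^ n) := by
              refine sum_le_sum fun d hd => ?_
              have hdn : d ≤ n := Nat.lt_succ_iff.mp (mem_range.mp hd)
              have e1 : ∑ P ∈ (X.AA hfin n).filter (fun P => X.deg P = d),
                  (X.deg P : ℝ) * ψ P * ee ψ (X.AA hfin n) ((n : ℤ) - X.deg P) =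
                  (d : ℝ) * ee ψ (X.AA hfin n) ((n : ℤ) - d) *
                    ∑ P ∈ (X.AA hfin n).filter (fun P => X.deg P = d), ψ P := by
                rw [mul_sum]
                refine sum_congr rfl fun P hP => ?_
                rw [(mem_filter.mp hP).2]
                ring
              rw [e1]
              rcases Nat.eq_zero_or_pos d with h0 | h0
              · rw [h0]
                simp
              · have e2 : |∑ P ∈ (X.AA hfin n).filter (fun P => X.deg P = d), ψ P| ≤
                    C * √((q : ℝ) ^ d) := by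
                  refine hsum d _ h0 fun P => ?_
                  rw [mem_filter, mem_AA]
                  constructor
                  · exact fun h => h.2
                  · exact fun h => ⟨by rw [h]; exact hdn, h⟩
                have e3 : |ee ψ (X.AA hfin n) ((n : ℤ) - d)| ≤ M * β ^ (n - d) := by
                  rw [show (n : ℤ) - d = ((n - d : ℕ) : ℤ) by omega]
                  exact hbd (n - d) (by omega)
                have e4 : √((q : ℝ) ^ d) = √(q : ℝ) ^ d := by
                  rw [Real.sqrt_eq_rpow, Real.sqrt_eq_rpow, ← Real.rpow_natCast,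
                    ← Real.rpow_natCast, ← Real.rpow_mul hq0.le, ← Real.rpow_mul hq0.le, mul_comm]
                rw [abs_mul, abs_mul, Nat.abs_cast]
                calc (d : ℝ) * |ee ψ (X.AA hfin n) ((n : ℤ) - d)| *
                      |∑ P ∈ (X.AA hfin n).filter (fun P => X.deg P = d), ψ P|
                    ≤ (d : ℝ) * (M * β ^ (n - d)) * (C * √((q : ℝ) ^ d)) :=
                      mul_le_mul (mul_le_mul_of_nonneg_left e3 (Nat.cast_nonneg _)) e2
                        (abs_nonneg _) (by positivity)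
                  _ = C * ((d : ℝ) * x ^ d) * (M * β ^ n) := by
                      rw [e4, hx, div_pow]
                      have e5 : β ^ n = β ^ (n - d) * β ^ d := by
                        rw [← pow_add, Nat.sub_add_cancel hdn]
                      have e6 : β ^ d ≠ 0 := by positivity
                      have e7 : √(q : ℝ) ^ d / β ^ d * β ^ d = √(q : ℝ) ^ d :=
                        div_mul_cancel₀ _ e6
                      rw [e5]
                      calc (d : ℝ) * (M * β ^ (n - d)) * (C * √(q : ℝ) ^ d)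
                          = C * d * M * β ^ (n - d) * √(q : ℝ) ^ d := by ring
                        _ = C * d * M * β ^ (n - d) * (√(q : ℝ) ^ d / β ^ d * β ^ d) := by
                            rw [e7]
                        _ = C * ((d : ℝ) * (√(q : ℝ) ^ d / β ^ d)) *
                            (M * (β ^ (n - d) * β ^ d)) := by ring
          _ = C * (∑ d ∈ range (n + 1), (d : ℝ) * x ^ d) * (M * β ^ n) := by
              rw [mul_sum, sum_mul]
          _ ≤ C * (∑' d : ℕ, (d : ℝ) * x ^ d) * (M * β ^ n) := by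
              refine mul_le_mul_of_nonneg_right (mul_le_mul_of_nonneg_left ?_ hC) (by positivity)
              exact hsx.sum_le_tsum _ fun d _ => by positivity
      -- the second sum
      have hsecond : |∑ P ∈ A, (X.deg P : ℝ) * ψ P * ψ P *
          ee ψ (A.erase P) ((n : ℤ) - 2 * X.deg P)| ≤
          C₀ * (β / (β - 1)) * (∑' d : ℕ, y ^ d) * (M * β ^ n) := by
        have hb : 0 < β - 1 := by linarith
        have hterm : ∀ P ∈ A, |(X.deg P : ℝ) * ψ P * ψ P *
            ee ψ (A.erase P) ((n : ℤ) - 2 * X.deg P)| ≤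
            (X.deg P : ℝ) * (β / (β - 1) * (M * (β ^ n / (β ^ 2) ^ X.deg P))) := by
          intro P hP
          rw [abs_mul, abs_mul, abs_mul, Nat.abs_cast]
          have e1 : |ee ψ (A.erase P) ((n : ℤ) - 2 * X.deg P)| ≤
              β / (β - 1) * (M * (β ^ n / (β ^ 2) ^ X.deg P)) := by
            rcases lt_or_ge n (2 * X.deg P) with h4 | h4
            · rw [ee_neg ψ _ (by omega), abs_zero]
              positivity
            · rw [show (n : ℤ) - 2 * X.deg P = ((n - 2 * X.deg P : ℕ) : ℤ) by omega]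
              have e2 := ee_erase_bound hψ hP (hpos P) hβ1 hM0 hbd (n - 2 * X.deg P)
                (by have := hpos P; omega)
              have e3 : β ^ n / (β ^ 2) ^ X.deg P = β ^ (n - 2 * X.deg P) := by
                rw [← pow_mul, div_eq_iff (by positivity), ← pow_add, Nat.sub_add_cancel h4]
              rw [e3]
              exact e2
          have e2 : |ψ P| * |ψ P| ≤ 1 := by
            have := hψ P
            have h0 := abs_nonneg (ψ P)
            nlinarith
          have e3 : 0 ≤ |ee ψ (A.erase P) ((n : ℤ) - 2 * X.deg P)| := abs_nonneg _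
          calc (X.deg P : ℝ) * |ψ P| * |ψ P| * |ee ψ (A.erase P) ((n : ℤ) - 2 * X.deg P)|
              = (X.deg P : ℝ) * ((|ψ P| * |ψ P|) *
                |ee ψ (A.erase P) ((n : ℤ) - 2 * X.deg P)|) := by ring
            _ ≤ (X.deg P : ℝ) * (1 * |ee ψ (A.erase P) ((n : ℤ) - 2 * X.deg P)|) :=
                mul_le_mul_of_nonneg_left (mul_le_mul_of_nonneg_right e2 e3) (Nat.cast_nonneg _)
            _ ≤ _ := by
                rw [one_mul]
                exact mul_le_mul_of_nonneg_left e1 (Nat.cast_nonneg _)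
        calc |∑ P ∈ A, (X.deg P : ℝ) * ψ P * ψ P * ee ψ (A.erase P) ((n : ℤ) - 2 * X.deg P)|
            ≤ ∑ P ∈ A, |(X.deg P : ℝ) * ψ P * ψ P *
              ee ψ (A.erase P) ((n : ℤ) - 2 * X.deg P)| := abs_sum_le_sum_abs _ _
          _ ≤ ∑ P ∈ A, (X.deg P : ℝ) * (β / (β - 1) * (M * (β ^ n / (β ^ 2) ^ X.deg P))) :=
              sum_le_sum hterm
          _ = ∑ d ∈ range (n + 1), ∑ P ∈ (X.AA hfin n).filter (fun P => X.deg P = d),
              (X.deg P : ℝ) * (β / (β - 1) * (M * (β ^ n / (β ^ 2) ^ X.deg P))) := by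
              rw [hA, sum_AA]
          _ ≤ ∑ d ∈ range (n + 1), C₀ * (β / (β - 1)) * y ^ d * (M * β ^ n) := by
              refine sum_le_sum fun d hd => ?_
              rcases Nat.eq_zero_or_pos d with h0 | h0
              · have e1 : (X.AA hfin n).filter (fun P => X.deg P = d) = ∅ := by
                  rw [filter_eq_empty_iff]
                  intro P _ hP
                  have := hpos P
                  omega
                rw [e1, sum_empty]
                positivity
              · have e1 : ∑ P ∈ (X.AA hfin n).filter (fun P => X.deg P = d),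
                    (X.deg P : ℝ) * (β / (β - 1) * (M * (β ^ n / (β ^ 2) ^ X.deg P))) =
                    (((X.AA hfin n).filter (fun P => X.deg P = d)).card : ℝ) *
                    ((d : ℝ) * (β / (β - 1) * (M * (β ^ n / (β ^ 2) ^ d)))) := by
                  rw [← nsmul_eq_mul, ← sum_const]
                  refine sum_congr rfl fun P hP => ?_
                  rw [(mem_filter.mp hP).2]
                have e2 : ((X.AA hfin n).filter (fun P => X.deg P = d)).card ≤
                    Nat.card (X.Of d) := by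
                  have hf : Finite (X.Of d) := hfin d
                  rw [← Nat.card_eq_finsetCard]
                  exact Nat.card_le_card_of_injective
                    (fun P : ((X.AA hfin n).filter (fun P => X.deg P = d) : Finset X.Pr) =>
                      (⟨P.1, (mem_filter.mp P.2).2⟩ : X.Of d))
                    fun P P' h => Subtype.ext (congrArg (fun z : X.Of d => z.1) h)
                rw [e1]
                have e3 : (d : ℝ) * (((X.AA hfin n).filter (fun P => X.deg P = d)).card : ℝ) ≤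
                    C₀ * (q : ℝ) ^ d :=
                  (mul_le_mul_of_nonneg_left (by exact_mod_cast e2) (Nat.cast_nonneg _)).trans
                    (hcard d h0)
                calc (((X.AA hfin n).filter (fun P => X.deg P = d)).card : ℝ) *
                    ((d : ℝ) * (β / (β - 1) * (M * (β ^ n / (β ^ 2) ^ d))))
                    = ((d : ℝ) * (((X.AA hfin n).filter (fun P => X.deg P = d)).card : ℝ)) *
                      (β / (β - 1) * (M * (β ^ n / (β ^ 2) ^ d))) := by ring
                  _ ≤ (C₀ * (q : ℝ) ^ d) * (β / (β - 1) * (M * (β ^ n / (β ^ 2) ^ d))) :=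
                      mul_le_mul_of_nonneg_right e3 (by positivity)
                  _ = C₀ * (β / (β - 1)) * y ^ d * (M * β ^ n) := by
                      rw [hy, div_pow]
                      ring
          _ = C₀ * (β / (β - 1)) * (∑ d ∈ range (n + 1), y ^ d) * (M * β ^ n) := by
              rw [mul_sum, sum_mul]
          _ ≤ C₀ * (β / (β - 1)) * (∑' d : ℕ, y ^ d) * (M * β ^ n) := by
              refine mul_le_mul_of_nonneg_right (mul_le_mul_of_nonneg_left ?_ (by positivity))
                (by positivity)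
              exact hsy.sum_le_tsum _ fun d _ => by positivity
      have hfinal : (n : ℝ) * |SS hfin ψ n| ≤ K * (M * β ^ n) := by
        have e1 : (n : ℝ) * |SS hfin ψ n| = |((n : ℤ) : ℝ) * ee ψ A (n : ℤ)| := by
          rw [abs_mul, SS, ← hA]
          simp
        rw [e1, hrec]
        calc _ ≤ |∑ P ∈ A, (X.deg P : ℝ) * ψ P * ee ψ A ((n : ℤ) - X.deg P)| +
              |∑ P ∈ A, (X.deg P : ℝ) * ψ P * ψ P *
              ee ψ (A.erase P) ((n : ℤ) - 2 * X.deg P)| := abs_sub _ _
          _ ≤ C * (∑' d : ℕ, (d : ℝ) * x ^ d) * (M * β ^ n) +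
              C₀ * (β / (β - 1)) * (∑' d : ℕ, y ^ d) * (M * β ^ n) := add_le_add hfirst hsecond
          _ = K * (M * β ^ n) := by rw [hK]; ring
      have hpos' : 0 ≤ M * β ^ n := by positivity
      have : (n : ℝ) * |SS hfin ψ n| ≤ n * (M * β ^ n) :=
        hfinal.trans (mul_le_mul_of_nonneg_right hnK hpos')
      exact le_of_mul_le_mul_left this hn0

end main

end Pool.Agent.SmN.PSys
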