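import Pool.Agent.Lib.SmN.P.LocPar
import Pool.Agent.Lib.SmN.P.EqS
import Pool.Agent.Lib.SmN.Ch.Defs
import Pool.Agent.Lib.Sm.G.Tower

/-!
# SMITH-U (SmN), block P, module Half: half of the twists have even 2-Selmer rank

`T` = finite set of places with duality for the quadratic characters (`LagF S T`), the primes of `X`
are the places outside `T`. Every quadratic character is `chi0 + ∑_(P ∈ D) ch P` with `chi0`
unramified outside `T`. `lv S T c` = the local vector of `c` at `T`.

`card_lv`: Fourier formula for the number of the `(chi0, D)` with a given local vector.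
`equi`: the vectors `a` and `a + a0`, `a0` the unramified vector at `v0`, occur equally often up to
`ε q ^ n`.
`half_half`: if `v0` is a flip place, then among the twists unramified at `v0` there are as many with
even as with odd 2-Selmer rank, up to `ε q ^ n`.
-/

set_option autoImplicit false

open Finset

namespace Pool.Agent.SmN.Half

open Pool.Agent.SmN.Ch Pool.Agent.Sm

variable {G V V1 Pl : Type} [Group G] [AddCommGroup V] [DistribMulAction G V]
  [AddCommGroup V1] [Module (ZMod 2) V1]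

theorem z01 : ∀ x : ZMod 2, x = 0 ∨ x = 1 := by decide

theorem sgR_abs (x : ZMod 2) : |sgR x| = 1 := by
  rcases z01 x with rfl | rfl <;> simp [sgR_zero, sgR_one]

theorem sgR_sum {ι : Type*} (s : Finset ι) (f : ι → ZMod 2) :
    sgR (∑ i ∈ s, f i) = ∏ i ∈ s, sgR (f i) := by
  classical
  induction s using Finset.induction_on with
  | empty => rw [sum_empty, prod_empty, sgR_zero]
  | insert a s ha ih => rw [sum_insert ha, prod_insert ha, sgR_add, ih]

section vec

variable (S : Sys G V V1 Pl) (T : Finset Pl)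

/-- The quadratic characters unramified outside `T`. -/
def XG (h : S.Ok) : AddSubgroup (G → ZMod 2) where
  carrier := {c | XT S (T : Set Pl) c}
  zero_mem' := ⟨Sys.HomG.zero h, fun _ _ => rfl⟩
  add_mem' := by
    rintro a b ⟨ha, ha'⟩ ⟨hb, hb'⟩
    exact ⟨ha.add h hb, fun v hv => by rw [Pi.add_apply, ha' v hv, hb' v hv, add_zero]⟩
  neg_mem' := by
    rintro a ⟨ha, ha'⟩
    have h1 : -a = a := ZModModule.neg_eq_self a
    rw [h1]
    exact ⟨ha, ha'⟩

/-- The local vector at `T`. -/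
def lv (c : G → ZMod 2) : T → ZMod 2 × ZMod 2 := fun v => loc2 S v.1 c

/-- The symbol of a local vector and a character. -/
def br (x : T → ZMod 2 × ZMod 2) (c : G → ZMod 2) : ZMod 2 :=
  ∑ v : T, sym2 S v.1 (x v) (loc2 S v.1 c)

theorem lv_add (c d : G → ZMod 2) : lv S T (c + d) = lv S T c + lv S T d := rfl

theorem br_add_left (x y : T → ZMod 2 × ZMod 2) (c : G → ZMod 2) :
    br S T (x + y) c = br S T x c + br S T y c := by
  unfold br
  rw [← sum_add_distrib]
  refine sum_congr rfl fun v _ => ?_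
  simp only [sym2, Pi.add_apply, Prod.fst_add, Prod.snd_add]
  ring

theorem br_add_right (x : T → ZMod 2 × ZMod 2) (c d : G → ZMod 2) :
    br S T x (c + d) = br S T x c + br S T x d := by
  unfold br
  rw [← sum_add_distrib]
  refine sum_congr rfl fun v _ => ?_
  simp only [sym2, loc2, Pi.add_apply]
  ring

end vec

variable {S : Sys G V V1 Pl} {T : Finset Pl}

theorem lv_inj (h : S.Ok) (hF : LagF S (T : Set Pl)) {c d : G → ZMod 2} (hc : c ∈ XG S T h)
    (hd : d ∈ XG S T h) (he : lv S T c = lv S T d) : c = d := by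
  have h1 : c + d ∈ XG S T h := (XG S T h).add_mem hc hd
  have h2 : c + d = 0 := by
    refine hF.inj _ h1 fun v hv => ?_
    have h3 := congrFun he ⟨v, hv⟩
    have h4 : loc2 S v (c + d) = loc2 S v c + loc2 S v d := rfl
    have h5 : loc2 S v c = loc2 S v d := h3
    rw [h4, h5]
    exact ZModModule.add_self _
  have h3 : c = -d := eq_neg_of_add_eq_zero_left h2
  rw [h3]
  exact ZModModule.neg_eq_self d

theorem fin_XG (h : S.Ok) (hF : LagF S (T : Set Pl)) : Finite (XG S T h) :=
  Finite.of_injective (fun c : XG S T h => lv S T c.1)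
    fun c d hcd => Subtype.ext (lv_inj h hF c.2 d.2 hcd)

theorem sum_T (f : Pl → ZMod 2) (hf : ∀ v, v ∉ T → f v = 0) : ∑ᶠ v, f v = ∑ v : T, f v.1 := by
  rw [finsum_eq_sum_of_support_subset _ (s := T), ← sum_coe_sort T]
  intro v hv
  by_contra hcon
  exact hv (hf v hcon)

theorem exists_om (h : S.Ok) (hF : LagF S (T : Set Pl)) (x : T → ZMod 2 × ZMod 2)
    (hx : ∀ c ∈ XG S T h, br S T x c = 0) : ∃ om ∈ XG S T h, lv S T om = x := by
  classical
  obtain ⟨om, h1, h2⟩ := hF.surj (fun v => if hv : v ∈ T then x ⟨v, hv⟩ else 0) (by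
    intro b hb
    rw [finsum_mem_coe_finset, ← sum_coe_sort T, ← hx b hb]
    refine sum_congr rfl fun v _ => ?_
    rw [dif_pos v.2])
  refine ⟨om, h1, funext fun v => ?_⟩
  have h3 := h2 v.1 v.2
  rw [dif_pos v.2] at h3
  exact h3

theorem br_lv (h : S.Ok) (hF : LagF S (T : Set Pl)) {c d : G → ZMod 2} (hc : c ∈ XG S T h)
    (hd : d ∈ XG S T h) : br S T (lv S T c) d = 0 := by
  rw [← hF.recip c d hc.1 hd.1, sum_T (T := T)]
  · rfl
  · intro v hv
    have h1 := hc.2 v hv
    have h2 := hd.2 v hv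
    simp only [sym2, loc2, h1, h2]
    ring

/-- Character sum over `XG`. -/
theorem sum_br (h : S.Ok) (hF : LagF S (T : Set Pl)) [Fintype (XG S T h)]
    (x : T → ZMod 2 × ZMod 2) :
    ((∃ om ∈ XG S T h, lv S T om = x) → ∑ c : XG S T h, sgR (br S T x c.1) =
      Nat.card (XG S T h)) ∧
    ((¬ ∃ om ∈ XG S T h, lv S T om = x) → ∑ c : XG S T h, sgR (br S T x c.1) = 0) := by
  constructor
  · rintro ⟨om, h1, rfl⟩
    rw [sum_congr rfl fun c _ => by rw [br_lv h hF h1 c.2, sgR_zero], sum_const, card_univ,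
      nsmul_eq_mul, mul_one, Nat.card_eq_fintype_card]
  · intro hn
    obtain ⟨c0, hc0, h1⟩ : ∃ c ∈ XG S T h, br S T x c ≠ 0 := by
      by_contra hcon
      push Not at hcon
      exact hn (exists_om h hF x hcon)
    have h2 : br S T x c0 = 1 := (z01 _).resolve_left h1
    have h3 : ∑ c : XG S T h, sgR (br S T x c.1) =
        ∑ c : XG S T h, sgR (br S T x (c + ⟨c0, hc0⟩ : XG S T h).1) :=
      (Equiv.sum_comp (Equiv.addRight (⟨c0, hc0⟩ : XG S T h))
        (fun c : XG S T h => sgR (br S T x c.1))).symm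
    have h4 : ∑ c : XG S T h, sgR (br S T x (c + ⟨c0, hc0⟩ : XG S T h).1) =
        - ∑ c : XG S T h, sgR (br S T x c.1) := by
      rw [← sum_neg_distrib]
      refine sum_congr rfl fun c _ => ?_
      rw [AddSubgroup.coe_add, br_add_right, h2, sgR_add, sgR_one]
      ring
    linarith [h3.trans h4]

open Classical in
/-- The number of the `chi0` with a prescribed local vector. -/
theorem card_fib (h : S.Ok) (hF : LagF S (T : Set Pl)) [Fintype (XG S T h)]
    (x : T → ZMod 2 × ZMod 2) :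
    (Nat.card (XG S T h) : ℝ) * ((univ.filter fun c : XG S T h => lv S T c.1 = x).card : ℝ) =
      ∑ c : XG S T h, sgR (br S T x c.1) := by
  have hcard : (0 : ℝ) < Nat.card (XG S T h) := by
    have := fin_XG h hF
    exact_mod_cast Nat.card_pos
  by_cases hx : ∃ om ∈ XG S T h, lv S T om = x
  · rw [(sum_br h hF x).1 hx]
    obtain ⟨om, h1, h2⟩ := hx
    have h3 : (univ.filter fun c : XG S T h => lv S T c.1 = x) = {⟨om, h1⟩} := by
      ext c
      rw [mem_filter, mem_singleton]
      constructor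
      · rintro ⟨_, h4⟩
        exact Subtype.ext (lv_inj h hF c.2 h1 (h4.trans h2.symm))
      · rintro rfl
        exact ⟨mem_univ _, h2⟩
    rw [h3, card_singleton, Nat.cast_one, mul_one]
  · rw [(sum_br h hF x).2 hx]
    have h3 : (univ.filter fun c : XG S T h => lv S T c.1 = x) = ∅ := by
      rw [filter_eq_empty_iff]
      intro c _ h4
      exact hx ⟨c.1, c.2, h4⟩
    rw [h3, card_empty, Nat.cast_zero, mul_zero]

/-! ### The primes -/

variable {X : PSys}

/-- The data of the primes outside `T`. -/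
structure PrOk (S : Sys G V V1 Pl) (T : Finset Pl) (X : PSys) (pl : X.Pr → Pl)
    (ch : X.Pr → G → ZMod 2) : Prop where
  inj : Function.Injective pl
  range : ∀ v, v ∉ T ↔ ∃ P, pl P = v
  hom : ∀ P, S.HomG (ch P)
  self : ∀ P, ch P (S.sg (pl P)) = 1
  unr : ∀ P Q, Q ≠ P → ch P (S.sg (pl Q)) = 0

theorem PrOk.of_cd {cd : CData S X} (hc : cd.Ok) (hT : ∀ v, v ∉ T ↔ v ∈ Set.range cd.pl) :
    PrOk S T X cd.pl cd.ch :=
  ⟨hc.pl_inj, hT, hc.ch_hom, hc.ch_self, hc.ch_unr⟩

/-- The character of `D`. -/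
def chS (ch : X.Pr → G → ZMod 2) (D : Finset X.Pr) : G → ZMod 2 := fun s => ∑ P ∈ D, ch P s

variable {pl : X.Pr → Pl} {ch : X.Pr → G → ZMod 2}

theorem chS_hom (h : S.Ok) (hp : PrOk S T X pl ch) (D : Finset X.Pr) : S.HomG (chS ch D) := by
  classical
  induction D using Finset.induction_on with
  | empty => exact Sys.HomG.zero h
  | insert a D ha ih =>
    have h1 : chS ch (insert a D) = ch a + chS ch D := by
      funext s
      exact sum_insert ha
    rw [h1]
    exact (hp.hom a).add h ih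

theorem chS_sg (hp : PrOk S T X pl ch) (D : Finset X.Pr) (P : X.Pr) [Decidable (P ∈ D)] :
    chS ch D (S.sg (pl P)) = if P ∈ D then 1 else 0 := by
  classical
  unfold chS
  split_ifs with hP
  · rw [sum_eq_single P, hp.self P]
    · intro Q _ hQ
      exact hp.unr Q P hQ.symm
    · exact fun hn => absurd hP hn
  · refine sum_eq_zero fun Q hQ => hp.unr Q P fun he => hP (he ▸ hQ)

/-- Reciprocity: the symbol of the local vector of `D` and `c` is the sum of the values of `c` at the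
Frobenius elements of `D`. -/
theorem br_chS (h : S.Ok) (hF : LagF S (T : Set Pl)) (hp : PrOk S T X pl ch)
    {c : G → ZMod 2} (hc : c ∈ XG S T h) (D : Finset X.Pr) :
    br S T (lv S T (chS ch D)) c = ∑ P ∈ D, c (S.phi (pl P)) := by
  classical
  have h1 := hF.recip (chS ch D) c (chS_hom h hp D) hc.1
  set f : Pl → ZMod 2 := fun v => sym2 S v (loc2 S v (chS ch D)) (loc2 S v c) with hf
  have hout : ∀ P : X.Pr, f (pl P) = if P ∈ D then c (S.phi (pl P)) else 0 := by
    intro P
    have h2 : c (S.sg (pl P)) = 0 := hc.2 _ ((hp.range _).2 ⟨P, rfl⟩)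
    have h3 := chS_sg hp D P
    simp only [hf, sym2, loc2, h2, h3]
    split_ifs <;> ring
  have hsupp : Function.support f ⊆ ((T ∪ D.image pl : Finset Pl) : Set Pl) := by
    intro v hv
    by_contra hcon
    rw [mem_coe, mem_union, not_or] at hcon
    obtain ⟨P, rfl⟩ := (hp.range v).1 hcon.1
    have hP : P ∉ D := fun hP => hcon.2 (mem_image_of_mem pl hP)
    refine hv ?_
    rw [hout, if_neg hP]
  have hdisj : Disjoint T (D.image pl) := by
    rw [disjoint_left]
    intro v hv hv'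
    obtain ⟨P, _, rfl⟩ := mem_image.1 hv'
    exact (hp.range (pl P)).2 ⟨P, rfl⟩ hv
  rw [finsum_eq_sum_of_support_subset _ hsupp, sum_union hdisj,
    sum_image fun P _ Q _ he => hp.inj he] at h1
  have h3 : ∑ P ∈ D, f (pl P) = ∑ P ∈ D, c (S.phi (pl P)) :=
    sum_congr rfl fun P hP => by rw [hout, if_pos hP]
  rw [h3] at h1
  have h2 : br S T (lv S T (chS ch D)) c = ∑ v ∈ T, f v := by
    rw [← sum_coe_sort T]
    rfl
  rw [h2]
  exact CharTwo.add_eq_zero.1 h1

open Classical in
/-- Fourier formula for the number of the pairs `(chi0, D)` with a given local vector. -/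
theorem card_lv (h : S.Ok) (hF : LagF S (T : Set Pl)) (hp : PrOk S T X pl ch)
    [Fintype (XG S T h)] (DD : Finset (Finset X.Pr)) (a : T → ZMod 2 × ZMod 2) :
    (Nat.card (XG S T h) : ℝ) *
      (((univ ×ˢ DD).filter fun x : XG S T h × Finset X.Pr =>
        lv S T (x.1.1 + chS ch x.2) = a).card : ℝ) =
      ∑ c : XG S T h, sgR (br S T a c.1) * ∑ D ∈ DD, ∏ P ∈ D, sgR (c.1 (S.phi (pl P))) := by
  have h1 : (((univ ×ˢ DD).filter fun x : XG S T h × Finset X.Pr =>
        lv S T (x.1.1 + chS ch x.2) = a).card : ℝ) =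
      ∑ D ∈ DD, ((univ.filter fun c : XG S T h => lv S T c.1 = a + lv S T (chS ch D)).card : ℝ) := by
    rw [card_filter]
    push_cast
    rw [sum_product_right]
    refine sum_congr rfl fun D _ => ?_
    rw [card_filter]
    push_cast
    refine sum_congr rfl fun c _ => ?_
    have h2 : lv S T (c.1 + chS ch D) = a ↔ lv S T c.1 = a + lv S T (chS ch D) := by
      rw [lv_add]
      constructor
      · intro he
        rw [← he, add_assoc, ZModModule.add_self, add_zero]
      · intro he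
        rw [he, add_assoc, ZModModule.add_self, add_zero]
    simp only [h2]
  rw [h1, mul_sum]
  rw [sum_congr rfl fun D _ => card_fib h hF (a + lv S T (chS ch D)), sum_comm]
  refine sum_congr rfl fun c _ => ?_
  rw [mul_sum]
  refine sum_congr rfl fun D _ => ?_
  rw [br_add_left, sgR_add, br_chS h hF hp c.2, sgR_sum]

/-- The divisors of degree `n`. -/
noncomputable def DDn (X : PSys) (hfin : ∀ d, Finite (X.Of d)) (n : ℕ) : Finset (Finset X.Pr) :=
  open Classical in (X.AA hfin n).powerset.filter fun D => X.degS D = n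

theorem mem_DDn {hfin : ∀ d, Finite (X.Of d)} {n : ℕ} {D : Finset X.Pr} :
    D ∈ DDn X hfin n ↔ X.degS D = n := by
  classical
  rw [DDn, mem_filter, mem_powerset]
  constructor
  · exact fun h => h.2
  · intro h
    refine ⟨fun P hP => PSys.mem_AA.2 ?_, h⟩
    rw [← h]
    exact single_le_sum (f := X.deg) (fun _ _ => Nat.zero_le _) hP

theorem SS_eq (hfin : ∀ d, Finite (X.Of d)) (ψ : X.Pr → ℝ) (n : ℕ) :
    PSys.SS hfin ψ n = ∑ D ∈ DDn X hfin n, ∏ P ∈ D, ψ P := by
  classical
  unfold PSys.SS PSys.ee DDn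
  refine sum_congr ?_ fun _ _ => rfl
  ext D
  simp only [mem_filter, Nat.cast_inj]

open Classical in
/-- The unramified vector at `v0`. -/
noncomputable def a0 (v0 : T) : T → ZMod 2 × ZMod 2 := Pi.single v0 (0, 1)

theorem br_a0 (S : Sys G V V1 Pl) (v0 : T) (c : G → ZMod 2) :
    br S T (a0 v0) c = c (S.sg v0.1) := by
  classical
  unfold br a0
  rw [Finset.sum_eq_single v0]
  · rw [Pi.single_eq_same]
    simp only [sym2, loc2]
    ring
  · intro v _ hv
    rw [Pi.single_eq_of_ne hv]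
    simp only [sym2, Prod.fst_zero, Prod.snd_zero]
    ring
  · intro hn
    exact absurd (mem_univ _) hn

/-- The hypothesis from Chebotarev: square root cancellation for the quadratic characters ramified
at `v0`. -/
def ChebQ (S : Sys G V V1 Pl) (T : Finset Pl) (X : PSys) (pl : X.Pr → Pl) (q : ℕ) (v0 : Pl) :
    Prop :=
  ∀ c : G → ZMod 2, XT S (T : Set Pl) c → c (S.sg v0) = 1 → ∃ C : ℝ, ∀ (d : ℕ) (E : Finset X.Pr),
    1 ≤ d → (∀ P, P ∈ E ↔ X.deg P = d) →
      |∑ P ∈ E, sgR (c (S.phi (pl P)))| ≤ C * √((q : ℝ) ^ d)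

open Classical in
/-- The local vectors `a` and `a + a0` occur equally often. -/
theorem equi (h : S.Ok) (hF : LagF S (T : Set Pl)) (hp : PrOk S T X pl ch)
    [Fintype (XG S T h)] {q : ℕ} (hX : X.Ok q) {v0 : T} (hch : ChebQ S T X pl q v0.1)
    {ε : ℝ} (hε : 0 < ε) : ∃ n₀ : ℕ, ∀ n ≥ n₀, ∀ a : T → ZMod 2 × ZMod 2,
      |(((univ ×ˢ DDn X hX.fin n).filter fun x : XG S T h × Finset X.Pr =>
        lv S T (x.1.1 + chS ch x.2) = a).card : ℝ) -
      (((univ ×ˢ DDn X hX.fin n).filter fun x : XG S T h × Finset X.Pr =>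
        lv S T (x.1.1 + chS ch x.2) = a + a0 v0).card : ℝ)| ≤ ε * (q : ℝ) ^ n := by
  have hfinX := fin_XG h hF
  have hq2 : (2 : ℝ) ≤ q := by exact_mod_cast hX.two_le
  have hq0 : (0 : ℝ) < q := by linarith
  -- the bound for one character
  have hone : ∀ c : XG S T h, c.1 (S.sg v0.1) = 1 → ∃ n₀ : ℕ, ∀ n ≥ n₀,
      |PSys.SS hX.fin (fun P => sgR (c.1 (S.phi (pl P)))) n| ≤ ε / 2 * (q : ℝ) ^ n := by
    intro c hc
    obtain ⟨C, hC⟩ := hch c.1 c.2 hc
    obtain ⟨C₀, hC₀⟩ := hX.pnt
    have hcard : ∀ d : ℕ, 1 ≤ d → (d : ℝ) * Nat.card (X.Of d) ≤ (1 + |C₀|) * (q : ℝ) ^ d := by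
      intro d hd
      have h1 := (abs_le.mp (hC₀ d hd)).2
      have h2 : √((q : ℝ) ^ d) ≤ (q : ℝ) ^ d := by
        have h3 : (1 : ℝ) ≤ (q : ℝ) ^ d := one_le_pow₀ (by linarith)
        rw [Real.sqrt_le_left (by positivity)]
        nlinarith
      have h3 : C₀ * √((q : ℝ) ^ d) ≤ |C₀| * (q : ℝ) ^ d :=
        mul_le_mul (le_abs_self _) h2 (Real.sqrt_nonneg _) (abs_nonneg _)
      linarith
    obtain ⟨β, M, hβ0, hβq, hb⟩ := PSys.SS_bound hX.two_le hX.pos hX.fin hcard
      (ψ := fun P => sgR (c.1 (S.phi (pl P)))) (fun P => (sgR_abs _).le) hC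
    have hlim : Filter.Tendsto (fun n : ℕ => M * (β / q) ^ n) Filter.atTop (nhds 0) := by
      have h1 := (tendsto_pow_atTop_nhds_zero_of_lt_one (r := β / q) (by positivity)
        (by rw [div_lt_one hq0]; exact hβq)).const_mul M
      rwa [mul_zero] at h1
    have hev := hlim.eventually (gt_mem_nhds (show (0 : ℝ) < ε / 2 by positivity))
    obtain ⟨n₀, hn₀⟩ := Filter.eventually_atTop.mp hev
    refine ⟨n₀, fun n hn => (hb n).trans ?_⟩
    have h1 := (hn₀ n hn).le
    rw [div_pow, mul_div_assoc', div_le_iff₀ (by positivity)] at h1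
    exact h1
  choose! N hN using hone
  refine ⟨∑ c : XG S T h, N c, fun n hn a => ?_⟩
  have hcard : (0 : ℝ) < Nat.card (XG S T h) := by exact_mod_cast Nat.card_pos
  set A := (((univ ×ˢ DDn X hX.fin n).filter fun x : XG S T h × Finset X.Pr =>
        lv S T (x.1.1 + chS ch x.2) = a).card : ℝ) with hA
  set B := (((univ ×ˢ DDn X hX.fin n).filter fun x : XG S T h × Finset X.Pr =>
        lv S T (x.1.1 + chS ch x.2) = a + a0 v0).card : ℝ) with hB
  have h1 := card_lv h hF hp (DDn X hX.fin n) a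
  have h2 := card_lv h hF hp (DDn X hX.fin n) (a + a0 v0)
  rw [← hA] at h1
  rw [← hB] at h2
  have h3 : (Nat.card (XG S T h) : ℝ) * (A - B) = ∑ c : XG S T h,
      (sgR (br S T a c.1) * (1 - sgR (c.1 (S.sg v0.1)))) *
        PSys.SS hX.fin (fun P => sgR (c.1 (S.phi (pl P)))) n := by
    rw [mul_sub, h1, h2, ← sum_sub_distrib]
    refine sum_congr rfl fun c _ => ?_
    rw [br_add_left, sgR_add, br_a0, SS_eq]
    ring
  have h4 : |(Nat.card (XG S T h) : ℝ) * (A - B)| ≤
      (Nat.card (XG S T h) : ℝ) * (ε * (q : ℝ) ^ n) := by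
    rw [h3]
    calc _ ≤ ∑ c : XG S T h, |(sgR (br S T a c.1) * (1 - sgR (c.1 (S.sg v0.1)))) *
        PSys.SS hX.fin (fun P => sgR (c.1 (S.phi (pl P)))) n| := abs_sum_le_sum_abs _ _
      _ ≤ ∑ _c : XG S T h, ε * (q : ℝ) ^ n := by
          refine sum_le_sum fun c _ => ?_
          rcases z01 (c.1 (S.sg v0.1)) with h5 | h5
          · rw [h5, sgR_zero, sub_self, mul_zero, zero_mul, abs_zero]
            positivity
          · have h6 : n ≥ N c :=
              (single_le_sum (f := N) (fun _ _ => Nat.zero_le _) (mem_univ c)).trans hn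
            have h7 := hN c h5 n h6
            rw [h5, sgR_one, abs_mul, abs_mul, sgR_abs, one_mul]
            have h8 : |(1 : ℝ) - -1| = 2 := by norm_num
            rw [h8]
            linarith
      _ = (Nat.card (XG S T h) : ℝ) * (ε * (q : ℝ) ^ n) := by
          rw [sum_const, card_univ, nsmul_eq_mul, Nat.card_eq_fintype_card]
  rw [abs_mul, abs_of_pos hcard] at h4
  exact le_of_mul_le_mul_left h4 hcard

/-! ### The parity -/

/-- The character of the pair `(chi0, D)`. -/
def chX (h : S.Ok) (ch : X.Pr → G → ZMod 2) (x : XG S T h × Finset X.Pr) : G → ZMod 2 :=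
  x.1.1 + chS ch x.2

theorem chX_hom (h : S.Ok) (hp : PrOk S T X pl ch) (x : XG S T h × Finset X.Pr) :
    S.HomG (chX h ch x) := x.1.2.1.add h (chS_hom h hp x.2)

/-- `v0` is a flip place. -/
def Flip (S : Sys G V V1 Pl) (v0 : Pl) : Prop :=
  ∀ chi chi' : G → ZMod 2, S.HomG chi → S.HomG chi' → chi (S.sg v0) = 0 → chi' (S.sg v0) = 0 →
    chi (S.phi v0) ≠ chi' (S.phi v0) → S.wv chi chi' v0 + S.dk (S.sg v0) = 1

/-- What is used about parity. -/
structure ParOk (S : Sys G V V1 Pl) (h : S.Ok) (qv : Pl → V1 × V1 → ZMod 2)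
    (qq : V1 → ZMod 2) : Prop where
  q : S.QOk qv
  inv : QInv S qq
  recq : S.RecQ
  fin : ∀ chi : G → ZMod 2, S.HomG chi → Finite (S.Sel1 h chi)

theorem dS_of_lv (h : S.Ok) {qv : Pl → V1 × V1 → ZMod 2} {qq : V1 → ZMod 2}
    (hP : ParOk S h qv qq) (hp : PrOk S T X pl ch) (hT : ∀ v, v ∉ T → v ∈ S.good)
    {x y : XG S T h × Finset X.Pr} (he : lv S T (chX h ch x) = lv S T (chX h ch y)) :
    S.dS h (chX h ch x) = S.dS h (chX h ch y) := by
  refine Sys.dS_eq_of_agree h hP.q hP.inv hP.recq (chX_hom h hp x) (chX_hom h hp y)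
    (hP.fin _ (chX_hom h hp x)) (hP.fin _ (chX_hom h hp y)) T hT fun v hv => ?_
  have h1 := congrFun he ⟨v, hv⟩
  exact Sys.agree_D h (chX_hom h hp x) (chX_hom h hp y) (congrArg Prod.fst h1)
    (congrArg Prod.snd h1)

theorem dS_of_flip (h : S.Ok) {qv : Pl → V1 × V1 → ZMod 2} {qq : V1 → ZMod 2}
    (hP : ParOk S h qv qq) (hp : PrOk S T X pl ch) (hT : ∀ v, v ∉ T → v ∈ S.good) {v0 : T}
    (hfl : Flip S v0.1) {x y : XG S T h × Finset X.Pr} (hx : chX h ch x (S.sg v0.1) = 0)
    (he : lv S T (chX h ch y) = lv S T (chX h ch x) + a0 v0) :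
    S.dS h (chX h ch y) = S.dS h (chX h ch x) + 1 := by
  classical
  have e0 : loc2 S v0.1 (chX h ch y) = loc2 S v0.1 (chX h ch x) + (0, 1) := by
    have := congrFun he v0
    rw [Pi.add_apply, a0, Pi.single_eq_same] at this
    exact this
  have e1 : chX h ch y (S.sg v0.1) = chX h ch x (S.sg v0.1) + 0 := congrArg Prod.fst e0
  have e2 : chX h ch y (S.phi v0.1) = chX h ch x (S.phi v0.1) + 1 := congrArg Prod.snd e0
  rw [add_zero] at e1
  have hne : chX h ch y (S.phi v0.1) ≠ chX h ch x (S.phi v0.1) := by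
    rw [e2]
    generalize chX h ch x (S.phi v0.1) = z
    revert z
    decide
  have h1 := Sys.dS_flip h hP.q hP.inv hP.recq (chX_hom h hp y) (chX_hom h hp x)
    (hP.fin _ (chX_hom h hp y)) (hP.fin _ (chX_hom h hp x)) T hT v0.2 fun v hv hvne => by
      have h2 := congrFun he ⟨v, hv⟩
      have h3 : (a0 v0 : T → ZMod 2 × ZMod 2) ⟨v, hv⟩ = 0 := by
        rw [a0, Pi.single_eq_of_ne]
        exact fun h4 => hvne (congrArg Subtype.val h4)
      rw [Pi.add_apply, h3, add_zero] at h2
      exact Sys.agree_D h (chX_hom h hp y) (chX_hom h hp x) (congrArg Prod.fst h2)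
        (congrArg Prod.snd h2)
  rw [Sys.sq2_unr (e1.trans hx) hx hne,
    hfl _ _ (chX_hom h hp y) (chX_hom h hp x) (e1.trans hx) hx hne] at h1
  have key : ∀ a b : ZMod 2, a + b = 1 → a = b + 1 := by decide
  exact key _ _ h1

open Classical in
/-- **Half of the twists which are unramified at the flip place have even 2-Selmer rank.** -/
theorem half_sum (h : S.Ok) {qv : Pl → V1 × V1 → ZMod 2} {qq : V1 → ZMod 2}
    (hP : ParOk S h qv qq) (hF : LagF S (T : Set Pl)) (hp : PrOk S T X pl ch)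
    (hT : ∀ v, v ∉ T → v ∈ S.good) [Fintype (XG S T h)] {q : ℕ} (hX : X.Ok q) {v0 : T}
    (hfl : Flip S v0.1) (hch : ChebQ S T X pl q v0.1) {ε : ℝ} (hε : 0 < ε) :
    ∃ n₀ : ℕ, ∀ n ≥ n₀, |∑ x ∈ (univ ×ˢ DDn X hX.fin n).filter
      (fun x : XG S T h × Finset X.Pr => chX h ch x (S.sg v0.1) = 0),
        sgR (S.dS h (chX h ch x))| ≤ ε * (q : ℝ) ^ n := by
  set A := Fintype.card (T → ZMod 2 × ZMod 2) with hA
  have hA0 : (0 : ℝ) < A := by
    have : 0 < A := Fintype.card_pos
    exact_mod_cast this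
  obtain ⟨n₀, hn₀⟩ := equi h hF hp hX hch (ε := ε / A) (by positivity)
  refine ⟨n₀, fun n hn => ?_⟩
  have hq0 : (0 : ℝ) ≤ (q : ℝ) ^ n := by positivity
  -- the sum over one local vector
  set F : (T → ZMod 2 × ZMod 2) → ℝ := fun a => ∑ x ∈ (univ ×ˢ DDn X hX.fin n).filter
    (fun x : XG S T h × Finset X.Pr => lv S T (chX h ch x) = a), sgR (S.dS h (chX h ch x)) with hFd
  set Nn : (T → ZMod 2 × ZMod 2) → ℝ := fun a => (((univ ×ˢ DDn X hX.fin n).filter
    fun x : XG S T h × Finset X.Pr => lv S T (chX h ch x) = a).card : ℝ) with hNd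
  have hFc : ∀ (a : T → ZMod 2 × ZMod 2) (x : XG S T h × Finset X.Pr),
      lv S T (chX h ch x) = a → F a = sgR (S.dS h (chX h ch x)) * Nn a := by
    intro a x hx
    rw [hFd, hNd]
    beta_reduce
    rw [card_eq_sum_ones, Nat.cast_sum, mul_sum]
    refine sum_congr rfl fun y hy => ?_
    rw [dS_of_lv h hP hp hT ((mem_filter.1 hy).2.trans hx.symm), Nat.cast_one, mul_one]
  have hF0 : ∀ a, (¬ ∃ x : XG S T h × Finset X.Pr, lv S T (chX h ch x) = a) →
      F a = 0 ∧ Nn a = 0 := by
    intro a ha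
    have h1 : (univ ×ˢ DDn X hX.fin n).filter
        (fun x : XG S T h × Finset X.Pr => lv S T (chX h ch x) = a) = ∅ := by
      rw [filter_eq_empty_iff]
      intro x _ hx
      exact ha ⟨x, hx⟩
    rw [hFd, hNd]
    beta_reduce
    rw [h1, sum_empty, card_empty]
    exact ⟨rfl, Nat.cast_zero⟩
  have hpair : ∀ a : T → ZMod 2 × ZMod 2, (a v0).1 = 0 →
      |F a + F (a + a0 v0)| ≤ ε / A * (q : ℝ) ^ n := by
    intro a ha
    refine le_trans ?_ (hn₀ n hn a)
    change _ ≤ |Nn a - Nn (a + a0 v0)|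
    by_cases h1 : ∃ x : XG S T h × Finset X.Pr, lv S T (chX h ch x) = a
    · obtain ⟨x, hx⟩ := h1
      by_cases h2 : ∃ y : XG S T h × Finset X.Pr, lv S T (chX h ch y) = a + a0 v0
      · obtain ⟨y, hy⟩ := h2
        have hx0 : chX h ch x (S.sg v0.1) = 0 := by
          have := congrArg (fun z : T → ZMod 2 × ZMod 2 => (z v0).1) hx
          exact this.trans ha
        have h3 := dS_of_flip h hP hp hT hfl hx0 (hy.trans (by rw [hx]))
        rw [hFc a x hx, hFc _ y hy, h3, sgR_add, sgR_one]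
        have h4 : sgR (S.dS h (chX h ch x)) * Nn a +
            sgR (S.dS h (chX h ch x)) * -1 * Nn (a + a0 v0) =
            sgR (S.dS h (chX h ch x)) * (Nn a - Nn (a + a0 v0)) := by ring
        rw [h4, abs_mul, sgR_abs, one_mul]
      · obtain ⟨h3, h4⟩ := hF0 _ h2
        rw [h3, h4, hFc a x hx, add_zero, sub_zero, abs_mul, sgR_abs, one_mul]
    · obtain ⟨h3, h4⟩ := hF0 _ h1
      by_cases h2 : ∃ y : XG S T h × Finset X.Pr, lv S T (chX h ch y) = a + a0 v0
      · obtain ⟨y, hy⟩ := h2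
        rw [h3, h4, hFc _ y hy, zero_add, zero_sub, abs_mul, sgR_abs, one_mul, abs_neg]
      · obtain ⟨h5, h6⟩ := hF0 _ h2
        rw [h3, h4, h5, h6, add_zero, sub_zero]
  -- group by the local vector
  set Q := univ.filter fun a : T → ZMod 2 × ZMod 2 => (a v0).1 = 0 with hQ
  have hgroup : ∑ x ∈ (univ ×ˢ DDn X hX.fin n).filter
      (fun x : XG S T h × Finset X.Pr => chX h ch x (S.sg v0.1) = 0),
        sgR (S.dS h (chX h ch x)) = ∑ a ∈ Q, F a := by
    rw [← sum_fiberwise_of_maps_to (g := fun x => lv S T (chX h ch x)) (t := Q)]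
    · refine sum_congr rfl fun a ha => ?_
      rw [hFd]
      beta_reduce
      rw [filter_filter]
      refine sum_congr ?_ fun _ _ => rfl
      refine filter_congr fun x _ => ?_
      constructor
      · exact fun h1 => h1.2
      · intro h1
        refine ⟨?_, h1⟩
        have h2 := (mem_filter.1 ha).2
        rw [← h1] at h2
        exact h2
    · intro x hx
      exact mem_filter.2 ⟨mem_univ _, (mem_filter.1 hx).2⟩
  have hshift : ∑ a ∈ Q, F a = ∑ a ∈ Q, F (a + a0 v0) := by
    refine sum_bij' (fun a _ => a + a0 v0) (fun a _ => a + a0 v0) ?_ ?_ ?_ ?_ ?_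
    · intro a ha
      refine mem_filter.2 ⟨mem_univ _, ?_⟩
      rw [Pi.add_apply, a0, Pi.single_eq_same, Prod.fst_add, (mem_filter.1 ha).2, add_zero]
    · intro a ha
      refine mem_filter.2 ⟨mem_univ _, ?_⟩
      rw [Pi.add_apply, a0, Pi.single_eq_same, Prod.fst_add, (mem_filter.1 ha).2, add_zero]
    · intro a _
      rw [add_assoc, ZModModule.add_self, add_zero]
    · intro a _
      rw [add_assoc, ZModModule.add_self, add_zero]
    · intro a _
      rw [add_assoc, ZModModule.add_self, add_zero]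
  have h2 : |∑ a ∈ Q, F a + ∑ a ∈ Q, F a| ≤ ε * (q : ℝ) ^ n := by
    nth_rewrite 2 [hshift]
    rw [← sum_add_distrib]
    calc |∑ a ∈ Q, (F a + F (a + a0 v0))| ≤ ∑ a ∈ Q, |F a + F (a + a0 v0)| :=
          abs_sum_le_sum_abs _ _
      _ ≤ ∑ _a ∈ Q, ε / A * (q : ℝ) ^ n := sum_le_sum fun a ha => hpair a (mem_filter.1 ha).2
      _ = (Q.card : ℝ) * (ε / A * (q : ℝ) ^ n) := by rw [sum_const, nsmul_eq_mul]
      _ ≤ (A : ℝ) * (ε / A * (q : ℝ) ^ n) := by
          refine mul_le_mul_of_nonneg_right ?_ (by positivity)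
          exact_mod_cast card_le_univ Q
      _ = ε * (q : ℝ) ^ n := by field_simp
  rw [hgroup]
  have h3 : |∑ a ∈ Q, F a + ∑ a ∈ Q, F a| = 2 * |∑ a ∈ Q, F a| := by
    rw [← two_mul, abs_mul, abs_two]
  rw [h3] at h2
  have h4 := abs_nonneg (∑ a ∈ Q, F a)
  linarith

end Pool.Agent.SmN.Half
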