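import Pool.Agent.Lib.Sm.P.Lagr

/-!
# SmN block P, module Lagr: three Lagrangians in a degenerate space

`b` a bilinear form on `X`, symmetric on `Y`, `R ≤ Y ≤ X`, `R` the radical of `b` on `Y`.  `A`, `B`,
`C` are subspaces between `R` and `Y` on which the quadratic form vanishes, of dimension `m`,
`dim Y + dim R = 2 m`; then `dim A ∩ B + dim B ∩ C + dim A ∩ C + m` is even.
`kramer_lin`: the same for a form nondegenerate on `X`, `dim X = 2 m`, and `A` any totally singular
subspace of `Y` such that the orthogonal of `A ∩ B` in `Y` is contained in `A + B`.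
-/

set_option autoImplicit false

namespace Pool.Agent.SmN

open Module

section

variable {k X : Type*} [Field k] [AddCommGroup X] [Module k X] [FiniteDimensional k X]

/-- The part of `A` in a complement of `R`. -/
private theorem Lagr_fr {R K A : Submodule k X} (hK : IsCompl R K) (hRA : R ≤ A) :
    finrank k (A ⊓ K : Submodule k X) + finrank k R = finrank k A := by
  have h1 : R ⊔ (A ⊓ K) = A := by
    rw [inf_comm, ← sup_inf_assoc_of_le K hRA, hK.sup_eq_top, top_inf_eq]
  have h2 : R ⊓ (A ⊓ K) = ⊥ := by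
    rw [eq_bot_iff]
    intro x hx
    have : x ∈ R ⊓ K := ⟨hx.1, hx.2.2⟩
    rwa [hK.inf_eq_bot] at this
  have h3 := Submodule.finrank_sup_add_finrank_inf_eq R (A ⊓ K)
  rw [h1, h2, finrank_bot] at h3
  omega

private theorem Lagr_frc {R K Y A : Submodule k X} (hK : IsCompl R K) (hRA : R ≤ A) (hAY : A ≤ Y) :
    finrank k (Submodule.comap (Y ⊓ K).subtype A) + finrank k R = finrank k A := by
  rw [← Lagr_fr hK hRA]
  congr 1
  have h1 : Submodule.comap (Y ⊓ K).subtype A = Submodule.comap (Y ⊓ K).subtype (A ⊓ K) := by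
    ext x
    exact ⟨fun h => ⟨h, x.2.2⟩, fun h => h.1⟩
  rw [h1]
  exact LinearEquiv.finrank_eq (Submodule.comapSubtypeEquivOfLe (inf_le_inf_right K hAY))

section

variable {b : LinearMap.BilinForm k X} {R K Y : Submodule k X}
  (hsym : ∀ x ∈ Y, ∀ y ∈ Y, b x y = b y x) (hK : IsCompl R K) (hRY : R ≤ Y)
  (hrad : ∀ x ∈ Y, ∀ r ∈ R, b x r = 0) (hrad' : ∀ x ∈ Y, (∀ y ∈ Y, b x y = 0) → x ∈ R)

include hK hRY in
private theorem Lagr_dec {x : X} (hx : x ∈ Y) : ∃ r ∈ R, ∃ y ∈ Y ⊓ K, x = r + y := by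
  have h1 : x ∈ R ⊔ K := by rw [hK.sup_eq_top]; trivial
  obtain ⟨r, hr, y, hy, rfl⟩ := Submodule.mem_sup.mp h1
  refine ⟨r, hr, y, ⟨?_, hy⟩, rfl⟩
  have := Y.sub_mem hx (hRY hr)
  rwa [add_sub_cancel_left] at this

include hsym hK hRY hrad hrad' in
private theorem Lagr_nd : (b.restrict (Y ⊓ K)).Nondegenerate := by
  have h0 : ∀ x : (Y ⊓ K : Submodule k X), (∀ y, b.restrict (Y ⊓ K) x y = 0) → x = 0 := by
    intro x hx
    have h1 : (x : X) ∈ R := by
      apply hrad' _ x.2.1
      intro y hy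
      obtain ⟨r, hr, z, hz, rfl⟩ := Lagr_dec hK hRY hy
      rw [map_add, hrad _ x.2.1 r hr, zero_add]
      exact hx ⟨z, hz⟩
    have h2 : (x : X) ∈ R ⊓ K := ⟨h1, x.2.2⟩
    rw [hK.inf_eq_bot] at h2
    exact Subtype.ext h2
  refine ⟨h0, fun y hy => h0 y fun x => ?_⟩
  have := hy x
  change b y x = 0
  rw [hsym _ y.2.1 _ x.2.1]
  exact this

end

/-- Three Lagrangians in a degenerate space. -/
theorem three_lagr_deg (b : LinearMap.BilinForm k X) {R Y : Submodule k X}
    (hsym : ∀ x ∈ Y, ∀ y ∈ Y, b x y = b y x) (q : X → k)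
    (hq : ∀ x ∈ Y, ∀ y ∈ Y, q (x + y) = q x + q y + b x y) (hRY : R ≤ Y)
    (hrad : ∀ x ∈ Y, ∀ r ∈ R, b x r = 0) (hrad' : ∀ x ∈ Y, (∀ y ∈ Y, b x y = 0) → x ∈ R)
    {m : ℕ} (hX : finrank k Y + finrank k R = 2 * m) (A B C : Submodule k X)
    (hRA : R ≤ A) (hRB : R ≤ B) (hRC : R ≤ C) (hAY : A ≤ Y) (hBY : B ≤ Y) (hCY : C ≤ Y)
    (hA : ∀ x ∈ A, q x = 0) (hB : ∀ x ∈ B, q x = 0) (hC : ∀ x ∈ C, q x = 0)
    (hdA : finrank k A = m) (hdB : finrank k B = m) (hdC : finrank k C = m) :
    Even (finrank k (A ⊓ B : Submodule k X) + finrank k (B ⊓ C : Submodule k X) +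
      finrank k (A ⊓ C : Submodule k X) + m) := by
  obtain ⟨K, hK⟩ := R.exists_isCompl
  have hnd := Lagr_nd hsym hK hRY hrad hrad'
  have fY := Lagr_fr hK hRY
  have fA := Lagr_frc hK hRA hAY
  have fB := Lagr_frc hK hRB hBY
  have fC := Lagr_frc hK hRC hCY
  have fAB := Lagr_frc hK (le_inf hRA hRB) (inf_le_left.trans hAY)
  have fBC := Lagr_frc hK (le_inf hRB hRC) (inf_le_left.trans hBY)
  have fAC := Lagr_frc hK (le_inf hRA hRC) (inf_le_left.trans hAY)
  have key := Pool.Agent.Sm.three_lagr (b.restrict (Y ⊓ K)) hnd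
    (fun x y => hsym x x.2.1 y y.2.1) (fun x : (Y ⊓ K : Submodule k X) => q x)
    (fun x y => hq x x.2.1 y y.2.1) (n := m - finrank k R) (by omega)
    (Submodule.comap (Y ⊓ K).subtype A) (Submodule.comap (Y ⊓ K).subtype B)
    (Submodule.comap (Y ⊓ K).subtype C) (fun x hx => hA _ hx) (fun x hx => hB _ hx)
    (fun x hx => hC _ hx) (by omega) (by omega) (by omega)
  rw [← Submodule.comap_inf, ← Submodule.comap_inf, ← Submodule.comap_inf] at key
  rw [Nat.even_iff] at key ⊢
  omega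

/-- The dimension of an isotropic subspace from duality. -/
theorem finrank_of_dual_deg (b : LinearMap.BilinForm k X) {R Y : Submodule k X}
    (hsym : ∀ x ∈ Y, ∀ y ∈ Y, b x y = b y x) (hRY : R ≤ Y)
    (hrad : ∀ x ∈ Y, ∀ r ∈ R, b x r = 0) (hrad' : ∀ x ∈ Y, (∀ y ∈ Y, b x y = 0) → x ∈ R)
    {m : ℕ} (hX : finrank k Y + finrank k R = 2 * m) (A B : Submodule k X)
    (hRA : R ≤ A) (hRB : R ≤ B) (hAY : A ≤ Y) (hBY : B ≤ Y)
    (hA : ∀ x ∈ A, ∀ y ∈ A, b x y = 0) (hdB : finrank k B = m)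
    (hdual : ∀ x ∈ Y, (∀ y ∈ A ⊓ B, b y x = 0) → x ∈ A ⊔ B) : finrank k A = m := by
  obtain ⟨K, hK⟩ := R.exists_isCompl
  have hnd := Lagr_nd hsym hK hRY hrad hrad'
  have fY := Lagr_fr hK hRY
  have fA := Lagr_frc hK hRA hAY
  have fB := Lagr_frc hK hRB hBY
  have key := Pool.Agent.Sm.finrank_of_dual (b.restrict (Y ⊓ K)) hnd (n := m - finrank k R)
    (by omega) (Submodule.comap (Y ⊓ K).subtype A) (Submodule.comap (Y ⊓ K).subtype B)
    (fun x hx y hy => hA _ hx _ hy) (by omega) (by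
      intro x hx
      have h1 : (x : X) ∈ A ⊔ B := by
        apply hdual _ x.2.1
        intro y hy
        obtain ⟨r, hr, z, hz, rfl⟩ := Lagr_dec hK hRY (hAY hy.1)
        have hzAB : z ∈ A ⊓ B := by
          have := (A ⊓ B).sub_mem hy (le_inf hRA hRB hr)
          rwa [add_sub_cancel_left] at this
        rw [map_add, LinearMap.add_apply, hsym r (hRY hr) _ x.2.1, hrad _ x.2.1 r hr, zero_add]
        exact hx ⟨z, hz⟩ hzAB
      obtain ⟨a, ha, c, hc, hac⟩ := Submodule.mem_sup.mp h1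
      obtain ⟨r1, hr1, a', ha', rfl⟩ := Lagr_dec hK hRY (hAY ha)
      obtain ⟨r2, hr2, c', hc', rfl⟩ := Lagr_dec hK hRY (hBY hc)
      have ha2 : a' ∈ A := by
        have := A.sub_mem ha (hRA hr1)
        rwa [add_sub_cancel_left] at this
      have hc2 : c' ∈ B := by
        have := B.sub_mem hc (hRB hr2)
        rwa [add_sub_cancel_left] at this
      have h2 : (x : X) - a' - c' ∈ R ⊓ K := by
        refine ⟨?_, K.sub_mem (K.sub_mem x.2.2 ha'.2) hc'.2⟩
        have : (x : X) - a' - c' = r1 + r2 := by rw [← hac]; abel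
        rw [this]
        exact R.add_mem hr1 hr2
      rw [hK.inf_eq_bot, Submodule.mem_bot] at h2
      have h3 : x = ⟨a', ha'⟩ + ⟨c', hc'⟩ := by
        apply Subtype.ext
        change (x : X) = a' + c'
        rw [sub_sub, sub_eq_zero] at h2
        exact h2
      rw [h3]
      exact Submodule.add_mem_sup ha2 hc2)
  omega

/-- The dimension of the left orthogonal of a subspace for a nondegenerate form. -/
theorem finrank_left_orth (b : LinearMap.BilinForm k X) (hnd : ∀ x, (∀ y, b x y = 0) → x = 0)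
    (P O : Submodule k X) (hO : ∀ x, x ∈ O ↔ ∀ y ∈ P, b x y = 0) :
    finrank k O + finrank k P = finrank k X := by
  have hinj : Function.Injective b := by
    rw [injective_iff_map_eq_zero]
    intro x hx
    exact hnd x fun y => by rw [hx]; rfl
  have hbij : Function.Bijective b := by
    refine ⟨hinj, ?_⟩
    rw [← LinearMap.range_eq_top]
    apply Submodule.eq_top_of_finrank_eq
    rw [LinearMap.finrank_range_of_inj hinj, Subspace.dual_finrank_eq]
  let f : X ≃ₗ[k] Module.Dual k X := LinearEquiv.ofBijective b hbij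
  have h1 : O = P.dualAnnihilator.comap (f : X →ₗ[k] Module.Dual k X) := by
    ext x
    rw [hO, Submodule.mem_comap, Submodule.mem_dualAnnihilator]
    rfl
  have h2 : finrank k O = finrank k P.dualAnnihilator := by
    have h3 : (O.map (f : X →ₗ[k] Module.Dual k X)) = P.dualAnnihilator := by
      rw [h1]
      exact Submodule.map_comap_eq_of_surjective f.surjective _
    rw [← h3]
    exact (LinearEquiv.finrank_map_eq f O).symm
  rw [h2, add_comm]
  exact Subspace.finrank_add_finrank_dualAnnihilator_eq P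

/-- Kramer's congruence, linear algebra. -/
theorem kramer_lin (b : LinearMap.BilinForm k X) (hnd : ∀ x, (∀ y, b x y = 0) → x = 0)
    {Y : Submodule k X} (hsym : ∀ x ∈ Y, ∀ y ∈ Y, b x y = b y x) (q : X → k)
    (hq : ∀ x ∈ Y, ∀ y ∈ Y, q (x + y) = q x + q y + b x y) {m : ℕ} (hX : finrank k X = 2 * m)
    (A B C : Submodule k X) (hAY : A ≤ Y) (hBY : B ≤ Y) (hCY : C ≤ Y)
    (hA : ∀ x ∈ A, q x = 0) (hB : ∀ x ∈ B, q x = 0) (hC : ∀ x ∈ C, q x = 0)
    (hdB : finrank k B = m) (hdC : finrank k C = m)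
    (hdual : ∀ x ∈ Y, (∀ y ∈ A ⊓ B, b y x = 0) → x ∈ A ⊔ B) :
    Even (finrank k (A ⊓ B : Submodule k X) + finrank k (A ⊓ C : Submodule k X) +
      finrank k (B ⊓ C : Submodule k X) + m) := by
  have iso : ∀ P : Submodule k X, P ≤ Y → (∀ x ∈ P, q x = 0) → ∀ x ∈ P, ∀ y ∈ P, b x y = 0 := by
    intro P hPY hP x hx y hy
    have h1 := hq x (hPY hx) y (hPY hy)
    rw [hP _ (P.add_mem hx hy), hP _ hx, hP _ hy, zero_add, zero_add] at h1
    exact h1.symm
  -- subspaces of dimension `m` are their own orthogonal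
  have self : ∀ P : Submodule k X, P ≤ Y → (∀ x ∈ P, q x = 0) → finrank k P = m →
      ∀ x, (∀ y ∈ P, b x y = 0) → x ∈ P := by
    intro P hPY hP hdP x hx
    let O : Submodule k X :=
      { carrier := {x | ∀ y ∈ P, b x y = 0}
        zero_mem' := fun y _ => by simp
        add_mem' := fun ha hb y hy => by rw [map_add, LinearMap.add_apply, ha y hy, hb y hy, add_zero]
        smul_mem' := fun c a ha y hy => by
          rw [map_smul, LinearMap.smul_apply, ha y hy, smul_zero] }
    have h1 := finrank_left_orth b hnd P O fun x => Iff.rfl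
    have h2 : P ≤ O := fun x hx y hy => iso P hPY hP x hx y hy
    have h3 : P = O := Submodule.eq_of_le_of_finrank_eq h2 (by omega)
    rw [h3]
    exact hx
  -- the radical of `Y`
  let R : Submodule k X :=
    { carrier := {x | x ∈ Y ∧ ∀ y ∈ Y, b x y = 0}
      zero_mem' := ⟨Y.zero_mem, fun y _ => by simp⟩
      add_mem' := fun ha hb => ⟨Y.add_mem ha.1 hb.1, fun y hy => by
        rw [map_add, LinearMap.add_apply, ha.2 y hy, hb.2 y hy, add_zero]⟩
      smul_mem' := fun c a ha => ⟨Y.smul_mem c ha.1, fun y hy => by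
        rw [map_smul, LinearMap.smul_apply, ha.2 y hy, smul_zero]⟩ }
  have hR : ∀ x, x ∈ R ↔ x ∈ Y ∧ ∀ y ∈ Y, b x y = 0 := fun x => Iff.rfl
  have hRY : R ≤ Y := fun x hx => hx.1
  have hrad : ∀ x ∈ Y, ∀ r ∈ R, b x r = 0 := fun x hx r hr => by
    rw [hsym x hx r (hRY hr)]
    exact hr.2 x hx
  have hrad' : ∀ x ∈ Y, (∀ y ∈ Y, b x y = 0) → x ∈ R := fun x hx h => ⟨hx, h⟩
  have hRB : R ≤ B := fun x hx => self B hBY hB hdB x fun y hy => hx.2 y (hBY hy)
  have hRC : R ≤ C := fun x hx => self C hCY hC hdC x fun y hy => hx.2 y (hCY hy)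
  have hdim : finrank k Y + finrank k R = 2 * m := by
    have hrefl : (b.restrict Y).IsRefl := fun x y hxy => by
      have h1 : b x y = 0 := hxy
      change b y x = 0
      rw [hsym y y.2 x x.2]
      exact h1
    have h1 := LinearMap.BilinForm.finrank_add_finrank_orthogonal hrefl
      (Submodule.comap Y.subtype B)
    have h2 : (b.restrict Y).orthogonal (Submodule.comap Y.subtype B) =
        Submodule.comap Y.subtype B := by
      ext x
      rw [LinearMap.BilinForm.mem_orthogonal_iff]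
      constructor
      · intro h
        refine self B hBY hB hdB x fun y hy => ?_
        have h3 : b y x = 0 := h ⟨y, hBY hy⟩ hy
        rw [hsym x x.2 y (hBY hy)]
        exact h3
      · intro h y hy
        exact iso B hBY hB y hy x h
    have h3 : (Submodule.comap Y.subtype B ⊓ (b.restrict Y).orthogonal ⊤) =
        Submodule.comap Y.subtype R := by
      ext x
      constructor
      · intro h
        refine ⟨x.2, fun y hy => ?_⟩
        have h4 : b y x = 0 := (LinearMap.BilinForm.mem_orthogonal_iff.mp h.2) ⟨y, hy⟩ trivial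
        change b (x : X) y = 0
        rw [hsym x x.2 y hy]
        exact h4
      · intro h
        refine ⟨hRB h, LinearMap.BilinForm.mem_orthogonal_iff.mpr fun y _ => ?_⟩
        exact hrad y y.2 x h
    have h4 : ∀ P : Submodule k X, P ≤ Y → finrank k (Submodule.comap Y.subtype P) = finrank k P :=
      fun P hP => LinearEquiv.finrank_eq (Submodule.comapSubtypeEquivOfLe hP)
    rw [h2, h3, h4 B hBY, h4 R hRY, hdB] at h1
    omega
  have hA'Y : A ⊔ R ≤ Y := sup_le hAY hRY
  have hA' : ∀ x ∈ A ⊔ R, q x = 0 := by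
    intro x hx
    obtain ⟨a, ha, r, hr, rfl⟩ := Submodule.mem_sup.mp hx
    rw [hq a (hAY ha) r (hRY hr), hA a ha, hB r (hRB hr), hrad a (hAY ha) r hr, zero_add, zero_add]
  have hdA : finrank k (A ⊔ R : Submodule k X) = m := by
    refine finrank_of_dual_deg b hsym hRY hrad hrad' hdim (A ⊔ R) B le_sup_right hRB hA'Y hBY
      (iso _ hA'Y hA') hdB ?_
    intro x hx h
    have h1 := hdual x hx fun y hy => h y ⟨Submodule.mem_sup_left hy.1, hy.2⟩
    exact (sup_le_sup_right le_sup_left B) h1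
  have key := three_lagr_deg b hsym q hq hRY hrad hrad' hdim (A ⊔ R) B C le_sup_right hRB hRC hA'Y
    hBY hCY hA' hB hC hdA hdB hdC
  have hmod : ∀ P : Submodule k X, R ≤ P →
      finrank k ((A ⊔ R) ⊓ P : Submodule k X) + finrank k (A ⊓ R : Submodule k X) =
        finrank k (A ⊓ P : Submodule k X) + finrank k R := by
    intro P hP
    have h1 : (A ⊔ R) ⊓ P = (A ⊓ P) ⊔ R := by
      rw [sup_comm, sup_inf_assoc_of_le A hP, sup_comm]
    have h2 : A ⊓ P ⊓ R = A ⊓ R := by rw [inf_assoc, inf_eq_right.mpr hP]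
    have h3 := Submodule.finrank_sup_add_finrank_inf_eq (A ⊓ P) R
    rw [h2] at h3
    rw [h1, h3]
  have e1 := hmod B hRB
  have e2 := hmod C hRC
  rw [Nat.even_iff] at key ⊢
  omega

end

end Pool.Agent.SmN
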