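import Pool.Agent.Lib.SmN.P.MultN
import Pool.Agent.Lib.SmN.Loc.Sy

/-!
# SMITH with action on `V1`, block P, module MultNB: the places where the inertia acts trivially on
`V1` and by a transvection on `V` (even thickness), abstract part

`flip_even`: the first components of the elements of the Kummer groups are `0` or `w0`, and
`W chi v ≠ W chi' v`: then `2 * #(W chi v ⊓ W chi' v) = #V1` and `wv chi chi' v + dk (sg v) = 1`.
`ram_ne`: the elements with first component `w0` of the Kummer groups of two unramified twists which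
differ at the Frobenius are different.
-/

set_option autoImplicit false

open Module

namespace Pool.Agent.SmN

namespace Sys

variable {G V V1 Pl : Type*} [Group G] [AddCommGroup V] [DistribMulAction G V]
  [AddCommGroup V1] [Module (ZMod 2) V1] {S : Sys G V V1 Pl}

/-- The pairing with an unramified pair. -/
theorem sy_unr_left {q : Pl → ℕ} (h : Loc.LocD S q) (v : Pl) {x : V1 × V1} (y : V1 × V1)
    (h0 : x.1 = 0) : S.sy v x y = S.e x.2 (S.ac (S.phi v) y.1) := by
  rw [h.sy_eq, Loc.syf_apply, h0]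
  simp

/-- The pairs `(0, u)`, `e u w0 = 0`. -/
def Nw (S : Sys G V V1 Pl) (w0 : V1) : AddSubgroup (V1 × V1) where
  carrier := {x | x.1 = 0 ∧ S.e x.2 w0 = 0}
  zero_mem' := ⟨rfl, by simp⟩
  add_mem' := by
    rintro x y ⟨h1, h2⟩ ⟨h3, h4⟩
    refine ⟨?_, ?_⟩
    · rw [Prod.fst_add, h1, h3, add_zero]
    · rw [Prod.snd_add, map_add, LinearMap.add_apply, h2, h4, add_zero]
  neg_mem' := by
    rintro x ⟨h1, h2⟩
    refine ⟨?_, ?_⟩
    · rw [Prod.fst_neg, h1, neg_zero]
    · rw [Prod.snd_neg, map_neg, LinearMap.neg_apply, h2, neg_zero]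

theorem card_Nw (h : S.Ok) {w0 : V1} (hw0 : w0 ≠ 0) : 2 * Nat.card (S.Nw w0) = Nat.card V1 := by
  let f : V1 →+ ZMod 2 := ((S.e).flip w0).toAddMonoidHom
  have hf : ∀ u, f u = S.e u w0 := fun u => rfl
  have hsurj : Function.Surjective f := by
    obtain ⟨u, hu⟩ := exists_e_one h hw0
    intro a
    have h01 : ∀ a : ZMod 2, a = 0 ∨ a = 1 := by decide
    rcases h01 a with rfl | rfl
    · exact ⟨0, map_zero f⟩
    · exact ⟨u, hu⟩
  have h1 := card_hom f
  rw [AddMonoidHom.range_eq_top.mpr hsurj, AddSubgroup.card_top, Nat.card_zmod] at h1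
  have h3 : Nat.card f.ker = Nat.card (S.Nw w0) := by
    refine Nat.card_congr ⟨fun u => ⟨(0, u.1), rfl, AddMonoidHom.mem_ker.mp u.2⟩,
      fun x => ⟨x.1.2, AddMonoidHom.mem_ker.mpr x.2.2⟩, fun _ => rfl, fun x => ?_⟩
    exact Subtype.ext (Prod.ext x.2.1.symm rfl)
  rw [← h1, h3, mul_comm]

/-- the pairs in `Nw` belong to the Kummer group if the first components lie in `{0, w0}` -/
theorem Nw_le (h : S.Ok) {q : Pl → ℕ} (hD : Loc.LocD S q) {chi : G → ZMod 2} (hchi : S.HomG chi)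
    {v : Pl} {w0 : V1} (hw0 : w0 ≠ 0) (hph : S.ac (S.phi v) w0 = w0)
    (hW : ∀ x ∈ S.W chi v, x.1 = 0 ∨ x.1 = w0) : S.Nw w0 ≤ S.W chi v := by
  classical
  have hfin : Finite V1 := h.fin1
  by_cases hram : ∃ y ∈ S.W chi v, y.1 = w0
  · obtain ⟨y, hy, hy1⟩ := hram
    -- the subgroup of the unramified elements
    let W0 : AddSubgroup (V1 × V1) := S.W chi v ⊓ Ur
    have h1 : W0 ≤ S.Nw w0 := by
      rintro x ⟨hx, hx1⟩
      refine ⟨hx1, ?_⟩
      have h3 := h.isot chi hchi v x hx y hy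
      rw [sy_unr_left hD v y hx1, hy1, hph] at h3
      exact h3
    have h2 : Nat.card (S.W chi v) ≤ 2 * Nat.card W0 := by
      let f : S.W chi v → W0 × Bool := fun x =>
        if hx : x.1.1 = 0 then (⟨x.1, x.2, hx⟩, true)
        else (⟨x.1 - y, (S.W chi v).sub_mem x.2 hy, by
          change x.1.1 - y.1 = 0
          rw [(hW x.1 x.2).resolve_left hx, hy1, sub_self]⟩, false)
      have hf : Function.Injective f := by
        intro x x' hxx
        by_cases h3 : x.1.1 = 0 <;> by_cases h4 : x'.1.1 = 0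
        · simp only [f, dif_pos h3, dif_pos h4, Prod.mk.injEq, and_true] at hxx
          exact Subtype.ext (congrArg (fun z : W0 => z.1) hxx)
        · simp only [f, dif_pos h3, dif_neg h4, Prod.mk.injEq] at hxx
          exact absurd hxx.2 (by decide)
        · simp only [f, dif_neg h3, dif_pos h4, Prod.mk.injEq] at hxx
          exact absurd hxx.2 (by decide)
        · simp only [f, dif_neg h3, dif_neg h4, Prod.mk.injEq, and_true] at hxx
          have h5 : x.1 - y = x'.1 - y := congrArg (fun z : W0 => z.1) hxx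
          exact Subtype.ext (sub_left_injective h5)
      have h3 := Nat.card_le_card_of_injective f hf
      rw [Nat.card_prod, Nat.card_eq_fintype_card (α := Bool), Fintype.card_bool] at h3
      omega
    rw [card_W h hchi v, ← card_Nw h hw0] at h2
    have h3 : W0 = S.Nw w0 := by
      apply SetLike.coe_injective
      refine Set.eq_of_subset_of_ncard_le h1 ?_ (Set.toFinite _)
      rw [← Nat.card_coe_set_eq, ← Nat.card_coe_set_eq]
      have h4 : Nat.card (S.Nw w0) ≤ Nat.card W0 := by omega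
      exact h4
    rw [← h3]
    exact inf_le_left
  · have h1 : S.W chi v ≤ Ur := by
      intro x hx
      rcases hW x hx with h2 | h2
      · exact h2
      · exact absurd ⟨x, hx, h2⟩ hram
    have h3 : S.W chi v = Ur := by
      apply SetLike.coe_injective
      refine Set.eq_of_subset_of_ncard_le h1 ?_ (Set.toFinite _)
      rw [← Nat.card_coe_set_eq, ← Nat.card_coe_set_eq]
      have e1 : Nat.card (S.W chi v : Set (V1 × V1)) = Nat.card V1 := card_W h hchi v
      have e2 : Nat.card ((Ur : AddSubgroup (V1 × V1)) : Set (V1 × V1)) = Nat.card V1 := card_Ur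
      rw [e1, e2]
    rw [h3]
    intro x hx
    exact hx.1

/-- **The intersection.** -/
theorem card_inf_even (h : S.Ok) {q : Pl → ℕ} (hD : Loc.LocD S q) {chi chi' : G → ZMod 2}
    (hchi : S.HomG chi) (hchi' : S.HomG chi') {v : Pl} {w0 : V1} (hw0 : w0 ≠ 0)
    (hph : S.ac (S.phi v) w0 = w0) (hW : ∀ x ∈ S.W chi v, x.1 = 0 ∨ x.1 = w0)
    (hW' : ∀ x ∈ S.W chi' v, x.1 = 0 ∨ x.1 = w0) (hne : S.W chi v ≠ S.W chi' v) :
    2 * Nat.card (S.W chi v ⊓ S.W chi' v : AddSubgroup (V1 × V1)) = Nat.card V1 := by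
  have hfin : Finite V1 := h.fin1
  have hN := card_Nw h hw0
  have hNle : S.Nw w0 ≤ S.W chi v ⊓ S.W chi' v :=
    le_inf (Nw_le h hD hchi hw0 hph hW) (Nw_le h hD hchi' hw0 hph hW')
  obtain ⟨t, ht⟩ := AddSubgroup.card_dvd_of_le hNle
  obtain ⟨r, hr⟩ : Nat.card (S.W chi v ⊓ S.W chi' v : AddSubgroup (V1 × V1)) ∣ Nat.card V1 := by
    rw [← card_W h hchi v]
    exact AddSubgroup.card_dvd_of_le inf_le_left
  have hpos : 0 < Nat.card (S.Nw w0) := Nat.card_pos
  have hrt : 2 = t * r := by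
    apply Nat.eq_of_mul_eq_mul_left hpos
    rw [← mul_assoc, ← ht, ← hr, ← hN, mul_comm]
  have hr1 : r ≠ 1 := by
    rintro rfl
    rw [mul_one] at hr
    apply hne
    have key : ∀ A : AddSubgroup (V1 × V1), (S.W chi v ⊓ S.W chi' v) ≤ A →
        Nat.card A = Nat.card V1 → S.W chi v ⊓ S.W chi' v = A := by
      intro A hA hcA
      apply SetLike.coe_injective
      refine Set.eq_of_subset_of_ncard_le hA ?_ (Set.toFinite _)
      rw [← Nat.card_coe_set_eq, ← Nat.card_coe_set_eq]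
      have e1 : Nat.card (A : Set (V1 × V1)) = Nat.card V1 := hcA
      have e2 : Nat.card ((S.W chi v ⊓ S.W chi' v : AddSubgroup (V1 × V1)) : Set (V1 × V1)) =
        Nat.card V1 := hr.symm
      rw [e1, e2]
    exact (key _ inf_le_left (card_W h hchi v)).symm.trans (key _ inf_le_right (card_W h hchi' v))
  have hr2 : r ∣ 2 := ⟨t, by rw [hrt, mul_comm]⟩
  rcases (Nat.dvd_prime Nat.prime_two).mp hr2 with h3 | h3
  · exact absurd h3 hr1
  · rw [hr, h3, mul_comm]

private theorem MN_cardB {E : Type*} [AddCommGroup E] [Module (ZMod 2) E]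
    [Module.Finite (ZMod 2) E] : Nat.card E = 2 ^ finrank (ZMod 2) E := by
  rw [Module.natCard_eq_pow_finrank (K := ZMod 2), Nat.card_eq_fintype_card, ZMod.card]

/-- **The sign change at a node of even thickness.** -/
theorem flip_even (h : S.Ok) {q : Pl → ℕ} (hD : Loc.LocD S q) {chi chi' : G → ZMod 2}
    (hchi : S.HomG chi) (hchi' : S.HomG chi') {v : Pl} (hs : S.ac (S.sg v) = 1) {w0 : V1}
    (hw0 : w0 ≠ 0) (hph : S.ac (S.phi v) w0 = w0) (hW : ∀ x ∈ S.W chi v, x.1 = 0 ∨ x.1 = w0)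
    (hW' : ∀ x ∈ S.W chi' v, x.1 = 0 ∨ x.1 = w0) (hne : S.W chi v ≠ S.W chi' v) :
    S.wv chi chi' v + S.dk (S.sg v) = 1 := by
  have hfin : Finite V1 := h.fin1
  have hfin' : Module.Finite (ZMod 2) V1 := Module.Finite.of_finite
  have h1 := card_inf_even h hD hchi hchi' hw0 hph hW hW' hne
  have h2 : finrank (ZMod 2) V1 = finrank (ZMod 2) (S.WI chi chi' v) + 1 := by
    have h3 : Nat.card (S.WI chi chi' v) =
        Nat.card (S.W chi v ⊓ S.W chi' v : AddSubgroup (V1 × V1)) := rfl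
    rw [← h3, MN_cardB, MN_cardB, ← pow_succ'] at h1
    exact (Nat.pow_right_injective le_rfl h1).symm
  rw [dk, hs, fx_one, h2, wv]
  push_cast
  have key : ∀ x : ZMod 2, x + (x + 1) = 1 := by decide
  exact key _

theorem nsmul_odd {x : V} (h2 : (2 : ℕ) • x = 0) {q : ℕ} (hq : Odd q) : q • x = x := by
  obtain ⟨m, rfl⟩ := hq
  rw [add_smul, one_smul, mul_comm, mul_smul, h2, smul_zero, zero_add]

/-- **The ramified elements are different.** `I` = the inertia group. -/
theorem ram_ne (h : S.Ok) {chi chi' : G → ZMod 2} {v : Pl} (h0 : chi (S.sg v) = 0)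
    (h0' : chi' (S.sg v) = 0) (hp0 : chi (S.phi v) = 0) (hp1 : chi' (S.phi v) = 1)
    (hs : S.ac (S.sg v) = 1) {w0 : V1} (hw0 : w0 ≠ 0) (hph : S.ac (S.phi v) w0 = w0)
    {I : Subgroup G} (hId : I ≤ S.D v) (hchiI : ∀ s ∈ I, chi s = 0)
    (hchiI' : ∀ s ∈ I, chi' s = 0)
    (hnor : ∀ s ∈ I, (S.phi v)⁻¹ * s * S.phi v ∈ I)
    (K0 : ∀ B : V, (∀ s ∈ I, (2 : ℕ) • (s • B - B) = 0) → S.sg v • B = B → ∀ s ∈ I, s • B = B)
    (K1 : ∀ Q : V, (∀ s ∈ I, s • ((2 : ℕ) • Q) = (2 : ℕ) • Q) →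
      S.sg v • Q - Q = 0 ∨ S.sg v • Q - Q = S.iota w0)
    (K2 : ∀ (Q : V) (d : V1), (2 : ℕ) • Q = S.iota d → S.e d w0 = 0 → S.sg v • Q = Q)
    {x : V1 × V1} (hx : x ∈ S.W chi v) (hx1 : x.1 = w0) : x ∉ S.W chi' v := by
  intro hx'
  have hdl0 : ∀ (Q : V) (s : G), chi s = 0 → dl chi Q s = s • Q - Q := by
    intro Q s hc
    rw [dl, tw_of_zero _ hc]
  have hdl0' : ∀ (Q : V) (s : G), chi' s = 0 → dl chi' Q s = s • Q - Q := by
    intro Q s hc
    rw [dl, tw_of_zero _ hc]
  obtain ⟨Q, hQ, hQ1, hQ2⟩ := hx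
  obtain ⟨R, hR, hR1, hR2⟩ := hx'
  rw [hdl0 _ _ h0, hx1] at hQ1
  rw [hdl0' _ _ h0', hx1] at hR1
  rw [hdl0 _ _ hp0] at hQ2
  rw [dl, tw_of_one _ hp1] at hR2
  -- `B = Q - R` is fixed by the inertia
  obtain ⟨B, hB⟩ : ∃ B, B = Q - R := ⟨_, rfl⟩
  have hBs : S.sg v • B = B := by
    have h1 : S.sg v • Q - Q = S.sg v • R - R := hQ1.trans hR1.symm
    rw [hB, smul_sub]
    rw [sub_eq_sub_iff_sub_eq_sub]
    exact h1
  have hBI : ∀ s ∈ I, s • B = B := by
    refine K0 B (fun s hsI' => ?_) hBs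
    have h1 := hQ s (hId hsI')
    have h2 := hR s (hId hsI')
    rw [hdl0 _ _ (hchiI s hsI')] at h1
    rw [hdl0' _ _ (hchiI' s hsI')] at h2
    have e : s • B - B = (s • Q - Q) - (s • R - R) := by
      rw [hB, smul_sub]
      abel
    rw [e, smul_sub, h1, h2, sub_zero]
  obtain ⟨C, hC⟩ := h.half B
  -- `κ B`
  have hκ := K1 C (fun s hs' => by rw [hC]; exact hBI s hs')
  have hph2 : ∀ z : V, (z = 0 ∨ z = S.iota w0) → S.phi v • z = z ∧ (2 : ℕ) • z = 0 := by
    rintro z (rfl | rfl)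
    · exact ⟨smul_zero _, smul_zero _⟩
    · exact ⟨by rw [h.iota_ac, hph], two_iota S w0⟩
  obtain ⟨hκ1, hκ2⟩ := hph2 _ hκ
  -- `κ (phi B)`
  have hκ' := K1 (S.phi v • C) (fun s hs' => by
    rw [← (smul_comm (S.phi v) (2 : ℕ) C), hC]
    have h1 := hBI _ (hnor s hs')
    rw [mul_smul, mul_smul, inv_smul_eq_iff] at h1
    exact h1)
  obtain ⟨-, hκ3⟩ := hph2 _ hκ'
  have hsz : ∀ z : V, (2 : ℕ) • z = 0 → S.sg v • z = z := by
    intro z hz
    obtain ⟨w, rfl⟩ := h.iota_range z hz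
    rw [h.iota_ac, hs]
    rfl
  have hcomm : S.sg v • (S.phi v • C) - S.phi v • C = S.sg v • C - C := by
    obtain ⟨j, hj⟩ := h.tors C
    obtain ⟨N, hN, hN1⟩ := h.act_fin j
    obtain ⟨q, hq, hq1⟩ := h.frob v N hN
    have hjp : (2 : ℕ) ^ j • (S.phi v • C) = 0 := by
      have e : ∀ n : ℕ, n • (S.phi v • C) = S.phi v • (n • C) := fun n =>
        (smul_comm (S.phi v) n C).symm
      rw [e, hj, smul_zero]
    have h1 := hN1 _ hq1 (S.phi v • C) hjp
    rw [mul_smul, inv_smul_eq_iff, mul_smul, inv_smul_smul, mul_smul] at h1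
    -- `phi sg C = sg ^ q phi C`
    have hpow : ∀ n : ℕ, S.sg v ^ n • (S.phi v • C) =
        S.phi v • C + n • (S.sg v • (S.phi v • C) - S.phi v • C) := by
      intro n
      induction n with
      | zero => simp
      | succ n ih =>
        rw [pow_succ', mul_smul, ih, smul_add]
        have e : S.sg v • (n • (S.sg v • (S.phi v • C) - S.phi v • C)) =
            n • (S.sg v • (S.phi v • C) - S.phi v • C) := by
          rw [smul_comm, hsz _ hκ3]
        rw [e, succ_nsmul]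
        abel
    rw [hpow q, nsmul_odd hκ3 hq] at h1
    have h3 : S.phi v • (S.sg v • C) = S.phi v • C + (S.sg v • C - C) := by
      have e : S.sg v • C = C + (S.sg v • C - C) := by abel
      conv_lhs => rw [e]
      rw [smul_add, hκ1]
    rw [h3] at h1
    exact (add_left_cancel h1).symm
  -- the element `d'`
  have hd2 : (2 : ℕ) • (Q - (S.phi v • C + C)) = S.iota 0 := by
    rw [smul_sub, smul_add, ← (smul_comm (S.phi v) (2 : ℕ) C), hC, hB, smul_sub, map_zero]
    have e : (2 : ℕ) • Q - (S.phi v • Q - S.phi v • R + (Q - R)) =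
        -(S.phi v • Q - Q) - (-(S.phi v • R) - R) := by
      rw [two_nsmul]
      abel
    rw [e, hQ2, hR2]
    have h3 := neg_iota S x.2
    rw [h3, sub_self]
  have hd3 := K2 _ 0 hd2 (by simp)
  have hd4 : S.sg v • (Q - (S.phi v • C + C)) - (Q - (S.phi v • C + C)) = S.iota w0 := by
    have e : S.sg v • (Q - (S.phi v • C + C)) - (Q - (S.phi v • C + C)) =
        (S.sg v • Q - Q) - ((S.sg v • (S.phi v • C) - S.phi v • C) + (S.sg v • C - C)) := by
      rw [smul_sub, smul_add]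
      abel
    rw [e, hcomm, hQ1, ← two_nsmul, hκ2, sub_zero]
  rw [hd3, sub_self] at hd4
  exact hw0 (h.iota_inj (by rw [← hd4, map_zero]))

end Sys

end Pool.Agent.SmN
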