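import Pool.Agent.Lib.SmJ.P.MultK
import Pool.Agent.Lib.SmJ.E.HSub

/-!
# SMITH with action on the 2-torsion, parity, module MULT: halves of 2-torsion points and of a
rational point, at a place where the inertia fixes the roots

`half_pair`: if `2 Q = ∑ l ∈ T, ee l`, `i ∈ T ↔ j ∈ T` and `a k - a l` is a unit for all `k ≠ i, j` and
all `l ≠ k`, then `Q` is fixed by the inertia group.
`half_pt`: if `2 Q` is the class of a point `P` fixed by `s` and the value of `x(P) - a l` is odd, then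
`s Q - Q = ∑ r ∈ S, ee r` with `l ∈ S`.
`exists_x0`: such points.
-/

set_option autoImplicit false

open Polynomial Pool.Agent.Lib.SmD

namespace Pool.Agent.SmN.Mult

open Pool.Agent.SmJ

variable {K Om : Type} [Field K] [Field Om] [Algebra K Om] {w : ValuationSubring Om} {π : K}
  {g : ℕ} {a : Fin (2 * g + 1) → Om}

section half

variable [HypA a]

omit [HypA a] in
theorem map_PS (σ : Om ≃+* Om) (hσ : (ff a).map (σ : Om →+* Om) = ff a) (ha : ∀ l, σ (a l) = a l)
    (T : Finset (Fin (2 * g + 1))) :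
    (PS a T).map (coMap σ hσ : Co (ff a) →+* Co (ff a)) = PS a T := by
  classical
  have hbr : ∀ l, ((br a l).idl).map (coMap σ hσ : Co (ff a) →+* Co (ff a)) = (br a l).idl := by
    intro l
    rw [Pnt.map_idl]
    congr 1
    have h1 : (br a l).map σ hσ = br a l := by
      apply Pnt.ext
      · exact ha l
      · exact map_zero σ
    rw [h1]
  rw [PS]
  induction T using Finset.induction_on with
  | empty =>
    rw [Finset.prod_empty, Ideal.one_eq_top, Ideal.map_top]
  | insert i T hi ih => rw [Finset.prod_insert hi, Ideal.map_mul, hbr, ih]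

/-- the component `l` of a half of a `2`-torsion point, `a l - a t` a unit for all `t ∈ T` -/
theorem half_unit (hL : LocHyp K w π) {s : Om ≃ₐ[K] Om} (hs : s ∈ iner K w)
    (ha : ∀ l, s (a l) = a l) (hm : (ff a).map ((s : Om ≃+* Om) : Om →+* Om) = ff a)
    {Q : JJ (ff a)} {T : Finset (Fin (2 * g + 1))} (hQ : cls (PS a T) = 2 • Q)
    {l : Fin (2 * g + 1)} (hu : ∀ t ∈ T, w.valuation (a l - a t) = 1)
    {S : Finset (Fin (2 * g + 1))} (hS : Even S.card)
    (hact : act (s : Om ≃+* Om) hm Q = Q + ∑ r ∈ S, ee a r) : l ∉ S := by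
  obtain ⟨ρ, hρ, hρ'⟩ := kum (isNm_PS a T) hQ
  intro hl
  have h20 : (2 : Om) ≠ 0 := HypA.two a
  have h1 := (hρ' _ hm id (fun l => ha l) (map_PS _ hm (fun l => ha l) T) S hS hact l).2 hl
  have h2 : s (ρ l) = -ρ l := h1
  have hv : w.valuation (ρ l ^ 2) = 1 := by
    rw [hρ, fS, eval_prod, map_mul, map_pow, Valuation.map_neg, map_one, one_pow, one_mul,
      map_prod]
    refine Finset.prod_eq_one fun t ht => ?_
    rw [eval_sub, eval_X, eval_C]
    exact hu t ht
  have h3 : s (ρ l) = ρ l := by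
    refine Pool.Agent.Sm.Mult.fix_even hL hs (n := 0) ?_ ?_
    · rw [map_pow, h2, neg_sq]
    · rw [hv, mul_zero, zpow_zero]
  have h4 : ρ l = 0 := by
    have h5 : 2 * ρ l = 0 := by linear_combination h2 - h3
    exact (mul_eq_zero.mp h5).resolve_left h20
  rw [h4, zero_pow two_ne_zero, map_zero] at hv
  exact zero_ne_one hv

/-- **Halves of `2`-torsion points.** -/
theorem half_pair (hL : LocHyp K w π) {i j : Fin (2 * g + 1)}
    (hk : ∀ k, k ≠ i → k ≠ j → ∀ l, l ≠ k → w.valuation (a k - a l) = 1)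
    {s : Om ≃ₐ[K] Om} (hs : s ∈ iner K w) (ha : ∀ l, s (a l) = a l)
    (hm : (ff a).map ((s : Om ≃+* Om) : Om →+* Om) = ff a)
    {Q : JJ (ff a)} {T : Finset (Fin (2 * g + 1))} (hT : i ∈ T ↔ j ∈ T)
    (hQ : cls (PS a T) = 2 • Q) {S : Finset (Fin (2 * g + 1))} (hS : Even S.card)
    (hact : act (s : Om ≃+* Om) hm Q = Q + ∑ r ∈ S, ee a r) : S = ∅ := by
  classical
  have key : ∀ T : Finset (Fin (2 * g + 1)), (i ∈ T ↔ j ∈ T) → cls (PS a T) = 2 • Q →
      ∀ l, l ∉ T → l ∉ S := by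
    intro T hT hQ l hl
    refine half_unit hL hs ha hm hQ (fun t ht => ?_) hS hact
    by_cases h1 : l ≠ i ∧ l ≠ j
    · exact hk l h1.1 h1.2 t (fun h => hl (h ▸ ht))
    · have h2 : t ≠ i ∧ t ≠ j := by
        constructor
        · rintro rfl
          apply h1
          exact ⟨fun h => hl (h ▸ ht), fun h => hl (h ▸ hT.mp ht)⟩
        · rintro rfl
          apply h1
          exact ⟨fun h => hl (h ▸ hT.mpr ht), fun h => hl (h ▸ ht)⟩
      rw [Valuation.map_sub_swap]
      exact hk t h2.1 h2.2 l (fun h => hl (h ▸ ht))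
  rw [Finset.eq_empty_iff_forall_notMem]
  intro l
  by_cases hl : l ∈ T
  · refine key Tᶜ ?_ ?_ l (by rwa [Finset.mem_compl, not_not])
    · rw [Finset.mem_compl, Finset.mem_compl, not_iff_not]
      exact hT
    · rw [cls_PS_compl]
      exact hQ
  · exact key T hT hQ l hl

/-- **Halves of a point.** -/
theorem half_pt (hL : LocHyp K w π) {s : Om ≃ₐ[K] Om} (hs : s ∈ iner K w)
    (ha : ∀ l, s (a l) = a l) (hm : (ff a).map ((s : Om ≃+* Om) : Om →+* Om) = ff a)
    {r : Om} (hr : r ^ 2 = algebraMap K Om π) (hsr : s r = -r)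
    {P : Pnt (ff a)} (hx : s P.x = P.x) (hy : s P.y = P.y) {Q : JJ (ff a)} (hQ : P.cl = 2 • Q)
    {l : Fin (2 * g + 1)} {n : ℤ}
    (hn : w.valuation (P.x - a l) = w.valuation (algebraMap K Om π) ^ (2 * n + 1))
    {S : Finset (Fin (2 * g + 1))} (hS : Even S.card)
    (hact : act (s : Om ≃+* Om) hm Q = Q + ∑ r ∈ S, ee a r) : l ∈ S := by
  have h20 : (2 : Om) ≠ 0 := HypA.two a
  obtain ⟨ρ, hρ, hρ'⟩ := kum P.isNm hQ
  by_contra hl
  have hfix : (P.idl).map (coMap (s : Om ≃+* Om) hm : Co (ff a) →+* Co (ff a)) = P.idl := by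
    rw [Pnt.map_idl]
    have h1 : P.map (s : Om ≃+* Om) hm = P := by
      apply Pnt.ext
      · exact hx
      · exact hy
    rw [h1]
  have h1 := (hρ' _ hm id (fun l => ha l) hfix S hS hact l).1 hl
  have h2 : s (ρ l) = ρ l := h1
  have hρl : ρ l ^ 2 = P.x - a l := by
    rw [hρ, natDegree_X_sub_C, pow_one, eval_sub, eval_X, eval_C]
    ring
  have h3 : s (ρ l) = -ρ l := by
    refine Pool.Agent.Sm.Mult.move_odd hL hs hr hsr (n := n) ?_ ?_
    · rw [map_pow, h2]
    · rw [hρl]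
      exact hn
  have h4 : ρ l = 0 := by
    have h5 : 2 * ρ l = 0 := by linear_combination h3 - h2
    exact (mul_eq_zero.mp h5).resolve_left h20
  rw [h4, zero_pow two_ne_zero] at hρl
  rw [← hρl, map_zero] at hn
  exact zpow_ne_zero _ (Pool.Agent.Sm.Mult.val_pi_ne hL) hn.symm

end half

section pt

/-- **The `x`-coordinate of a point with ramified Kummer image.** -/
theorem exists_x0 (hL : LocHyp K w π) {i j : Fin (2 * g + 1)}
    (hk : ∀ k, k ≠ i → k ≠ j → ∀ l, l ≠ k → w.valuation (a k - a l) = 1) {n : ℤ} (hn1 : 1 ≤ n)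
    (hn : w.valuation (a i - a j) = w.valuation (algebraMap K Om π) ^ n) :
    ∃ x0 : Om, (∃ m : ℤ, 0 ≤ m ∧
      w.valuation (x0 - a i) = w.valuation (algebraMap K Om π) ^ (2 * m + 1) ∧
      w.valuation (x0 - a j) = w.valuation (algebraMap K Om π) ^ (2 * m + 1)) ∧
      (∀ l, l ≠ i → l ≠ j → w.valuation (x0 - a l) = 1) ∧
      ∀ s : Om ≃ₐ[K] Om, s (a i) + s (a j) = a i + a j → s x0 = x0 := by
  have h20 : (2 : Om) ≠ 0 := by
    intro h
    have h1 := hL.two
    rw [h, map_zero] at h1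
    exact zero_ne_one h1
  have hp := hL.pi_pos
  have hlt := hL.pi_lt
  have hhalf : ∀ z : Om, w.valuation (z / 2) = w.valuation z := by
    intro z
    rw [map_div₀, hL.two, div_one]
  have ei : (a i + a j) / 2 - a i = (a j - a i) / 2 := by
    field_simp
    ring
  have ej : (a i + a j) / 2 - a j = (a i - a j) / 2 := by
    field_simp
    ring
  have hni : w.valuation ((a j - a i) / 2) = w.valuation (algebraMap K Om π) ^ n := by
    rw [hhalf, Valuation.map_sub_swap, hn]
  have hnj : w.valuation ((a i - a j) / 2) = w.valuation (algebraMap K Om π) ^ n := by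
    rw [hhalf, hn]
  have hunit : ∀ (x0 : Om) (m : ℤ), 0 ≤ m →
      w.valuation (x0 - a i) = w.valuation (algebraMap K Om π) ^ (2 * m + 1) →
      ∀ l, l ≠ i → l ≠ j → w.valuation (x0 - a l) = 1 := by
    intro x0 m hm0 hm l hli hlj
    have h1 := hk l hli hlj i (Ne.symm hli)
    rw [Valuation.map_sub_swap] at h1
    have h2 : w.valuation (x0 - a i) < 1 := by
      rw [hm]
      rw [zpow_lt_one_iff_right_of_lt_one₀ hp hlt]
      omega
    have e : x0 - a l = (a i - a l) + (x0 - a i) := by ring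
    rw [e, Valuation.map_add_eq_of_lt_left _ (by rw [h1]; exact h2), h1]
  rcases Int.even_or_odd' n with ⟨m, hm | hm⟩
  · -- `n` even
    have hlt2 : ∀ z : Om, w.valuation z = w.valuation (algebraMap K Om π) ^ n →
        w.valuation (z + algebraMap K Om π) = w.valuation (algebraMap K Om π) ^ (2 * (0 : ℤ) + 1) := by
      intro z hz
      have h3 : w.valuation (algebraMap K Om π) ^ n < w.valuation (algebraMap K Om π) ^ (1 : ℤ) :=
        zpow_lt_zpow_right_of_lt_one₀ hp hlt (by omega)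
      rw [zpow_one, ← hz] at h3
      rw [mul_zero, zero_add, zpow_one, Valuation.map_add_eq_of_lt_right _ h3]
    have hxi : w.valuation ((a i + a j) / 2 + algebraMap K Om π - a i) =
        w.valuation (algebraMap K Om π) ^ (2 * (0 : ℤ) + 1) := by
      have e : (a i + a j) / 2 + algebraMap K Om π - a i = (a j - a i) / 2 + algebraMap K Om π := by
        rw [← ei]
        ring
      rw [e]
      exact hlt2 _ hni
    have hxj : w.valuation ((a i + a j) / 2 + algebraMap K Om π - a j) =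
        w.valuation (algebraMap K Om π) ^ (2 * (0 : ℤ) + 1) := by
      have e : (a i + a j) / 2 + algebraMap K Om π - a j = (a i - a j) / 2 + algebraMap K Om π := by
        rw [← ej]
        ring
      rw [e]
      exact hlt2 _ hnj
    refine ⟨(a i + a j) / 2 + algebraMap K Om π, ⟨0, le_rfl, hxi, hxj⟩, hunit _ 0 le_rfl hxi, ?_⟩
    intro s hs
    rw [map_add, map_div₀, map_add, hs, AlgEquiv.commutes, map_ofNat]
  · -- `n` odd
    have hxi : w.valuation ((a i + a j) / 2 - a i) =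
        w.valuation (algebraMap K Om π) ^ (2 * m + 1) := by
      rw [ei, hni, hm]
    have hxj : w.valuation ((a i + a j) / 2 - a j) =
        w.valuation (algebraMap K Om π) ^ (2 * m + 1) := by
      rw [ej, hnj, hm]
    refine ⟨(a i + a j) / 2, ⟨m, by omega, hxi, hxj⟩, hunit _ m (by omega) hxi, ?_⟩
    intro s hs
    rw [map_div₀, map_add, hs, map_ofNat]

/-- **The point.** -/
theorem exists_pt [IsSepClosed Om] (hL : LocHyp K w π) {i j : Fin (2 * g + 1)} (hij : i ≠ j)
    (hk : ∀ k, k ≠ i → k ≠ j → ∀ l, l ≠ k → w.valuation (a k - a l) = 1) {n : ℤ} (hn1 : 1 ≤ n)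
    (hn : w.valuation (a i - a j) = w.valuation (algebraMap K Om π) ^ n)
    (hm : ∀ s : Om ≃ₐ[K] Om, (ff a).map ((s : Om ≃+* Om) : Om →+* Om) = ff a)
    (hd : ∀ s ∈ dec K w, s (a i) + s (a j) = a i + a j) :
    ∃ P : Pnt (ff a), (∃ m : ℤ,
      w.valuation (P.x - a i) = w.valuation (algebraMap K Om π) ^ (2 * m + 1)) ∧
      (∀ s ∈ dec K w, s P.x = P.x) ∧ (∀ s ∈ dec K w, s P.y = P.y ∨ s P.y = -P.y) ∧ P.y ≠ 0 ∧
      ∀ s ∈ iner K w, s P.y = P.y := by
  classical
  have h20 : (2 : Om) ≠ 0 := by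
    intro h
    have h1 := hL.two
    rw [h, map_zero] at h1
    exact zero_ne_one h1
  obtain ⟨x0, ⟨m, -, hmi, hmj⟩, hu, hfix⟩ := exists_x0 hL hk hn1 hn
  obtain ⟨y0, hy0⟩ := Pool.Agent.Lib.SmD.exists_sqrt h20 ((ff a).eval x0)
  have hp := hL.pi_pos
  have hval : w.valuation ((ff a).eval x0) =
      w.valuation (algebraMap K Om π) ^ (2 * (2 * m + 1)) := by
    rw [ff_eval, map_prod, ← Finset.mul_prod_erase _ _ (Finset.mem_univ i),
      ← Finset.mul_prod_erase _ _ (Finset.mem_erase.mpr ⟨hij.symm, Finset.mem_univ j⟩), hmi, hmj,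
      Finset.prod_eq_one, mul_one, ← zpow_add₀ hp.ne']
    · congr 1
      ring
    · intro l hl
      rw [Finset.mem_erase, Finset.mem_erase] at hl
      exact hu l hl.2.1 hl.1
  have hx : ∀ s ∈ dec K w, s x0 = x0 := fun s hs => hfix s (hd s hs)
  have hfx : ∀ s ∈ dec K w, s ((ff a).eval x0) = (ff a).eval x0 := by
    intro s hs
    have h1 := eval_map_apply ((s : Om ≃+* Om) : Om →+* Om) (p := ff a) x0
    rw [hm s] at h1
    have h2 : ((s : Om ≃+* Om) : Om →+* Om) x0 = x0 := hx s hs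
    rw [h2] at h1
    exact h1.symm
  refine ⟨⟨x0, y0, hy0⟩, ⟨m, hmi⟩, hx, ?_, ?_, ?_⟩
  · intro s hs
    have h1 : s y0 ^ 2 = y0 ^ 2 := by rw [← map_pow, hy0, hfx s hs]
    exact sq_eq_sq_iff_eq_or_eq_neg.mp h1
  · rintro h0
    have h0' : y0 = 0 := h0
    rw [h0', zero_pow two_ne_zero] at hy0
    rw [← hy0, map_zero] at hval
    exact zpow_ne_zero _ hp.ne' hval.symm
  · intro s hs
    refine Pool.Agent.Sm.Mult.fix_even hL hs (n := 2 * m + 1) ?_ ?_
    · change s (y0 ^ 2) = y0 ^ 2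
      rw [hy0, hfx s (iner_le_dec K w hs)]
    · change w.valuation (y0 ^ 2) = _
      rw [hy0, hval]

end pt

end Pool.Agent.SmN.Mult
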