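import Pool.Agent.Lib.SmN.P.Q

/-!
# SMITH with action on `V1`, block P, module Q2: the local quadratic forms from the Weil pairing

For a cocycle `c` with values in `V1` and a half `a` of it (`2 a = iota c`), `Ob e chi 2 a` is a 2-cocycle
which does not depend on `chi` (`ob_chi`), is quadratic in `c` with polar form the cup product
(`ob_plus`) and is a coboundary if `c = dl chi Q` (`ob_dl`).
-/

set_option autoImplicit false

open Finset Pool.Agent.SmN.Loc

namespace Pool.Agent.SmN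

variable {G V V1 Pl M : Type*} [Group G] [AddCommGroup V] [DistribMulAction G V]
  [AddCommGroup V1] [Module (ZMod 2) V1] [AddCommGroup M]
  [DistribMulAction G M]

/-! ### algebra -/

/-- Addition in the second variable of the obstruction. -/
theorem plus_alg {T : Type*} [AddCommGroup T] (B : T →+ T →+ M) (hB : ∀ x, B x x = 0)
    (x y c x' y' c' : T) (h1 : ∀ z, B c z + B c z = 0) (h2 : ∀ z, B c' z + B c' z = 0)
    (h3 : B c c' = 0) :
    obf B (x + x') (y + y') (x + x' + (y + y') + (c + c')) =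
      obf B x y (x + y + c) + obf B x' y' (x' + y' + c') + (B x y' + B x y') +
        (B x x' + B y y' - B (x + y + c) (x' + y' + c')) := by
  rw [obf_eq B hB, obf_eq B hB, obf_eq B hB]
  have e1 := alt_neg B hB x c'
  have e2 := alt_neg B hB y c'
  have e3 := alt_neg B hB y x'
  have e4 := h1 x'
  have e5 := h1 y'
  simp only [map_add, AddMonoidHom.add_apply, h3, e1, e2, e3]
  have e6 : B c x' = -B c x' := eq_neg_of_add_eq_zero_left e4
  have e7 : B c y' = -B c y' := eq_neg_of_add_eq_zero_left e5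
  rw [e6, e7]
  have e8 : ∀ a : M, a = a + (B c x' + B c x') + (B c y' + B c y') := fun a => by
    rw [e4, e5, add_zero, add_zero]
  rw [← e6, ← e7]
  rw [e8 (_ + (_ - _))]
  abel

section half

variable (S : Sys G V V1 Pl)

/-- `c` is a cocycle on `H` and `2 a = iota c`. -/
structure HalfOn (H : Subgroup G) (c : G → V1) (a : G → V) : Prop where
  coc : ∀ s ∈ H, ∀ t ∈ H, c (s * t) = c s + S.ac s (c t)
  two : ∀ s ∈ H, (2 : ℕ) • a s = S.iota (c s)

variable {S} {H : Subgroup G} {c d : G → V1} {a b : G → V}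

theorem HalfOn.four (h : HalfOn S H c a) {s : G} (hs : s ∈ H) : (2 : ℕ) ^ 2 • a s = 0 := by
  rw [pow_two, mul_smul, h.two s hs, Sys.two_iota]

theorem HalfOn.htw (hOk : S.Ok) (h : HalfOn S H c a) (chi : G → ZMod 2) (s : G) {t : G}
    (ht : t ∈ H) : (2 : ℕ) • tw chi s (a t) = S.iota (S.ac s (c t)) := by
  rw [← tw_nsmul, h.two t ht, Sys.tw_iota hOk]

theorem HalfOn.df (hOk : S.Ok) (h : HalfOn S H c a) (chi : G → ZMod 2) {s t : G}
    (hs : s ∈ H) (ht : t ∈ H) : (2 : ℕ) • (a (s * t) - a s - tw chi s (a t)) = 0 := by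
  rw [smul_sub, smul_sub, h.htw hOk chi s ht, h.two s hs, h.two _ (H.mul_mem hs ht),
    h.coc s hs t ht, map_add]
  abel

theorem HalfOn.add (h : HalfOn S H c a) (h' : HalfOn S H d b) :
    HalfOn S H (fun s => c s + d s) (fun s => a s + b s) :=
  ⟨fun s hs t ht => by
    rw [h.coc s hs t ht, h'.coc s hs t ht, map_add]
    abel, fun s hs => by rw [smul_add, h.two s hs, h'.two s hs, map_add]⟩

variable {e : ℕ → V → V → M} {j : ZMod 2 →+ M}

/-- The value of the pairing on halves. -/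
theorem e2_eq (hw : Weil S e j) {x y : V} {w w' : V1} (hx : (2 : ℕ) • x = S.iota w)
    (hy : y = S.iota w') : e 2 x y = j (S.e w w') := by
  have h4 : (2 : ℕ) ^ (1 + 1) • x = 0 := by
    rw [pow_succ, pow_one, mul_smul, hx, Sys.two_iota]
  subst hy
  have := hw.red (m := 1) h4 (Sys.two_iota S w')
  rw [pow_one, hx] at this
  rw [← hw.one]
  exact this

/-- (Q3) The obstruction does not depend on the twist. -/
theorem ob_chi (hOk : S.Ok) (he : ∀ w, S.e w w = 0) (hw : Weil S e j) (h : HalfOn S H c a)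
    (chi : G → ZMod 2) {s t : G}
    (hs : s ∈ H) (ht : t ∈ H) : Ob e chi 2 a s t = Ob e (fun _ => 0) 2 a s t := by
  rcases sgn_eq (chi s) with h1 | h1
  · have h2 : tw chi s (a t) = tw (fun _ => 0) s (a t) := by
      rw [tw, tw, h1]
      rfl
    rw [Ob, Ob, h2]
  · set y : V := tw (fun _ => 0) s (a t) with hy
    have h2 : tw chi s (a t) = y + -((2 : ℕ) • y) := by
      rw [hy, tw, tw, h1, two_nsmul]
      simp only [sgn_zero, neg_smul, one_smul]
      abel
    have hx4 := h.four hs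
    have hz4 := h.four (H.mul_mem hs ht)
    have hy4 : (2 : ℕ) ^ 2 • y = 0 := pow_smul_tw _ s (h.four ht)
    have hy2 : (2 : ℕ) • y = S.iota (S.ac s (c t)) := h.htw hOk _ s ht
    have hn : (2 : ℕ) ^ 2 • (-((2 : ℕ) • y)) = 0 := by
      rw [smul_neg, smul_comm, hy4, smul_zero, neg_zero]
    have e1 : e 2 (a (s * t)) (-((2 : ℕ) • y)) = -j (S.e (c (s * t)) (S.ac s (c t))) := by
      rw [hw.neg_right hz4 (by rw [smul_comm, hy4, smul_zero]),
        e2_eq hw (h.two _ (H.mul_mem hs ht)) hy2]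
    have e2 : e 2 (a s) (-((2 : ℕ) • y)) = -j (S.e (c s) (S.ac s (c t))) := by
      rw [hw.neg_right hx4 (by rw [smul_comm, hy4, smul_zero]), e2_eq hw (h.two _ hs) hy2]
    rw [Ob, Ob, h2, ← add_assoc (a s) y, hw.add_right 2 _ _ _ hz4
      (by rw [smul_add, hx4, hy4, add_zero]) hn, hw.add_right 2 _ _ _ hx4 hy4 hn, e1, e2]
    have e3 : j (S.e (c (s * t)) (S.ac s (c t))) + j (S.e (c s) (S.ac s (c t))) = 0 := by
      rw [← map_add, h.coc s hs t ht, LinearMap.map_add₂, he, add_zero,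
        CharTwo.add_self_eq_zero, map_zero]
    have e4 := eq_neg_of_add_eq_zero_left e3
    rw [e4]
    abel

/-- (Q4) The obstruction is quadratic with polar form the cup product. -/
theorem ob_plus (hOk : S.Ok) (hw : Weil S e j) (h : HalfOn S H c a)
    (h' : HalfOn S H d b) (chi : G → ZMod 2) {s t : G} (hs : s ∈ H) (ht : t ∈ H) :
    Ob e chi 2 (fun s => a s + b s) s t = Ob e chi 2 a s t + Ob e chi 2 b s t +
      j (S.e (c s) (S.ac s (d t))) +
        (e 2 (a s) (b s) + s • e 2 (a t) (b t) - e 2 (a (s * t)) (b (s * t))) := by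
  have hst := H.mul_mem hs ht
  let B := hw.B 2
  let X : Tor V 2 := ⟨a s, h.four hs⟩
  let Y : Tor V 2 := ⟨tw chi s (a t), pow_smul_tw chi s (h.four ht)⟩
  let X' : Tor V 2 := ⟨b s, h'.four hs⟩
  let Y' : Tor V 2 := ⟨tw chi s (b t), pow_smul_tw chi s (h'.four ht)⟩
  let D : Tor V 2 := ⟨a (s * t) - a s - tw chi s (a t),
    pow_smul_of_le (i := 1) (by omega) (by rw [pow_one]; exact h.df hOk chi hs ht)⟩
  let D' : Tor V 2 := ⟨b (s * t) - b s - tw chi s (b t),
    pow_smul_of_le (i := 1) (by omega) (by rw [pow_one]; exact h'.df hOk chi hs ht)⟩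
  have hD : D + D = 0 := Subtype.ext (by
    rw [AddSubgroup.coe_add, ← two_nsmul]; exact h.df hOk chi hs ht)
  have hD' : D' + D' = 0 := Subtype.ext (by
    rw [AddSubgroup.coe_add, ← two_nsmul]; exact h'.df hOk chi hs ht)
  have key := plus_alg B (hw.B_alt 2) X Y D X' Y' D'
    (fun z => by rw [← AddMonoidHom.add_apply, ← map_add, hD, map_zero, AddMonoidHom.zero_apply])
    (fun z => by rw [← AddMonoidHom.add_apply, ← map_add, hD', map_zero, AddMonoidHom.zero_apply])
    (hw.small (i := 1) (k := 1) (by omega) (by rw [pow_one]; exact h.df hOk chi hs ht)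
      (by rw [pow_one]; exact h'.df hOk chi hs ht))
  have t1 : ((X + Y + D : Tor V 2) : V) = a (s * t) := by
    change a s + tw chi s (a t) + (a (s * t) - a s - tw chi s (a t)) = _
    abel
  have t2 : ((X' + Y' + D' : Tor V 2) : V) = b (s * t) := by
    change b s + tw chi s (b t) + (b (s * t) - b s - tw chi s (b t)) = _
    abel
  have t3 : ((X + X' + (Y + Y') + (D + D') : Tor V 2) : V) = a (s * t) + b (s * t) := by
    change a s + b s + (tw chi s (a t) + tw chi s (b t)) +
      ((a (s * t) - a s - tw chi s (a t)) + (b (s * t) - b s - tw chi s (b t))) = _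
    abel
  have o1 : obf B (X + X') (Y + Y') (X + X' + (Y + Y') + (D + D')) =
      Ob e chi 2 (fun s => a s + b s) s t := by
    change e 2 ((X + X' + (Y + Y') + (D + D') : Tor V 2) : V) (a s + b s +
      (tw chi s (a t) + tw chi s (b t))) + e 2 (a s + b s) (tw chi s (a t) + tw chi s (b t)) = _
    rw [t3, Ob, tw_add]
  have o2 : obf B X Y (X + Y + D) = Ob e chi 2 a s t := by
    change e 2 ((X + Y + D : Tor V 2) : V) (a s + tw chi s (a t)) + e 2 (a s) (tw chi s (a t)) = _
    rw [t1, Ob]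
  have o3 : obf B X' Y' (X' + Y' + D') = Ob e chi 2 b s t := by
    change e 2 ((X' + Y' + D' : Tor V 2) : V) (b s + tw chi s (b t)) +
      e 2 (b s) (tw chi s (b t)) = _
    rw [t2, Ob]
  have o4 : B X Y' + B X Y' = j (S.e (c s) (S.ac s (d t))) := by
    rw [← map_add]
    refine e2_eq hw (h.two s hs) ?_
    change tw chi s (b t) + tw chi s (b t) = _
    rw [← two_nsmul, h'.htw hOk chi s ht]
  have o5 : B X X' = e 2 (a s) (b s) := rfl
  have o6 : B Y Y' = s • e 2 (a t) (b t) :=
    hw.tw_equiv chi 2 s (h.four ht) (h'.four ht)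
  have o7 : B (X + Y + D) (X' + Y' + D') = e 2 (a (s * t)) (b (s * t)) := by
    change e 2 ((X + Y + D : Tor V 2) : V) ((X' + Y' + D' : Tor V 2) : V) = _
    rw [t1, t2]
  rw [o1, o2, o3, o4, o5, o6, o7] at key
  exact key

/-- (Q5) The obstruction of a coboundary is a coboundary. -/
theorem ob_dl (hw : Weil S e j) {chi : G → ZMod 2} (hchi : ∀ s t, chi (s * t) = chi s + chi t)
    {r : ℕ} {Q Qr : V} (hr : (2 : ℕ) ^ r • Qr = Q) (hQ : (2 : ℕ) ^ (2 + r) • Q = 0)
    (h4 : ∀ s ∈ H, (2 : ℕ) ^ 2 • dl chi Q s = 0) {s t : G} (hs : s ∈ H) (ht : t ∈ H) :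
    Ob e chi 2 (dl chi Q) s t = e (2 + r) Q (dl chi Qr s) + s • e (2 + r) Q (dl chi Qr t) -
      e (2 + r) Q (dl chi Qr (s * t)) := by
  have hst := H.mul_mem hs ht
  have h1 : dl chi Q s + tw chi s (dl chi Q t) = dl chi Q (s * t) := (dl_mul hchi Q s t).symm
  rw [Ob, h1, hw.alt 2 _ (h4 _ hst), zero_add]
  exact cup_dl hw hchi hr hQ s t (h4 s hs) (h4 s hs) (h4 t ht) (h4 _ hst)

end half

end Pool.Agent.SmN
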