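import Pool.Agent.Lib.SmN.P.Coh

/-!
# SMITH with action on the 2-torsion, block P (parity), module RedM: reciprocity for `M` from
reciprocity for `ZMod 2`

`M` = 2-power roots of unity. Everything is reduced to `ZMod 2 = M[2]` by Hilbert 90
(`H^1(D_v, M)` is 2-divisible).
-/

set_option autoImplicit false

namespace Pool.Agent.SmN

variable {G V V1 Pl M : Type*} [Group G] [AddCommGroup V] [DistribMulAction G V]
  [AddCommGroup V1] [Module (ZMod 2) V1]
  [AddCommGroup M] [DistribMulAction G M]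

namespace Sys

/-- Reciprocity for `ZMod 2`-valued 2-cocycles whose local restrictions are cup products. -/
def RecipZ (S : Sys G V V1 Pl) : Prop :=
  ∀ (c : G → G → ZMod 2) (x a : Pl → G → V1), S.TF2 c →
    (∀ s t w, c s t + c (s * t) w = c t w + c s (t * w)) →
    (∀ v, S.TFOn (S.D v) (x v) ∧
      (∀ s ∈ S.D v, ∀ t ∈ S.D v, x v (s * t) = x v s + S.ac s (x v t)) ∧
      S.TFOn (S.D v) (a v) ∧
      (∀ s ∈ S.D v, ∀ t ∈ S.D v, a v (s * t) = a v s + S.ac s (a v t)) ∧
      ∃ b : G → ZMod 2, S.TFOn (S.D v) b ∧ ∀ s ∈ S.D v, ∀ t ∈ S.D v,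
        c s t = S.e (x v s) (S.ac s (a v t)) + (b s + b t + b (s * t))) →
    ∑ᶠ v, S.sy v (S.loc v (x v)) (S.loc v (a v)) = 0

/-- Facts on the module `M` of 2-power roots of unity, the Hasse principle for `ZMod 2`, finiteness
of the quotients. -/
structure MOk (S : Sys G V V1 Pl) (hf : ZMod 2 →+ M) : Prop where
  fin : ∀ N ∈ S.NN, N.FiniteIndex
  hasse : ∀ c : G → G → ZMod 2, S.TF2 c →
    (∀ s t w, c s t + c (s * t) w = c t w + c s (t * w)) →
    (∀ v, ∃ b : G → ZMod 2, S.TFOn (S.D v) b ∧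
      ∀ s ∈ S.D v, ∀ t ∈ S.D v, c s t = b s + b t + b (s * t)) →
    ∃ b : G → ZMod 2, S.TF b ∧ ∀ s t, c s t = b s + b t + b (s * t)
  half : ∀ m : M, ∃ m', (2 : ℕ) • m' = m
  tors : ∀ m : M, ∃ j : ℕ, (2 : ℕ) ^ j • m = 0
  inj : Function.Injective hf
  two : ∀ m : M, (2 : ℕ) • m = 0 → ∃ a, hf a = m
  act : ∀ m : M, ∃ N ∈ S.NN, ∀ s ∈ N, s • m = m
  l90 : ∀ (v : Pl) (z : G → M), S.TFOn (S.D v) z →
    (∀ s ∈ S.D v, ∀ t ∈ S.D v, z (s * t) = z s + s • z t) →
    ∃ (z' : G → M) (m : M), S.TFOn (S.D v) z' ∧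
      (∀ s ∈ S.D v, ∀ t ∈ S.D v, z' (s * t) = z' s + s • z' t) ∧
      ∀ s ∈ S.D v, z s = (2 : ℕ) • z' s + (s • m - m)

variable {S : Sys G V V1 Pl} {hf : ZMod 2 →+ M}

theorem MOk.two_hf (a : ZMod 2) : (2 : ℕ) • hf a = 0 := by
  rw [← map_nsmul, two_nsmul, CharTwo.add_self_eq_zero, map_zero]

private theorem red_zmod2 (a b : ZMod 2) (h : a = 0 ↔ b = 0) : b = a := by
  revert a b
  decide

theorem MOk.fix (hM : S.MOk hf) (s : G) (a : ZMod 2) : s • hf a = hf a := by
  obtain ⟨b, hb⟩ := hM.two (s • hf a) (by rw [smul_comm, MOk.two_hf, smul_zero])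
  rw [← hb]
  congr 1
  apply red_zmod2
  constructor
  · rintro rfl
    apply hM.inj
    rw [hb, map_zero, smul_zero]
  · rintro rfl
    apply hM.inj
    rw [map_zero, eq_comm] at hb
    rw [map_zero]
    rwa [smul_eq_zero_iff_eq] at hb

/-- A `ZMod 2`-valued function with trivial image in `M` is trivial on `D v`. -/
theorem coh_zmod2 (h : S.Ok) (hM : S.MOk hf) (v : Pl) {z z' : G → G → ZMod 2}
    (hz : S.Coh (S.D v) (fun s t => hf (z s t)) (fun s t => hf (z' s t))) :
    ∃ b : G → ZMod 2, S.TFOn (S.D v) b ∧ ∀ s ∈ S.D v, ∀ t ∈ S.D v,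
      z s t = z' s t + (b s + b t + b (s * t)) := by
  obtain ⟨b, hb, h1⟩ := hz
  beta_reduce at h1
  obtain ⟨z2, m, hz2, hc2, h2⟩ := hM.l90 v (fun s => (2 : ℕ) • b s) (hb.comp _)
    (fun s hs t ht => by
      have h3 := congrArg (fun x => (2 : ℕ) • x) (h1 s hs t ht)
      simp only [smul_add, smul_sub, MOk.two_hf, zero_add] at h3
      rw [smul_comm s (2 : ℕ) (b t)]
      rw [eq_comm, sub_eq_zero] at h3
      exact h3.symm)
  beta_reduce at h2
  obtain ⟨m', hm'⟩ := hM.half m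
  have h3 : ∀ s ∈ S.D v, (2 : ℕ) • (b s - z2 s - (s • m' - m')) = 0 := fun s hs => by
    rw [smul_sub, smul_sub, smul_sub, h2 s hs, ← smul_comm s (2 : ℕ) m', hm']
    abel
  set β : G → ZMod 2 := fun s => Function.invFun hf (b s - z2 s - (s • m' - m')) with hβ
  have h4 : ∀ s ∈ S.D v, hf (β s) = b s - z2 s - (s • m' - m') := fun s hs => by
    obtain ⟨a, ha⟩ := hM.two _ (h3 s hs)
    rw [hβ]
    exact Function.invFun_eq ⟨a, ha⟩
  refine ⟨β, ?_, fun s hs t ht => ?_⟩
  · obtain ⟨N, hN, hN'⟩ := hM.act m'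
    have h5 : S.TFOn (S.D v) (fun s : G => s • m') :=
      ⟨N, hN, fun s _ n hn _ => by beta_reduce; rw [mul_smul, hN' n hn]⟩
    exact (TFOn.comp₂ h (TFOn.comp₂ h hb hz2 (fun a b => a - b)) h5
      (fun a b => Function.invFun hf (a - (b - m'))))
  · apply hM.inj
    rw [map_add, map_add, map_add, h1 s hs t ht, h4 s hs, h4 t ht, h4 _ (mul_mem hs ht)]
    have h5 : hf (β (s * t)) = - hf (β (s * t)) := by
      rw [eq_neg_iff_add_eq_zero, ← two_nsmul, MOk.two_hf]
    have h6 : s • hf (β t) = hf (β t) := hM.fix s _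
    rw [h4 t ht] at h6
    rw [h4 _ (mul_mem hs ht)] at h5
    rw [h5, ← h6, hc2 s hs t ht]
    simp only [smul_sub, mul_smul]
    abel

/-- A 2-finite function has finitely many values. -/
theorem TF.fin_range (hM : S.MOk hf) {α : Type*} {f : G → α} (hf' : S.TF f) : (Set.range f).Finite := by
  obtain ⟨N, hN, h1⟩ := hf'
  have : N.FiniteIndex := hM.fin N hN
  have : Finite (G ⧸ N) := N.finite_quotient_of_finiteIndex
  refine (Set.finite_range (fun q : G ⧸ N => f q.out)).subset ?_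
  rintro _ ⟨s, rfl⟩
  obtain ⟨n, hn⟩ := QuotientGroup.mk_out_eq_mul N s
  refine ⟨(s : G ⧸ N), ?_⟩
  beta_reduce
  rw [hn, h1 s n n.2]

theorem TF2.fin_range (hM : S.MOk hf) {α : Type*} {c : G → G → α} (hc : S.TF2 c) :
    (Set.range (fun p : G × G => c p.1 p.2)).Finite := by
  obtain ⟨N, hN, h1⟩ := hc
  have : N.FiniteIndex := hM.fin N hN
  have : Finite (G ⧸ N) := N.finite_quotient_of_finiteIndex
  refine (Set.finite_range (fun q : (G ⧸ N) × (G ⧸ N) => c q.1.out q.2.out)).subset ?_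
  rintro _ ⟨⟨s, t⟩, rfl⟩
  obtain ⟨n, hn⟩ := QuotientGroup.mk_out_eq_mul N s
  obtain ⟨m, hm⟩ := QuotientGroup.mk_out_eq_mul N t
  refine ⟨((s : G ⧸ N), (t : G ⧸ N)), ?_⟩
  beta_reduce
  rw [hn, hm, h1 s t n n.2 m m.2]

theorem MOk.exists_exp (hM : S.MOk hf) {A : Set M} (hA : A.Finite) :
    ∃ k : ℕ, ∀ m ∈ A, (2 : ℕ) ^ k • m = 0 := by
  induction A, hA using Set.Finite.induction_on with
  | empty => exact ⟨0, fun m hm => hm.elim⟩
  | @insert a A _ _ ih =>
    obtain ⟨k, hk⟩ := ih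
    obtain ⟨j, hj⟩ := hM.tors a
    refine ⟨k + j, fun m hm => ?_⟩
    rcases hm with rfl | hm
    · rw [pow_add, mul_smul, hj, smul_zero]
    · rw [add_comm, pow_add, mul_smul, hk m hm, smul_zero]

theorem MOk.act_fin (h : S.Ok) (hM : S.MOk hf) {A : Set M} (hA : A.Finite) :
    ∃ N ∈ S.NN, ∀ s ∈ N, ∀ m ∈ A, s • m = m := by
  induction A, hA using Set.Finite.induction_on with
  | empty => exact ⟨⊤, h.top_mem, fun s _ m hm => hm.elim⟩
  | @insert a A _ _ ih =>
    obtain ⟨N, hN, h1⟩ := ih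
    obtain ⟨N', hN', h2⟩ := hM.act a
    refine ⟨N ⊓ N', h.inf_mem _ hN _ hN', fun s hs m hm => ?_⟩
    rcases hm with rfl | hm
    · exact h2 s hs.2
    · exact h1 s hs.1 m hm

/-- The coboundary of a 2-finite cochain is 2-finite. -/
theorem MOk.tf2_d (h : S.Ok) (hM : S.MOk hf) {b : G → M} (hb : S.TF b) :
    S.TF2 (fun s t => b s + s • b t - b (s * t)) := by
  obtain ⟨N', hN', h2⟩ := hM.act_fin h (TF.fin_range hM hb)
  obtain ⟨N, hN, h1⟩ := hb
  have := h.normal N hN
  refine ⟨N ⊓ N', h.inf_mem _ hN _ hN', fun s t n hn m hm => ?_⟩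
  beta_reduce
  rw [h1 s n hn.1, h1 t m hm.1, mul_smul, h2 n hn.2 _ ⟨t, rfl⟩]
  congr 1
  have h3 : s * n * (t * m) = s * t * ((t⁻¹ * n * t) * m) := by group
  rw [h3, h1]
  refine mul_mem ?_ hm.1
  have := Subgroup.Normal.conj_mem inferInstance n hn.1 t⁻¹
  rwa [inv_inv] at this

/-- The Hasse principle for `M`. -/
theorem hasseM (h : S.Ok) (hM : S.MOk hf) : ∀ (k : ℕ) (c : G → G → M), S.TF2 c →
    (∀ s t w, c s t + c (s * t) w = s • c t w + c s (t * w)) →
    (∀ v, S.Coh (S.D v) c (fun _ _ => 0)) → (∀ s t, (2 : ℕ) ^ k • c s t = 0) →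
    ∃ b : G → M, S.TF b ∧ ∀ s t, c s t = b s + s • b t - b (s * t)
  | 0, c, _, _, _, hk => ⟨fun _ => 0, TF_const h 0, fun s t => by
      have := hk s t
      rw [pow_zero, one_smul] at this
      simp [this]⟩
  | k + 1, c, hc, hcoc, hloc, hk => by
    obtain ⟨N, hN, hcN⟩ := hc
    have h1 : ∀ s t, ∃ a, hf a = (2 : ℕ) ^ k • c s t := fun s t =>
      hM.two _ (by rw [smul_smul, ← pow_succ', hk s t])
    have h2 : ∀ s t, hf (Function.invFun hf ((2 : ℕ) ^ k • c s t)) = (2 : ℕ) ^ k • c s t :=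
      fun s t => Function.invFun_eq (h1 s t)
    obtain ⟨β, hβ, h3⟩ := hM.hasse (fun s t => Function.invFun hf ((2 : ℕ) ^ k • c s t))
      ⟨N, hN, fun s t n hn m hm => by beta_reduce; rw [hcN s t n hn m hm]⟩
      (fun s t w => hM.inj (by
        beta_reduce
        have e := hM.fix s (Function.invFun hf ((2 : ℕ) ^ k • c t w))
        rw [h2] at e
        rw [map_add, map_add, h2, h2, h2, h2, ← e, smul_comm s, ← smul_add, ← smul_add, hcoc]))
      (fun v => by
        obtain ⟨b, hb, h4⟩ := hloc v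
        obtain ⟨b', hb', h5⟩ := coh_zmod2 h hM v
          (z := fun s t => Function.invFun hf ((2 : ℕ) ^ k • c s t)) (z' := fun _ _ => 0)
          ⟨fun s => (2 : ℕ) ^ k • b s, hb.comp _, fun s hs t ht => by
            beta_reduce
            rw [h2, h4 s hs t ht, map_zero]
            simp only [smul_add, smul_sub, smul_zero, smul_comm s ((2 : ℕ) ^ k)]⟩
        exact ⟨b', hb', fun s hs t ht => by
          have := h5 s hs t ht
          beta_reduce at this ⊢
          rw [this, zero_add]⟩)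
    have h4 : ∀ (k : ℕ) (m : M), ∃ m', (2 : ℕ) ^ k • m' = m := by
      intro k
      induction k with
      | zero => exact fun m => ⟨m, by simp⟩
      | succ k ih =>
        intro m
        obtain ⟨m1, hm1⟩ := ih m
        obtain ⟨m2, hm2⟩ := hM.half m1
        exact ⟨m2, by rw [pow_succ, mul_smul, hm2, hm1]⟩
    choose dv hdv using h4 k
    set b1 : G → M := fun s => dv (hf (β s)) with hb1
    have hb1' : S.TF b1 := hβ.comp (fun a => dv (hf a))
    have h5 : ∀ s, (2 : ℕ) ^ k • b1 s = hf (β s) := fun s => hdv _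
    have h6 := hM.tf2_d h hb1'
    obtain ⟨b2, hb2, h7⟩ := hasseM h hM k (fun s t => c s t - (b1 s + s • b1 t - b1 (s * t)))
      (by
        obtain ⟨N', hN', h6'⟩ := h6
        refine ⟨N ⊓ N', h.inf_mem _ hN _ hN', fun s t n hn m hm => ?_⟩
        have e1 := hcN s t n hn.1 m hm.1
        have e2 := h6' s t n hn.2 m hm.2
        beta_reduce at e1 e2 ⊢
        rw [e1, e2])
      (fun s t w => by
        have := hcoc s t w
        beta_reduce
        simp only [smul_sub, smul_add, mul_smul, mul_assoc]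
        rw [← sub_eq_zero] at this ⊢
        rw [← this]
        abel)
      (fun v => by
        obtain ⟨b, hb, h8⟩ := hloc v
        refine ⟨fun s => b s - b1 s, TFOn.comp₂ h hb (hb1'.on _) (fun a b => a - b),
          fun s hs t ht => ?_⟩
        beta_reduce
        rw [h8 s hs t ht]
        simp only [smul_sub]
        abel)
      (fun s t => by
        beta_reduce
        rw [smul_sub, smul_sub, smul_add, smul_comm ((2 : ℕ) ^ k) s, h5, h5, h5, ← h2 s t, h3 s t,
          map_add, map_add, hM.fix]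
        have h9 : hf (β (s * t)) = - hf (β (s * t)) := by
          rw [eq_neg_iff_add_eq_zero, ← two_nsmul, MOk.two_hf]
        rw [sub_eq_add_neg (hf (β s) + hf (β t)), ← h9, sub_self])
    refine ⟨fun s => b1 s + b2 s, TF.comp₂ h hb1' hb2 (fun a b => a + b), fun s t => ?_⟩
    have := h7 s t
    beta_reduce at this ⊢
    rw [sub_eq_iff_eq_add] at this
    rw [this, smul_add]
    abel

/-- Reciprocity for `M`. -/
theorem RecipZ.recipM (h : S.Ok) (hM : S.MOk hf) (hR : S.RecipZ) : S.RecipM hf := by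
  intro c x a hc hcoc hloc
  obtain ⟨k, hk⟩ := hM.exists_exp (TF2.fin_range hM hc)
  have hk' : ∀ s t, (2 : ℕ) ^ k • c s t = 0 := fun s t => hk _ ⟨(s, t), rfl⟩
  obtain ⟨b, hb, h1⟩ := hasseM h hM k (fun s t => (2 : ℕ) • c s t)
    (by
      obtain ⟨N, hN, h2⟩ := hc
      exact ⟨N, hN, fun s t n hn m hm => by beta_reduce; rw [h2 s t n hn m hm]⟩)
    (fun s t w => by
      beta_reduce
      rw [← smul_add, hcoc, smul_add, smul_comm s])
    (fun v => by
      obtain ⟨_, _, _, _, b, hb, h2⟩ := hloc v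
      refine ⟨fun s => (2 : ℕ) • b s, hb.comp _, fun s hs t ht => ?_⟩
      beta_reduce
      rw [h2 s hs t ht]
      simp only [smul_add, smul_sub, MOk.two_hf, smul_comm s (2 : ℕ)])
    (fun s t => by
      beta_reduce
      rw [smul_comm, hk' s t, smul_zero])
  beta_reduce at h1
  choose hv hhv using hM.half
  set b1 : G → M := fun s => hv (b s) with hb1
  have hb1' : S.TF b1 := hb.comp hv
  have h2 : ∀ s t, (2 : ℕ) • (c s t - (b1 s + s • b1 t - b1 (s * t))) = 0 := fun s t => by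
    rw [smul_sub, smul_sub, smul_add, smul_comm (2 : ℕ) s, hb1]
    beta_reduce
    rw [hhv, hhv, hhv, h1 s t, sub_self]
  have h3 : ∀ s t, hf (Function.invFun hf (c s t - (b1 s + s • b1 t - b1 (s * t)))) =
      c s t - (b1 s + s • b1 t - b1 (s * t)) := fun s t => Function.invFun_eq (hM.two _ (h2 s t))
  refine hR (fun s t => Function.invFun hf (c s t - (b1 s + s • b1 t - b1 (s * t)))) x a ?_ ?_ ?_
  · obtain ⟨N, hN, h4⟩ := hc
    obtain ⟨N', hN', h5⟩ := hM.tf2_d h hb1'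
    refine ⟨N ⊓ N', h.inf_mem _ hN _ hN', fun s t n hn m hm => ?_⟩
    have e1 := h4 s t n hn.1 m hm.1
    have e2 := h5 s t n hn.2 m hm.2
    beta_reduce at e1 e2 ⊢
    rw [e1, e2]
  · intro s t w
    apply hM.inj
    beta_reduce
    have e := hM.fix s (Function.invFun hf (c t w - (b1 t + t • b1 w - b1 (t * w))))
    rw [h3] at e
    rw [map_add, map_add, h3, h3, h3, h3, ← e]
    have := hcoc s t w
    simp only [smul_sub, smul_add, mul_smul, mul_assoc]
    rw [← sub_eq_zero] at this ⊢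
    rw [← this]
    abel
  · intro v
    obtain ⟨hx, hx', ha, ha', b2, hb2, h4⟩ := hloc v
    refine ⟨hx, hx', ha, ha',
      coh_zmod2 h hM v (z' := fun s t => S.e (x v s) (S.ac s (a v t))) ?_⟩
    refine ⟨fun s => b2 s - b1 s, TFOn.comp₂ h hb2 (hb1'.on _) (fun a b => a - b),
      fun s hs t ht => ?_⟩
    beta_reduce
    rw [h3, h4 s hs t ht]
    simp only [smul_sub]
    abel

end Sys

end Pool.Agent.SmN
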